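import Mathlib

/-!
Definitions used in the statement: normal schemes, projective morphisms to the spectrum of a
field, canonical divisors (via top degree absolute differential forms), log canonical
log Calabi-Yau pairs over a field, and the Stein degree over a field.
-/

namespace Pool.Agent.Work.MP_a77660_ag

open AlgebraicGeometry CategoryTheory

attribute [local instance] MvPolynomial.gradedAlgebra

/-- A scheme is normal if all its local rings are integrally closed. -/
def IsNormalScheme (X : Scheme.{0}) : Prop :=
  ∀ x : X, IsIntegrallyClosed (X.presheaf.stalk x)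

/-- The structure morphism of projective `N`-space `Proj k[T_0, ..., T_N]` over the field `k`. -/
noncomputable def projSpaceToSpec (k : Type) [Field k] (N : ℕ) :
    Proj (MvPolynomial.homogeneousSubmodule (Fin (N + 1)) k) ⟶ Spec (CommRingCat.of k) :=
  Proj.toSpecZero (MvPolynomial.homogeneousSubmodule (Fin (N + 1)) k) ≫
    Spec.map (CommRingCat.ofHom
      (algebraMap k (MvPolynomial.homogeneousSubmodule (Fin (N + 1)) k 0)))

/-- `f : X ⟶ Spec k` is projective: it factors as a closed immersion into some projective
space over `k` followed by the structure morphism. -/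
def IsProjectiveOver {k : Type} [Field k] {X : Scheme.{0}} (f : X ⟶ Spec (CommRingCat.of k)) :
    Prop :=
  ∃ (N : ℕ) (ι : X ⟶ Proj (MvPolynomial.homogeneousSubmodule (Fin (N + 1)) k)),
    IsClosedImmersion ι ∧ ι ≫ projSpaceToSpec k N = f

/-- A dominant morphism of integral schemes sends the generic point to the generic point. -/
theorem genericPoint_specializes_of_isDominant {W X : Scheme.{0}} [IsIntegral W] [IsIntegral X]
    (φ : W ⟶ X) [IsDominant φ] : φ (genericPoint W) ⤳ genericPoint X := by
  have h := (genericPoint_spec W).image φ.continuous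
  rw [Set.image_univ, φ.denseRange.closure_range] at h
  exact h.specializes (Set.mem_univ _)

/-- The pull-back `K(X) → K(W)` of rational functions along a dominant morphism `W ⟶ X`. -/
noncomputable def pullbackRat {W X : Scheme.{0}} [IsIntegral W] [IsIntegral X]
    (φ : W ⟶ X) [IsDominant φ] : X.functionField →+* W.functionField :=
  (X.presheaf.stalkSpecializes (genericPoint_specializes_of_isDominant φ) ≫
    φ.stalkMap (genericPoint W)).hom

/-- Let `β` be a basis of the absolute differentials of the field `F`, and `ω = β 0 ∧ ... ∧ β (r-1)`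
the corresponding rational top form.  Let `ψ : F → K(W)` (an isomorphism in all uses) and `w` a
point of `W`.  For `a` with all `ψ (a i)` in the local ring at `w` we have
`d (a 0) ∧ ... ∧ d (a (r-1)) = β.det (d a) • ω`; these forms generate the regular top forms at `w`.
So `ω` has order `κ` along `w` (the coefficient of the canonical divisor `div ω` at `w` is `κ`)
if and only if the least order of vanishing of a non-zero `β.det (d a)` is `-κ`. -/
def IsCanonicalCoeff {F : Type} [Field F] {r : ℕ} (β : Module.Basis (Fin r) F Ω[F⁄ℤ])
    {W : Scheme.{0}} [IsIntegral W] [IsLocallyNoetherian W] (ψ : F →+* W.functionField)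
    (w : W) (κ : ℤ) : Prop :=
  IsLeast {n : ℤ | ∃ a : Fin r → F,
    (∀ i, ψ (a i) ∈ (algebraMap (W.presheaf.stalk w) W.functionField).range) ∧
    β.det (fun i => KaehlerDifferential.D ℤ F (a i)) ≠ 0 ∧
    n = W.ord (ψ (β.det (fun i => KaehlerDifferential.D ℤ F (a i)))) w} (-κ)

/-- `(X, B) → Spec k` is a log Calabi-Yau fibration over `Y = Spec k`.  The divisor `B` is given
by its coefficients at the points of codimension one. -/
structure IsLogCalabiYauOver {k : Type} [Field k] {X : Scheme.{0}} [IsIntegral X]
    [IsLocallyNoetherian X] (f : X ⟶ Spec (CommRingCat.of k)) (B : X → ℚ) : Prop where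
  normal : IsNormalScheme X
  projective : IsProjectiveOver f
  contraction : Function.Bijective f.appTop
  coeff_nonneg : ∀ x, 0 ≤ B x
  finite_support : (Function.support B).Finite
  support_codim_one : ∀ x, B x ≠ 0 → Order.coheight x = 1
  trivial_and_lc : ∃ (r : ℕ) (β : Module.Basis (Fin r) X.functionField Ω[X.functionField⁄ℤ])
    (m : ℕ) (g : X.functionField), 0 < m ∧ g ≠ 0 ∧
    (∀ x : X, Order.coheight x = 1 → ∃ κ : ℤ,
      IsCanonicalCoeff β (RingHom.id X.functionField) x κ ∧
        (X.ord g x : ℚ) = m * (κ + B x)) ∧
    (∀ (W : Scheme.{0}) [IsIntegral W] [IsLocallyNoetherian W] (φ : W ⟶ X) [IsDominant φ],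
      IsNormalScheme W → IsProper φ → Function.Bijective (pullbackRat φ) →
      ∀ w : W, Order.coheight w = 1 → ∃ κ : ℤ,
        IsCanonicalCoeff β (pullbackRat φ) w κ ∧
          (W.ord (pullbackRat φ g) w : ℚ) / m - κ ≤ 1)

/-- The Stein degree of `g : S ⟶ Spec k`, that is `dim_k H^0(S, O_S)`. -/
noncomputable def steinDegree {k : Type} [Field k] {S : Scheme.{0}}
    (g : S ⟶ Spec (CommRingCat.of k)) : ℕ :=
  letI : Algebra k Γ(S, ⊤) :=
    ((Scheme.ΓSpecIso (CommRingCat.of k)).inv ≫ g.appTop).hom.toAlgebra
  Module.finrank k Γ(S, ⊤)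

end Pool.Agent.Work.MP_a77660_ag
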