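import Pool.Agent.Work.MP_a77660_ag.ValBridge
import Pool.Agent.Work.MP_a77660_ag.Defs

-- merged part: Pool.Agent.Work.MP_a77660_ag.Field2
section
/-!
The function field of the surface and its derivations.
-/

namespace Pool.Agent.Work.MP_a77660_ag

open MvPolynomial

variable (n : ℕ)

/-- The coordinate `s = y / x`. -/
noncomputable def ss : EE n := xv n 1 / xv n 0
/-- The coordinate `e`. -/
noncomputable def ee : EE n := al n 0 + xv n 0 ^ n / xv n 2
/-- The coordinates `u_i`, with `u_0 = 0`. -/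
noncomputable def UU (i : Fin (n + 1)) : EE n := al n i + ss n ^ (i : ℕ) * al n 0
/-- The generators of the function field. -/
noncomputable def tt : Fin (n + 3) → EE n :=
  Matrix.vecCons (al n 0 ^ 2) (Matrix.vecCons (ss n) (Matrix.vecCons (ee n)
    (fun i : Fin n => UU n i.succ)))
/-- The function field of the surface. -/
noncomputable def FF : Subfield (EE n) := Subfield.closure (Set.range (tt n))

theorem tt_mem (l : Fin (n + 3)) : tt n l ∈ FF n := Subfield.subset_closure ⟨l, rfl⟩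

theorem ss_ne_zero : ss n ≠ 0 := div_ne_zero (xv_ne_zero n 1) (xv_ne_zero n 0)

theorem UU_zero : UU n 0 = 0 := by
  simp [UU, CharTwo.add_self_eq_zero]

theorem a0_mem : al n 0 ^ 2 ∈ FF n := tt_mem n 0
theorem ss_mem : ss n ∈ FF n := tt_mem n 1
theorem ee_mem : ee n ∈ FF n := tt_mem n 2
theorem UU_mem (i : Fin (n + 1)) : UU n i ∈ FF n := by
  refine Fin.cases ?_ (fun i => ?_) i
  · rw [UU_zero]; exact zero_mem _
  · exact tt_mem n i.succ.succ.succ

theorem al_eq (i : Fin (n + 1)) : al n i = UU n i + ss n ^ (i : ℕ) * al n 0 := by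
  rw [UU, add_assoc, CharTwo.add_self_eq_zero, add_zero]

theorem al_sq (i : Fin (n + 1)) : al n i ^ 2 = UU n i ^ 2 + (ss n ^ (i : ℕ)) ^ 2 * al n 0 ^ 2 := by
  rw [al_eq n i, CharTwo.add_sq, mul_pow]

theorem al_sq_mem (i : Fin (n + 1)) : al n i ^ 2 ∈ FF n := by
  rw [al_sq]
  exact add_mem (pow_mem (UU_mem n i) 2) (mul_mem (pow_mem (pow_mem (ss_mem n) _) 2) (a0_mem n))

theorem sq_LL_mem (l : LL n) : algebraMap (LL n) (EE n) l ^ 2 ∈ FF n :=
  mem_of_subfield_LL n (algebraMap (LL n) (EE n)) ((FF n).comap (frobenius (EE n) 2))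
    (fun i => al_sq_mem n i) l

theorem KK_mem {l : LL n} (hl : l ∈ KK n) : algebraMap (LL n) (EE n) l ∈ FF n := by
  obtain ⟨l', rfl⟩ := (mem_KK n).mp hl
  rw [map_pow]
  exact sq_LL_mem n l'

/-- The derivation whose kernel contains the function field. -/
theorem exists_Dv : ∃ D : Derivation ℤ (EE n) (EE n),
    (∀ i, D (al n i) = ss n ^ (i : ℕ)) ∧ ∀ f ∈ FF n, D f = 0 := by
  obtain ⟨D, hX, hα⟩ := exists_der n ![0, 0, xv n 2 ^ 2 / xv n 0 ^ n] (fun i => ss n ^ (i : ℕ))
  have h0 : D (xv n 0) = 0 := hX 0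
  have h1 : D (xv n 1) = 0 := hX 1
  have h2 : D (xv n 2) = xv n 2 ^ 2 / xv n 0 ^ n := hX 2
  have hs : D (ss n) = 0 := by
    rw [ss, Derivation.leibniz_div, h0, h1]; simp
  have hx := xv_ne_zero n 0
  have hz := xv_ne_zero n 2
  refine ⟨D, hα, fun f hf => ?_⟩
  induction hf using Subfield.closure_induction with
  | mem x hx' =>
    obtain ⟨l, rfl⟩ := hx'
    refine Fin.cases ?_ (fun l => ?_) l
    · exact der_sq D _
    refine Fin.cases ?_ (fun l => ?_) l
    · exact hs
    refine Fin.cases ?_ (fun l => ?_) l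
    · change D (ee n) = 0
      rw [ee, map_add, hα, Derivation.leibniz_div, Derivation.leibniz_pow, h0, h2]
      simp only [smul_eq_mul, mul_zero, smul_zero, Fin.val_zero, pow_zero]
      field_simp
      ring
    · change D (UU n l.succ) = 0
      rw [UU, map_add, Derivation.leibniz, Derivation.leibniz_pow, hs, hα, hα]
      simp [CharTwo.add_self_eq_zero]
  | one => simp
  | add x y _ _ hx hy => rw [map_add, hx, hy, add_zero]
  | neg x _ hx => rw [map_neg, hx, neg_zero]
  | inv x _ hx => rw [Derivation.leibniz_inv, hx, smul_zero]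
  | mul x y _ _ hx hy => rw [Derivation.leibniz, hx, hy]; simp

theorem al_not_mem (i : Fin (n + 1)) : al n i ∉ FF n := by
  obtain ⟨D, h1, h2⟩ := exists_Dv n
  intro h
  have := h2 _ h
  rw [h1] at this
  exact pow_ne_zero _ (ss_ne_zero n) this

theorem mem_KK_of_mem_FF {l : LL n} (hl : algebraMap (LL n) (EE n) l ∈ FF n) : l ∈ KK n := by
  obtain ⟨D, h1, h2⟩ := exists_Dv n
  exact mem_KK_of_der n D h1 (h2 _ hl)

theorem linInd_al : LinearIndependent (KK n) (alL n) := by
  rw [Fintype.linearIndependent_iff]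
  intro g hg j
  obtain ⟨D, -, hD⟩ := exists_der n 0 (fun i => if i = j then 1 else 0)
  have h1 := congrArg (fun l => D (algebraMap (LL n) (EE n) l)) hg
  simp only [map_sum, map_zero] at h1
  have h2 : ∀ i, D (algebraMap (LL n) (EE n) (g i • alL n i)) =
      if i = j then algebraMap (LL n) (EE n) (g i) else 0 := by
    intro i
    change D (algebraMap (LL n) (EE n) ((g i : LL n) * alL n i)) = _
    rw [map_mul, Derivation.leibniz, der_KK n D (g i).2]
    change _ • D (al n i) + _ = _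
    rw [hD]
    simp
  simp only [h2, Finset.sum_ite_eq', Finset.mem_univ, if_true, map_eq_zero] at h1
  exact Subtype.ext h1

theorem ee_add : ee n + al n 0 = xv n 0 ^ n / xv n 2 := by
  rw [ee, add_comm (al n 0), add_assoc, CharTwo.add_self_eq_zero, add_zero]

theorem algInd_tt : AlgebraicIndependent (ZMod 2) (tt n) := by
  let T : Fin (n + 4) → EE n := Matrix.vecCons (xv n 0) (tt n)
  let S := Algebra.adjoin (ZMod 2) (Set.range T)
  let Z : Subfield (EE n) :=
    { carrier := {g | IsAlgebraic S g}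
      mul_mem' := fun ha hb => ha.mul hb
      one_mem' := isAlgebraic_one
      add_mem' := fun ha hb => ha.add hb
      zero_mem' := isAlgebraic_zero
      neg_mem' := fun ha => ha.neg
      inv_mem' := fun _ ha => ha.inv }
  have hT : ∀ i, T i ∈ Z := fun i =>
    isAlgebraic_algebraMap (⟨T i, Algebra.subset_adjoin ⟨i, rfl⟩⟩ : S)
  have hF : FF n ≤ Z := by
    rw [FF, Subfield.closure_le]
    rintro _ ⟨l, rfl⟩
    exact hT l.succ
  have hx : xv n 0 ∈ Z := hT 0
  have h0 : al n 0 ∈ Z := IsAlgebraic.of_pow two_pos (hF (a0_mem n))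
  have hα : ∀ i, al n i ∈ Z := fun i => by
    rw [al_eq]
    exact add_mem (hF (UU_mem n i)) (mul_mem (pow_mem (hF (ss_mem n)) _) h0)
  have hX : ∀ j, xv n j ∈ Z := by
    intro j
    fin_cases j
    · exact hx
    · have : xv n 1 = ss n * xv n 0 := by
        rw [ss, div_mul_cancel₀ _ (xv_ne_zero n 0)]
      change xv n 1 ∈ Z
      rw [this]
      exact mul_mem (hF (ss_mem n)) hx
    · have : xv n 2 = xv n 0 ^ n / (ee n + al n 0) := by
        have hx0 := xv_ne_zero n 0
        have hz0 := xv_ne_zero n 2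
        rw [ee_add]
        field_simp
      change xv n 2 ∈ Z
      rw [this]
      exact div_mem (pow_mem hx _) (add_mem (hF (ee_mem n)) h0)
  have halg : Algebra.IsAlgebraic S (EE n) := ⟨fun g => mem_of_subfield_EE n Z hα hX g⟩
  have hcard : Cardinal.mk (Fin (n + 4)) ≤ Algebra.trdeg (ZMod 2) (EE n) := by
    refine le_trans (le_of_eq ?_) (algInd_gens n).cardinalMk_le_trdeg
    simp only [Cardinal.mk_fintype, Fintype.card_fin, Fintype.card_sum]
    congr 1
    omega
  have hb := Algebra.IsAlgebraic.isTranscendenceBasis_of_le_trdeg_of_finite (ZMod 2) T hcard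
  exact hb.1.comp Fin.succ (Fin.succ_injective _)

/-- The generators as elements of the function field. -/
noncomputable def tF (l : Fin (n + 3)) : FF n := ⟨tt n l, tt_mem n l⟩

theorem closure_tF : Subfield.closure (Set.range (tF n)) = ⊤ := by
  rw [eq_top_iff]
  rintro ⟨f, hf⟩ -
  induction hf using Subfield.closure_induction with
  | mem x hx =>
    obtain ⟨l, rfl⟩ := hx
    exact Subfield.subset_closure ⟨l, rfl⟩
  | one => exact one_mem _
  | add x y _ _ hx hy => exact add_mem hx hy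
  | neg x _ hx => exact neg_mem hx
  | inv x _ hx => exact inv_mem hx
  | mul x y _ _ hx hy => exact mul_mem hx hy

theorem exists_delta : ∃ δ : Fin (n + 3) → Derivation ℤ (FF n) (FF n),
    ∀ i j, δ j (tF n i) = if i = j then 1 else 0 := by
  let _ : Algebra (ZMod 2) (FF n) := ZMod.algebra _ 2
  have hind : AlgebraicIndependent (ZMod 2) (tF n) :=
    AlgebraicIndependent.of_comp
      ({ (FF n).subtype with
          commutes' := fun r => congrArg (fun f : ZMod 2 →+* EE n => f r)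
            (RingHom.ext_zmod ((FF n).subtype.comp (algebraMap _ _)) (algebraMap _ _)) } :
        FF n →ₐ[ZMod 2] EE n) (algInd_tt n)
  have h := fun j => exists_derivation (tF n) hind (closure_tF n) (fun i => if i = j then 1 else 0)
  choose δ hδ using h
  exact ⟨δ, fun i j => hδ j i⟩

/-- The derivations dual to the generators. -/
noncomputable def del : Fin (n + 3) → Derivation ℤ (FF n) (FF n) := (exists_delta n).choose

theorem del_tF (i j : Fin (n + 3)) : del n j (tF n i) = if i = j then 1 else 0 :=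
  (exists_delta n).choose_spec i j

end Pool.Agent.Work.MP_a77660_ag
end

-- merged part: Pool.Agent.Work.MP_a77660_ag.Chart
section
/-!
The two coordinate systems on the function field.
-/

namespace Pool.Agent.Work.MP_a77660_ag

open MvPolynomial

variable (n : ℕ)

/-- The rational function whose divisor is `K + B`. -/
noncomputable def cF : FF n := tF n 1 * (tF n 2 ^ 2 + tF n 0)

/-- A coordinate system on the function field. -/
structure Chart where
  i0 : Fin 3
  i1 : Fin 3
  α0 : Fin (n + 1)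
  σ : Fin n → Fin (n + 1)
  p : Fin n → ℕ
  a : FF n
  s : FF n
  e : FF n
  u : Fin n → FF n
  ha : (a : EE n) = al n α0 ^ 2
  hs : (s : EE n) = xv n i1 / xv n i0
  he : (e : EE n) = al n α0 + xv n i0 ^ n / xv n 2
  hu : ∀ i, (u i : EE n) = al n (σ i) + (s : EE n) ^ p i * al n α0
  hcov : ∀ i, i = α0 ∨ ∃ i', i = σ i'
  hi : (i0 = 0 ∧ i1 = 1) ∨ (i0 = 1 ∧ i1 = 0)
  hjac : cF n * jac (del n) (Matrix.vecCons a (Matrix.vecCons s (Matrix.vecCons e u))) =
    s * (e ^ 2 + a)

theorem jac_tF : jac (del n) (tF n) = 1 := by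
  rw [jac, ← Matrix.det_one (n := Fin (n + 3))]
  congr 1
  ext i j
  simp [del_tF, Matrix.one_apply]

/-- The first coordinate system. -/
noncomputable def chart1 : Chart n where
  i0 := 0
  i1 := 1
  α0 := 0
  σ := Fin.succ
  p := fun i => i + 1
  a := tF n 0
  s := tF n 1
  e := tF n 2
  u := fun i => tF n i.succ.succ.succ
  ha := rfl
  hs := rfl
  he := rfl
  hu := fun _ => rfl
  hcov := fun i => Fin.cases (Or.inl rfl) (fun i => Or.inr ⟨i, rfl⟩) i
  hi := Or.inl ⟨rfl, rfl⟩
  hjac := by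
    have : Matrix.vecCons (tF n 0) (Matrix.vecCons (tF n 1) (Matrix.vecCons (tF n 2)
        fun i : Fin n => tF n i.succ.succ.succ)) = tF n := by
      funext l
      refine Fin.cases rfl (fun l => ?_) l
      refine Fin.cases rfl (fun l => ?_) l
      exact Fin.cases rfl (fun l => rfl) l
    rw [this, jac_tF, mul_one, cF]

/-- The coordinates `u_i` in the function field. -/
noncomputable def UF (i : Fin (n + 1)) : FF n := ⟨UU n i, UU_mem n i⟩

theorem UF_succ (i : Fin n) : UF n i.succ = tF n i.succ.succ.succ := rfl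

theorem UF_zero : UF n 0 = 0 := Subtype.ext (UU_zero n)

theorem tF_one_ne_zero : tF n 1 ≠ 0 := fun h => ss_ne_zero n (congrArg Subtype.val h)

variable {n}

/-- The index map of the second coordinate system. -/
def sig2 (i : Fin n) : Fin (n + 1) := if (i : ℕ) + 1 < n then i.succ else 0

theorem jac2 (ul : Fin n) (hul : (ul : ℕ) + 1 = n) :
    jac (del n) (Matrix.vecCons (UF n ul.succ ^ 2 + (tF n 1 ^ n) ^ 2 * tF n 0)
      (Matrix.vecCons (tF n 1)⁻¹ (Matrix.vecCons (UF n ul.succ + tF n 1 ^ n * tF n 2)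
        fun i => UF n (sig2 i) + (tF n 1)⁻¹ ^ (n - sig2 i) * UF n ul.succ))) =
      (tF n 1 ^ n) ^ 2 * (tF n 1)⁻¹ ^ 2 := by
  have hs := tF_one_ne_zero n
  have hU : ∀ j, del n j (UF n ul.succ) = if ul.succ.succ.succ = j then 1 else 0 := fun j => by
    rw [UF_succ, del_tF]
  have hspow : ∀ (k : ℕ) j, j ≠ 1 → del n j (tF n 1 ^ k) = 0 := fun k j hj => by
    rw [Derivation.leibniz_pow, del_tF, if_neg hj.symm]; simp
  have hsipow : ∀ (k : ℕ) j, j ≠ 1 → del n j ((tF n 1)⁻¹ ^ k) = 0 := fun k j hj => by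
    rw [Derivation.leibniz_pow, Derivation.leibniz_inv, del_tF, if_neg hj.symm]; simp
  have r0 : ∀ j, del n j (UF n ul.succ ^ 2 + (tF n 1 ^ n) ^ 2 * tF n 0) =
      if 0 = j then (tF n 1 ^ n) ^ 2 else 0 := fun j => by
    rw [map_add, Derivation.leibniz, der_sq, der_sq, del_tF]; simp
  have r1 : ∀ j, del n j (tF n 1)⁻¹ = if 1 = j then (tF n 1)⁻¹ ^ 2 else 0 := fun j => by
    rw [Derivation.leibniz_inv, del_tF, CharTwo.neg_eq]; simp
  have r2 : ∀ j, j ≠ 1 → del n j (UF n ul.succ + tF n 1 ^ n * tF n 2) =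
      (if ul.succ.succ.succ = j then 1 else 0) + if 2 = j then tF n 1 ^ n else 0 := fun j hj => by
    rw [map_add, Derivation.leibniz, hU, hspow _ _ hj, del_tF]; simp
  have r3 : ∀ (i : Fin n) j, j ≠ 1 →
      del n j (UF n (sig2 i) + (tF n 1)⁻¹ ^ (n - sig2 i) * UF n ul.succ) =
      (if (i : ℕ) + 1 < n then (if i.succ.succ.succ = j then 1 else 0) else 0) +
        if ul.succ.succ.succ = j then (tF n 1)⁻¹ ^ (n - sig2 i) else 0 := fun i j hj => by
    rw [map_add, Derivation.leibniz, hU, hsipow _ _ hj]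
    congr 1
    · unfold sig2
      split_ifs with h1 h2
      · rw [UF_succ, del_tF, if_pos h2]
      · rw [UF_succ, del_tF, if_neg h2]
      · rw [UF_zero, map_zero]
    · simp
  have h1ne : ∀ i : Fin n, i.succ.succ.succ ≠ (1 : Fin (n + 3)) := fun i h => by
    have := congrArg Fin.val h
    simp at this
  have h2ne : ∀ i : Fin n, i.succ.succ.succ ≠ (2 : Fin (n + 3)) := fun i h => by
    have : (i : ℕ) + 1 + 1 + 1 = 2 := congrArg Fin.val h
    omega
  have h21 : (2 : Fin (n + 3)) ≠ 1 := fun h => by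
    have : 2 = 1 := congrArg Fin.val h
    omega
  rw [jac, det_of_rank _ (fun j => if j = 1 then 0 else if j = ul.succ.succ.succ then 1 else 2)]
  · rw [Fin.prod_univ_succ, Fin.prod_univ_succ, Fin.prod_univ_succ]
    simp only [Matrix.of_apply, Matrix.cons_val_zero, Matrix.cons_val_succ]
    rw [show (Fin.succ 0).succ = (2 : Fin (n + 3)) from rfl]
    rw [r0, r1, r2 _ h21, if_pos rfl, if_pos (by rfl), if_neg (h2ne ul), if_pos (by rfl),
      Finset.prod_eq_single ul]
    · rw [r3 _ _ (h1ne ul), if_neg (by omega), if_pos rfl]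
      have : sig2 ul = 0 := by unfold sig2; rw [if_neg (by omega)]
      rw [this]
      simp only [Fin.val_zero, Nat.sub_zero, zero_add, inv_pow]
      have hsn : tF n 1 ^ n ≠ 0 := pow_ne_zero _ hs
      field_simp
    · intro i _ hi
      have hi' : (i : ℕ) + 1 < n := by
        have h3 : (i : ℕ) ≠ ul := fun h => hi (Fin.ext h)
        have := i.2
        omega
      rw [r3 _ _ (h1ne i), if_pos hi', if_pos rfl, if_neg, add_zero]
      intro h
      exact hi (Fin.succ_injective _ (Fin.succ_injective _ (Fin.succ_injective _ h))).symm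
    · simp
  · intro i j hij
    by_cases hj1 : j = 1
    · subst hj1
      by_cases hi1 : i = 1
      · exact Or.inl hi1
      · right
        simp only [if_true, if_neg hi1]
        split_ifs <;> norm_num
    revert hij
    refine Fin.cases ?_ (fun i => ?_) i
    · intro hij
      simp only [Matrix.of_apply, Matrix.cons_val_zero, r0] at hij
      left
      by_contra h
      exact hij (if_neg h)
    refine Fin.cases ?_ (fun i => ?_) i
    · intro hij
      simp only [Matrix.of_apply, Matrix.cons_val_zero, Matrix.cons_val_succ, r1] at hij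
      exact absurd (if_neg fun h => hj1 h.symm) hij
    refine Fin.cases ?_ (fun i => ?_) i
    · intro hij
      simp only [Matrix.of_apply, Matrix.cons_val_zero, Matrix.cons_val_succ, r2 _ hj1] at hij
      by_cases h2 : 2 = j
      · exact Or.inl h2
      · by_cases h3 : ul.succ.succ.succ = j
        · right
          rw [if_neg hj1, if_pos h3.symm]
          change 1 < if (2 : Fin (n + 3)) = 1 then 0 else if 2 = ul.succ.succ.succ then 1 else 2
          rw [if_neg h21, if_neg (h2ne ul).symm]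
          norm_num
        · rw [if_neg h2, if_neg h3, add_zero] at hij
          exact absurd rfl hij
    · intro hij
      simp only [Matrix.of_apply, Matrix.cons_val_succ, r3 _ _ hj1] at hij
      by_cases h2 : i.succ.succ.succ = j
      · exact Or.inl h2
      · by_cases h3 : ul.succ.succ.succ = j
        · right
          rw [if_neg hj1, if_pos h3.symm, if_neg (h1ne i), if_neg (fun h => h2 (h.trans h3))]
          norm_num
        · rw [if_neg h2, if_neg h3] at hij
          simp at hij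

/-- The second coordinate system. -/
noncomputable def chart2 (ul : Fin n) (hul : (ul : ℕ) + 1 = n) : Chart n where
  i0 := 1
  i1 := 0
  α0 := ul.succ
  σ := sig2
  p := fun i => n - sig2 i
  a := UF n ul.succ ^ 2 + (tF n 1 ^ n) ^ 2 * tF n 0
  s := (tF n 1)⁻¹
  e := UF n ul.succ + tF n 1 ^ n * tF n 2
  u := fun i => UF n (sig2 i) + (tF n 1)⁻¹ ^ (n - sig2 i) * UF n ul.succ
  ha := by
    rw [al_sq, Fin.val_succ, hul]
    rfl
  hs := by
    change (ss n)⁻¹ = _
    rw [ss, inv_div]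
  he := by
    change UU n ul.succ + ss n ^ n * ee n = _
    have hx := xv_ne_zero n 0
    rw [UU, Fin.val_succ, hul, add_assoc, ← mul_add, add_comm (al n 0), ee_add, ss, div_pow]
    field_simp
  hu := fun i => by
    change UU n (sig2 i) + (ss n)⁻¹ ^ (n - sig2 i) * UU n ul.succ =
      al n (sig2 i) + (ss n)⁻¹ ^ (n - sig2 i) * al n ul.succ
    have hs := ss_ne_zero n
    have hle : (sig2 i : ℕ) ≤ n := Nat.lt_succ_iff.mp (sig2 i).2
    have h1 : (ss n)⁻¹ ^ (n - sig2 i) * ss n ^ n = ss n ^ (sig2 i : ℕ) := by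
      rw [inv_pow, pow_sub₀ _ hs hle]
      field_simp
    rw [UU, UU, Fin.val_succ, hul, mul_add, ← mul_assoc, h1]
    linear_combination (ss n ^ (sig2 i : ℕ) * al n 0) * two_EE n
  hcov := fun i => by
    refine Fin.cases ?_ (fun i => ?_) i
    · right
      exact ⟨ul, by unfold sig2; rw [if_neg (by omega)]⟩
    · by_cases h : i = ul
      · exact Or.inl (by rw [h])
      · right
        refine ⟨i, ?_⟩
        have h3 : (i : ℕ) ≠ ul := fun h' => h (Fin.ext h')
        have := i.2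
        unfold sig2
        rw [if_pos (by omega)]
  hi := Or.inr ⟨rfl, rfl⟩
  hjac := by
    have hs := tF_one_ne_zero n
    rw [jac2 ul hul, cF, CharTwo.add_sq, mul_pow]
    have h2 : (2 : FF n) = 0 := CharTwo.two_eq_zero
    field_simp
    linear_combination (-UF n ul.succ ^ 2) * h2

end Pool.Agent.Work.MP_a77660_ag
end

-- merged part: Pool.Agent.Work.MP_a77660_ag.ChartVal
section
/-!
Valuations of Jacobian determinants in the coordinate systems.
-/

namespace Pool.Agent.Work.MP_a77660_ag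

open MvPolynomial WithZero

variable {n : ℕ}

/-- The base field inside the function field. -/
noncomputable def kF (n : ℕ) : KK n →+* FF n :=
  ((algebraMap (LL n) (EE n)).comp (KK n).subtype).codRestrict (FF n) fun κ => KK_mem n κ.2

theorem coe_kF (κ : KK n) : (kF n κ : EE n) = algebraMap (LL n) (EE n) κ := rfl

/-- The squares of the variables of `L`. -/
noncomputable def aK (i : Fin (n + 1)) : KK n := ⟨alL n i ^ 2, sq_mem_KK n _⟩

theorem coe_kF_aK (i : Fin (n + 1)) : (kF n (aK i) : EE n) = al n i ^ 2 := by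
  rw [coe_kF, aK, al, map_pow]

/-- The base field is generated by the squares of the variables. -/
theorem KK_induction (T : Subfield (KK n)) (h : ∀ i, aK i ∈ T) (κ : KK n) : κ ∈ T := by
  obtain ⟨l, hl⟩ := (mem_KK n).mp κ.2
  have := mem_of_subfield_LL n ((frobenius (LL n) 2).codRestrict (KK n) fun l => sq_mem_KK n l)
    T h l
  convert this using 1
  exact Subtype.ext hl.symm

theorem jac3_smul {F : Type} [Field F] (δ : Fin (n + 3) → Derivation ℤ F F) (a s e e' c : F)
    (u : Fin n → F) (h : grad δ e' = c • grad δ e) :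
    jac δ (Matrix.vecCons a (Matrix.vecCons s (Matrix.vecCons e' u))) =
      c * jac δ (Matrix.vecCons a (Matrix.vecCons s (Matrix.vecCons e u))) := by
  have key : ∀ e : F, jac δ (Matrix.vecCons a (Matrix.vecCons s (Matrix.vecCons e u))) =
      (((Matrix.detRowAlternating.curryLeft (grad δ a)).curryLeft (grad δ s)).curryLeft
        (grad δ e)) (fun i => grad δ (u i)) := by
    intro e
    simp only [jac_eq, AlternatingMap.curryLeft_apply_apply]
    congr 1
    funext i
    refine Fin.cases rfl (fun i => ?_) i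
    refine Fin.cases rfl (fun i => ?_) i
    exact Fin.cases rfl (fun i => rfl) i
  rw [key, key, h, map_smul, AlternatingMap.smul_apply, smul_eq_mul]

namespace Chart

variable (ch : Chart n)

theorem a_eq : ch.a = kF n (aK ch.α0) := Subtype.ext (by rw [ch.ha, coe_kF_aK])

theorem a_ne_zero : ch.a ≠ 0 := fun h => by
  have := ch.ha
  rw [h] at this
  exact pow_ne_zero 2 (al_ne_zero n _) this.symm

theorem s_ne_zero : ch.s ≠ 0 := fun h => by
  have := ch.hs
  rw [h] at this
  exact div_ne_zero (xv_ne_zero n _) (xv_ne_zero n _) this.symm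

theorem coe_h : ((ch.e ^ 2 + ch.a : FF n) : EE n) = (xv n ch.i0 ^ n / xv n 2) ^ 2 := by
  push_cast
  rw [ch.he, ch.ha, CharTwo.add_sq]
  linear_combination (al n ch.α0 ^ 2) * two_EE n

theorem h_ne_zero : ch.e ^ 2 + ch.a ≠ 0 := fun h => by
  have := ch.coe_h
  rw [h] at this
  exact pow_ne_zero 2 (div_ne_zero (pow_ne_zero _ (xv_ne_zero n _)) (xv_ne_zero n _)) this.symm

theorem u_sq (i : Fin n) : kF n (aK (ch.σ i)) = ch.u i ^ 2 + (ch.s ^ ch.p i) ^ 2 * ch.a := by
  apply Subtype.ext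
  push_cast
  rw [coe_kF_aK, ch.hu, ch.ha, CharTwo.add_sq]
  linear_combination (-((ch.s : EE n) ^ ch.p i * al n ch.α0) ^ 2) * two_EE n

variable {Γ : Type} [LinearOrderedCommGroupWithZero Γ] (v : Valuation (FF n) Γ)
  (hK : ∀ κ, v (kF n κ) ≤ 1)

include hK in
theorem val_kF {κ : KK n} (h : κ ≠ 0) : v (kF n κ) = 1 := by
  refine le_antisymm (hK κ) ?_
  have h1 := hK κ⁻¹
  have h2 : v (kF n κ) ≠ 0 := by simpa using h
  rw [map_inv₀, map_inv₀] at h1
  exact (inv_le_one₀ (zero_lt_iff.mpr h2)).mp h1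

include hK in
theorem val_a : v ch.a = 1 := by
  rw [ch.a_eq]
  refine val_kF v hK fun h => ch.a_ne_zero ?_
  rw [ch.a_eq, h, map_zero]

include hK in
theorem val_u (hs : v ch.s ≤ 1) (i : Fin n) : v (ch.u i) ≤ 1 := by
  have h1 : ch.u i ^ 2 = kF n (aK (ch.σ i)) + (ch.s ^ ch.p i) ^ 2 * ch.a := by
    rw [ch.u_sq, add_assoc, CharTwo.add_self_eq_zero, add_zero]
  have h2 : v (ch.u i ^ 2) ≤ 1 := by
    rw [h1]
    refine v.map_add_le (hK _) ?_
    rw [map_mul, map_pow, map_pow, ch.val_a v hK, mul_one]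
    exact pow_le_one' (pow_le_one' hs _) _
  rw [map_pow] at h2
  exact (pow_le_one_iff_of_nonneg zero_le two_ne_zero).mp h2

theorem jac_inv :
    cF n * jac (del n) (Matrix.vecCons ch.a (Matrix.vecCons ch.s (Matrix.vecCons ch.e⁻¹ ch.u))) =
      ch.s * (ch.e⁻¹ ^ 2 * (ch.e ^ 2 + ch.a)) := by
  rw [jac3_smul (del n) ch.a ch.s ch.e ch.e⁻¹ (ch.e⁻¹ ^ 2) ch.u
    (by rw [Derivation.leibniz_inv, CharTwo.neg_eq]), mul_left_comm, ch.hjac]
  ring

include hK in
theorem val_h_inv (he : 1 < v ch.e) : v (ch.e⁻¹ ^ 2 * (ch.e ^ 2 + ch.a)) = 1 := by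
  have he0 : v ch.e ≠ 0 := (zero_lt_one.trans he).ne'
  have h1 : v (ch.e ^ 2 + ch.a) = v (ch.e ^ 2) := by
    apply v.map_add_eq_of_lt_left
    rw [ch.val_a v hK, map_pow]
    exact one_lt_pow₀ he two_ne_zero
  rw [map_mul, h1, map_pow, map_pow, map_inv₀, ← mul_pow, inv_mul_cancel₀ he0, one_pow]

theorem lc_chart (v : Valuation (FF n) ℤᵐ⁰) (hK : ∀ κ, v (kF n κ) ≤ 1) {π : FF n}
    (hπ : v π = exp (-1 : ℤ)) (hs : v ch.s ≤ 1) :
    ∃ a : Fin (n + 3) → FF n, (∀ i, v (a i) ≤ 1) ∧ exp (-1 : ℤ) ≤ v (cF n * jac (del n) a) := by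
  have hs0 := ch.s_ne_zero
  have hh0 := ch.h_ne_zero
  have ha0 := ch.a_ne_zero
  rcases le_or_gt (v ch.e) 1 with he | he
  · obtain ⟨p, q, hp, hq, hpq⟩ := log_lemma (del n) (Matrix.vecCons ch.e ch.u) v hπ hh0 hs0
    refine ⟨Matrix.vecCons p (Matrix.vecCons q (Matrix.vecCons ch.e ch.u)), fun i => ?_, ?_⟩
    · refine Fin.cases hp (fun i => ?_) i
      refine Fin.cases hq (fun i => ?_) i
      exact Fin.cases he (fun i => ch.val_u v hK hs i) i
    · have h1 : br (del n) (Matrix.vecCons ch.e ch.u) (ch.e ^ 2 + ch.a) ch.s =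
          br (del n) (Matrix.vecCons ch.e ch.u) ch.a ch.s := by
        rw [br_eq, br_eq, map_add, der_sq, zero_add]
      have h2 : cF n * (π * (br (del n) (Matrix.vecCons ch.e ch.u) (ch.e ^ 2 + ch.a) ch.s /
          ((ch.e ^ 2 + ch.a) * ch.s))) = π := by
        rw [h1, mul_left_comm, ← mul_div_assoc, br, ch.hjac]
        field_simp
      rw [← hπ, ← h2, map_mul v (cF n), map_mul v (cF n)]
      exact mul_le_mul_right hpq _
  · obtain ⟨p, q, hp, hq, hpq⟩ := log_lemma (del n) (Matrix.vecCons ch.e⁻¹ ch.u) v hπ ha0 hs0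
    refine ⟨Matrix.vecCons p (Matrix.vecCons q (Matrix.vecCons ch.e⁻¹ ch.u)), fun i => ?_, ?_⟩
    · refine Fin.cases hp (fun i => ?_) i
      refine Fin.cases hq (fun i => ?_) i
      refine Fin.cases ?_ (fun i => ch.val_u v hK hs i) i
      change v ch.e⁻¹ ≤ 1
      rw [map_inv₀]
      exact inv_le_one_of_one_le₀ he.le
    · have h2 : cF n * (π * (br (del n) (Matrix.vecCons ch.e⁻¹ ch.u) ch.a ch.s /
          (ch.a * ch.s))) = π * (ch.e⁻¹ ^ 2 * (ch.e ^ 2 + ch.a)) / ch.a := by
        rw [mul_left_comm, ← mul_div_assoc, br, ch.jac_inv]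
        field_simp
      have h3 : v (π * (ch.e⁻¹ ^ 2 * (ch.e ^ 2 + ch.a)) / ch.a) = exp (-1 : ℤ) := by
        rw [map_div₀, map_mul, ch.val_h_inv v hK he, ch.val_a v hK, hπ]
        simp
      rw [← h3, ← h2, map_mul v (cF n), map_mul v (cF n)]
      exact mul_le_mul_right hpq _

/-- The affine coordinate ring of the chart upstairs. -/
noncomputable def G : Subring (EE n) :=
  Subring.closure (Set.range (algebraMap (LL n) (EE n)) ∪
    {xv n ch.i1 / xv n ch.i0, xv n 2 / xv n ch.i0 ^ n})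

theorem mem_of_mem_G (T : Subring (FF n)) (hKT : ∀ κ, kF n κ ∈ T) (hs : ch.s ∈ T)
    (hu : ∀ i, ch.u i ∈ T)
    (hz : ∃ τ₁ ∈ T, ∃ τ₂ ∈ T, xv n 2 / xv n ch.i0 ^ n = (τ₁ : EE n) + τ₂ * al n ch.α0)
    (g : FF n) (hg : (g : EE n) ∈ ch.G) : g ∈ T := by
  let T2 : Subring (EE n) :=
    { carrier := {g | ∃ τ₁ ∈ T, ∃ τ₂ ∈ T, g = (τ₁ : EE n) + τ₂ * al n ch.α0}
      mul_mem' := by
        rintro _ _ ⟨a, ha, b, hb, rfl⟩ ⟨c, hc, d, hd, rfl⟩
        refine ⟨a * c + b * d * ch.a, add_mem (mul_mem ha hc)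
          (mul_mem (mul_mem hb hd) (ch.a_eq ▸ hKT _)), a * d + b * c,
          add_mem (mul_mem ha hd) (mul_mem hb hc), ?_⟩
        push_cast
        rw [ch.ha]
        ring
      one_mem' := ⟨1, one_mem _, 0, zero_mem _, by simp⟩
      add_mem' := by
        rintro _ _ ⟨a, ha, b, hb, rfl⟩ ⟨c, hc, d, hd, rfl⟩
        refine ⟨a + c, add_mem ha hc, b + d, add_mem hb hd, ?_⟩
        push_cast
        ring
      zero_mem' := ⟨0, zero_mem _, 0, zero_mem _, by simp⟩
      neg_mem' := by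
        rintro _ ⟨a, ha, b, hb, rfl⟩
        refine ⟨-a, neg_mem ha, -b, neg_mem hb, ?_⟩
        push_cast
        ring }
  have hT : ∀ τ ∈ T, (τ : EE n) ∈ T2 := fun τ hτ => ⟨τ, hτ, 0, zero_mem _, by simp⟩
  have hα : ∀ i, al n i ∈ T2 := by
    intro i
    rcases ch.hcov i with rfl | ⟨i, rfl⟩
    · exact ⟨0, zero_mem _, 1, one_mem _, by simp⟩
    · refine ⟨ch.u i, hu i, ch.s ^ ch.p i, pow_mem hs _, ?_⟩
      push_cast
      rw [ch.hu, add_assoc, CharTwo.add_self_eq_zero, add_zero]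
  have hL : ∀ l, algebraMap (LL n) (EE n) l ∈ T2 := by
    intro l
    obtain ⟨p, q, hq, rfl⟩ := IsFractionRing.div_surjective (A := P0 n) l
    have hq0 : algebraMap (P0 n) (LL n) q ≠ 0 :=
      (map_ne_zero_iff _ (IsFractionRing.injective _ _)).mpr (nonZeroDivisors.ne_zero hq)
    have h1 : algebraMap (P0 n) (LL n) p / algebraMap (P0 n) (LL n) q =
        algebraMap (P0 n) (LL n) (p * q) * ((algebraMap (P0 n) (LL n) q)⁻¹) ^ 2 := by
      rw [map_mul]; field_simp
    rw [h1, map_mul]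
    exact mul_mem (poly_mem_of_subring n
      ((algebraMap (LL n) (EE n)).comp (algebraMap (P0 n) (LL n))) T2 hα _)
      (hT _ (hKT ⟨_, sq_mem_KK n _⟩))
  have hG : ch.G ≤ T2 := by
    rw [G, Subring.closure_le]
    rintro _ (⟨l, rfl⟩ | rfl | rfl)
    · exact hL l
    · rw [← ch.hs]; exact hT _ hs
    · exact hz
  obtain ⟨τ₁, h₁, τ₂, h₂, h⟩ := hG hg
  by_cases h0 : τ₂ = 0
  · rw [h0] at h
    have : g = τ₁ := Subtype.ext (by simpa using h)
    exact this ▸ h₁
  · exfalso
    apply al_not_mem n ch.α0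
    have h3 : (τ₂ : EE n) ≠ 0 := fun h' => h0 (Subtype.ext h')
    have : al n ch.α0 = ((g - τ₁) / τ₂ : FF n) := by
      push_cast
      rw [h]
      field_simp
      ring
    rw [this]
    exact Subtype.coe_prop _

include hK in
theorem exact_aux (e' : FF n) (hs : v ch.s ≤ 1) (he : v e' ≤ 1)
    (hz : ∀ T : Subring (FF n), ch.a ∈ T → e' ∈ T → (∀ f ∈ T, v f⁻¹ ≤ 1 → f⁻¹ ∈ T) →
      ∃ τ₁ ∈ T, ∃ τ₂ ∈ T, xv n 2 / xv n ch.i0 ^ n = (τ₁ : EE n) + τ₂ * al n ch.α0)
    (hO : ∀ f : FF n, v f ≤ 1 → ∃ qa qb : FF n, (qa : EE n) ∈ ch.G ∧ (qb : EE n) ∈ ch.G ∧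
      v qb⁻¹ ≤ 1 ∧ f = qa * qb⁻¹)
    (a : Fin (n + 3) → FF n) (ha : ∀ i, v (a i) ≤ 1) :
    v (jac (del n) a) ≤
      v (jac (del n) (Matrix.vecCons ch.a (Matrix.vecCons ch.s (Matrix.vecCons e' ch.u)))) := by
  set t := Matrix.vecCons ch.a (Matrix.vecCons ch.s (Matrix.vecCons e' ch.u)) with ht
  let N := Submodule.span v.integer (Set.range fun l => grad (del n) (t l))
  let T := derSubring v (grad (del n)) N
  have hN : ∀ l, grad (del n) (t l) ∈ N := fun l => Submodule.subset_span ⟨l, rfl⟩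
  have haT : ch.a ∈ T := ⟨(ch.val_a v hK).le, hN 0⟩
  have hsT : ch.s ∈ T := ⟨hs, hN 1⟩
  have heT : e' ∈ T := ⟨he, hN 2⟩
  have huT : ∀ i, ch.u i ∈ T := fun i => ⟨ch.val_u v hK hs i, hN i.succ.succ.succ⟩
  have hinv : ∀ f ∈ T, v f⁻¹ ≤ 1 → f⁻¹ ∈ T := fun f hf h => inv_mem_derSubring v _ N hf h
  have hKT : ∀ κ, kF n κ ∈ T := by
    let T' : Subfield (KK n) :=
      { T.comap (kF n) with
        inv_mem' := fun κ hκ => by
          change kF n κ⁻¹ ∈ T
          rw [map_inv₀]
          exact hinv _ hκ (by rw [← map_inv₀]; exact hK _) }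
    refine KK_induction T' fun i => ?_
    change kF n (aK i) ∈ T
    rcases ch.hcov i with rfl | ⟨i, rfl⟩
    · exact ch.a_eq ▸ haT
    · rw [ch.u_sq]
      exact add_mem (pow_mem (huT i) _) (mul_mem (pow_mem (pow_mem hsT _) _) haT)
  refine val_jac_le v (del n) t a fun i => ?_
  obtain ⟨qa, qb, h1, h2, h3, h4⟩ := hO (a i) (ha i)
  have hG := ch.mem_of_mem_G T hKT hsT huT (hz T haT heT hinv)
  have : a i ∈ T := h4 ▸ mul_mem (hG qa h1) (hinv _ (hG qb h2) h3)
  exact this.2

include hK in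
theorem exact_chart (hs : v ch.s ≤ 1) (hh : v (ch.e ^ 2 + ch.a)⁻¹ ≤ 1)
    (hO : ∀ f : FF n, v f ≤ 1 → ∃ qa qb : FF n, (qa : EE n) ∈ ch.G ∧ (qb : EE n) ∈ ch.G ∧
      v qb⁻¹ ≤ 1 ∧ f = qa * qb⁻¹) :
    ∃ t : Fin (n + 3) → FF n, (∀ i, v (t i) ≤ 1) ∧ v (cF n * jac (del n) t) = v ch.s ∧
      ∀ a : Fin (n + 3) → FF n, (∀ i, v (a i) ≤ 1) → v (jac (del n) a) ≤ v (jac (del n) t) := by
  have hh0 := ch.h_ne_zero
  have hx := xv_ne_zero n ch.i0
  have hz := xv_ne_zero n 2
  have hw : xv n 2 / xv n ch.i0 ^ n =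
      ((ch.e : EE n) + al n ch.α0) * (((ch.e ^ 2 + ch.a : FF n) : EE n))⁻¹ := by
    rw [ch.coe_h, ch.he, add_comm (al n ch.α0), add_assoc, CharTwo.add_self_eq_zero, add_zero]
    field_simp
  rcases le_or_gt (v ch.e) 1 with he | he
  · refine ⟨Matrix.vecCons ch.a (Matrix.vecCons ch.s (Matrix.vecCons ch.e ch.u)), fun i => ?_, ?_,
      ch.exact_aux v hK ch.e hs he ?_ hO⟩
    · refine Fin.cases (ch.val_a v hK).le (fun i => ?_) i
      refine Fin.cases hs (fun i => ?_) i
      exact Fin.cases he (fun i => ch.val_u v hK hs i) i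
    · have h1 : v (ch.e ^ 2 + ch.a) ≤ 1 :=
        v.map_add_le (by rw [map_pow]; exact pow_le_one' he _) (ch.val_a v hK).le
      have h2 : v (ch.e ^ 2 + ch.a) ≠ 0 := by simpa using hh0
      rw [map_inv₀] at hh
      have h3 := le_antisymm h1 ((inv_le_one₀ (zero_lt_iff.mpr h2)).mp hh)
      rw [ch.hjac, map_mul, h3, mul_one]
    · intro T ha heT hinv
      have h1 := hinv _ (add_mem (pow_mem heT 2) ha) hh
      refine ⟨ch.e * (ch.e ^ 2 + ch.a)⁻¹, mul_mem heT h1, (ch.e ^ 2 + ch.a)⁻¹, h1, ?_⟩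
      rw [hw]
      push_cast
      ring
  · have he0 : ch.e ≠ 0 := by
      rintro h
      rw [h, map_zero] at he
      exact not_lt_zero he
    have he' : v ch.e⁻¹ ≤ 1 := by
      rw [map_inv₀]
      exact inv_le_one_of_one_le₀ he.le
    refine ⟨Matrix.vecCons ch.a (Matrix.vecCons ch.s (Matrix.vecCons ch.e⁻¹ ch.u)), fun i => ?_,
      ?_, ch.exact_aux v hK ch.e⁻¹ hs he' ?_ hO⟩
    · refine Fin.cases (ch.val_a v hK).le (fun i => ?_) i
      refine Fin.cases hs (fun i => ?_) i
      exact Fin.cases he' (fun i => ch.val_u v hK hs i) i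
    · rw [ch.jac_inv, map_mul, ch.val_h_inv v hK he, mul_one]
    · intro T ha heT hinv
      have h0 : ch.e⁻¹ ^ 2 * (ch.e ^ 2 + ch.a) = 1 + ch.e⁻¹ ^ 2 * ch.a := by
        field_simp
      have h1 := hinv (ch.e⁻¹ ^ 2 * (ch.e ^ 2 + ch.a))
        (h0 ▸ add_mem (one_mem _) (mul_mem (pow_mem heT 2) ha))
        (by rw [map_inv₀, ch.val_h_inv v hK he, inv_one])
      refine ⟨ch.e⁻¹ * (ch.e⁻¹ ^ 2 * (ch.e ^ 2 + ch.a))⁻¹, mul_mem heT h1,
        ch.e⁻¹ ^ 2 * (ch.e⁻¹ ^ 2 * (ch.e ^ 2 + ch.a))⁻¹, mul_mem (pow_mem heT 2) h1, ?_⟩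
      rw [hw]
      have h2 : (ch.e : EE n) ≠ 0 := fun h => he0 (Subtype.ext h)
      have h3 : ((ch.e ^ 2 + ch.a : FF n) : EE n) ≠ 0 := fun h => hh0 (Subtype.ext h)
      push_cast at h3 ⊢
      field_simp

end Chart

theorem lc_general (ul : Fin n) (hul : (ul : ℕ) + 1 = n) (v : Valuation (FF n) ℤᵐ⁰)
    (hK : ∀ κ, v (kF n κ) ≤ 1) {π : FF n} (hπ : v π = exp (-1 : ℤ)) :
    ∃ a : Fin (n + 3) → FF n, (∀ i, v (a i) ≤ 1) ∧ exp (-1 : ℤ) ≤ v (cF n * jac (del n) a) := by
  rcases le_total (v (tF n 1)) 1 with h | h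
  · exact (chart1 n).lc_chart v hK hπ h
  · refine (chart2 ul hul).lc_chart v hK hπ ?_
    change v (tF n 1)⁻¹ ≤ 1
    rw [map_inv₀]
    exact inv_le_one_of_one_le₀ h

end Pool.Agent.Work.MP_a77660_ag
end

-- merged part: Pool.Agent.Work.MP_a77660_ag.GradedSub
section
/-!
Graded subalgebras, and projective embeddings.
-/

namespace Pool.Agent.Work.MP_a77660_ag

open AlgebraicGeometry CategoryTheory

section Sub

variable {K A : Type} [Field K] [CommRing A] [Algebra K A] (ℬ : ℕ → Submodule K A)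
  [SetLike.GradedMonoid ℬ]

/-- The subalgebra spanned by a multiplicative family of submodules. -/
noncomputable def subR : Subalgebra K A := (DirectSum.coeAlgHom ℬ).range

theorem mem_subR_iff (a : A) : a ∈ subR ℬ ↔ a ∈ ⨆ i, ℬ i := by
  rw [Submodule.iSup_eq_toSubmodule_range]
  rfl

theorem mem_subR {j : ℕ} {a : A} (ha : a ∈ ℬ j) : a ∈ subR ℬ :=
  (mem_subR_iff ℬ a).mpr (Submodule.mem_iSup_of_mem j ha)

/-- The grading of the subalgebra. -/
noncomputable def subG (j : ℕ) : Submodule K (subR ℬ) := (ℬ j).comap (subR ℬ).val.toLinearMap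

theorem mem_subG {j : ℕ} {a : subR ℬ} : a ∈ subG ℬ j ↔ (a : A) ∈ ℬ j := Iff.rfl

instance : SetLike.GradedMonoid (subG ℬ) where
  one_mem := SetLike.one_mem_graded ℬ
  mul_mem _ _ _ _ ha hb := SetLike.mul_mem_graded (A := ℬ) ha hb

theorem iSup_subG : ⨆ j, subG ℬ j = ⊤ := by
  rw [eq_top_iff]
  rintro ⟨a, ha⟩ -
  have ha' := (mem_subR_iff ℬ a).mp ha
  induction ha' using Submodule.iSup_induction' with
  | mem i x hx => exact Submodule.mem_iSup_of_mem i hx
  | zero => exact zero_mem _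
  | add x y hx hy h1 h2 =>
    exact add_mem (h1 ((mem_subR_iff ℬ x).mpr hx)) (h2 ((mem_subR_iff ℬ y).mpr hy))

theorem iSupIndep_subG (hind : iSupIndep ℬ) : iSupIndep (subG ℬ) := by
  intro i
  rw [Submodule.disjoint_def]
  intro x hx hx'
  have h1 : (⨆ (j) (_ : j ≠ i), subG ℬ j) ≤
      (⨆ (j) (_ : j ≠ i), ℬ j).comap (subR ℬ).val.toLinearMap :=
    iSup₂_le fun j hj => Submodule.comap_mono (le_iSup₂_of_le (f := fun j (_ : j ≠ i) => ℬ j) j hj le_rfl)
  exact Subtype.ext (Submodule.disjoint_def.mp (hind i) x hx (h1 hx'))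

noncomputable instance [hind : Fact (iSupIndep ℬ)] : GradedAlgebra (subG ℬ) where
  toDecomposition := (DirectSum.isInternal_submodule_of_iSupIndep_of_iSup_eq_top
    (iSupIndep_subG ℬ hind.out) (iSup_subG ℬ)).chooseDecomposition

end Sub

section Embedding

attribute [local instance] MvPolynomial.gradedAlgebra

open MvPolynomial

variable {K R : Type} [Field K] [CommRing R] [Algebra K R] (𝒜 : ℕ → Submodule K R)
  [GradedAlgebra 𝒜]

theorem isProper_projSpace (N : ℕ) : IsProper (projSpaceToSpec K N) := by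
  have h0 : IsScalarTower K (homogeneousSubmodule (Fin (N + 1)) K 0)
      (MvPolynomial (Fin (N + 1)) K) := IsScalarTower.of_algebraMap_eq (R := K) (S := homogeneousSubmodule (Fin (N + 1)) K 0) (A := MvPolynomial (Fin (N + 1)) K) fun _ => rfl
  have h1 : Algebra.FiniteType (homogeneousSubmodule (Fin (N + 1)) K 0)
      (MvPolynomial (Fin (N + 1)) K) :=
    Algebra.FiniteType.of_restrictScalars_finiteType K _ _
  have h2 : IsClosedImmersion (Spec.map (CommRingCat.ofHom
      (algebraMap K (homogeneousSubmodule (Fin (N + 1)) K 0)))) := by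
    apply IsClosedImmersion.spec_of_surjective
    rintro ⟨p, hp⟩
    rw [mem_homogeneousSubmodule, ← totalDegree_zero_iff_isHomogeneous,
      totalDegree_eq_zero_iff_eq_C] at hp
    exact ⟨coeff 0 p, Subtype.ext hp.symm⟩
  unfold projSpaceToSpec
  infer_instance

theorem isProjectiveOver_structMap (hfin : Module.Finite K (𝒜 1))
    (h0 : ∀ a ∈ 𝒜 0, ∃ κ, algebraMap K R κ = a)
    (hgen : ∀ j, 𝒜 (j + 2) ≤ 𝒜 1 * 𝒜 (j + 1)) : IsProjectiveOver (structMap 𝒜) := by
  obtain ⟨N, g, hg⟩ := Module.Finite.exists_fin (R := K) (M := 𝒜 1)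
  let g' : Fin (N + 1) → R := Fin.cons 0 fun i => g i
  have hg' : ∀ i, g' i ∈ 𝒜 1 := fun i => Fin.cases (zero_mem _) (fun i => (g i).2) i
  let φ : homogeneousSubmodule (Fin (N + 1)) K →+*ᵍ 𝒜 :=
    { toRingHom := (aeval g' : MvPolynomial (Fin (N + 1)) K →ₐ[K] R)
      map_mem := by
        intro i p hp
        rw [mem_homogeneousSubmodule] at hp
        change aeval g' p ∈ 𝒜 i
        rw [p.as_sum, map_sum]
        refine sum_mem fun d hd => ?_
        rw [aeval_monomial, ← Algebra.smul_def]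
        refine Submodule.smul_mem _ _ ?_
        have h1 := SetLike.prod_pow_mem_graded 𝒜 (fun _ => 1) g' d
          (F := d.support) (fun i _ => hg' i)
        have h2 : ∑ x ∈ d.support, d x • 1 = i := by
          have := hp (mem_support_iff.mp hd)
          rw [Finsupp.weight_apply, Finsupp.sum] at this
          exact this
        rw [h2] at h1
        exact h1 }
  have hrange : ∀ j, ∀ a ∈ 𝒜 j, a ∈ (aeval g' : MvPolynomial (Fin (N + 1)) K →ₐ[K] R).range := by
    have h1 : ∀ a ∈ 𝒜 1, a ∈ (aeval g' : MvPolynomial (Fin (N + 1)) K →ₐ[K] R).range := by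
      intro a ha
      have : (⟨a, ha⟩ : 𝒜 1) ∈ Submodule.span K (Set.range g) := hg ▸ Submodule.mem_top
      obtain ⟨c, hc⟩ := (Submodule.mem_span_range_iff_exists_fun K).mp this
      have hc' := congrArg Subtype.val hc
      simp only [AddSubmonoidClass.coe_finsetSum, SetLike.val_smul] at hc'
      rw [← hc']
      refine sum_mem fun i _ => Subalgebra.smul_mem _ ?_ _
      exact ⟨X i.succ, by simp [g']⟩
    intro j
    induction j using Nat.strong_induction_on with
    | _ j ih =>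
      match j with
      | 0 =>
        intro a ha
        obtain ⟨κ, rfl⟩ := h0 a ha
        exact Subalgebra.algebraMap_mem _ κ
      | 1 => exact h1
      | j + 2 =>
        intro a ha
        refine Submodule.mul_induction_on (hgen j ha) (fun x hx y hy => ?_) fun x y hx hy => ?_
        · exact mul_mem (h1 x hx) (ih (j + 1) (by omega) y hy)
        · exact add_mem hx hy
  have hφ : Function.Surjective φ := by
    classical
    intro a
    have : a ∈ (aeval g' : MvPolynomial (Fin (N + 1)) K →ₐ[K] R).range := by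
      rw [← DirectSum.sum_support_decompose 𝒜 a]
      exact sum_mem fun i _ => hrange i _ (DirectSum.decompose 𝒜 a i).2
    exact this
  exact ⟨N, Proj.map φ (irrelevant_le_of_surjective φ hφ), isClosedImmersion_map φ hφ,
    map_structMap φ _ fun κ => (aeval g' : MvPolynomial (Fin (N + 1)) K →ₐ[K] R).commutes κ⟩

theorem IsProjectiveOver.isProper {X : Scheme.{0}} {f : X ⟶ Spec (CommRingCat.of K)}
    (h : IsProjectiveOver f) : IsProper f := by
  obtain ⟨N, ι, hι, rfl⟩ := h
  have := isProper_projSpace (K := K) N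
  infer_instance

end Embedding

end Pool.Agent.Work.MP_a77660_ag
end

-- merged part: Pool.Agent.Work.MP_a77660_ag.Ring1
section
/-!
The graded ring of the example.
-/

namespace Pool.Agent.Work.MP_a77660_ag

open MvPolynomial

attribute [local instance] MvPolynomial.weightedGradedAlgebra

variable (n : ℕ)

/-- The weights. -/
def ww : Fin 3 → ℕ := ![1, 1, n]

/-- The weighted grading of `L[x, y, z]`. -/
noncomputable abbrev AG (j : ℕ) : Submodule (LL n) (AA n) :=
  weightedHomogeneousSubmodule (LL n) (ww n) j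

/-- The inclusion into the fraction field. -/
noncomputable abbrev jA : AA n →+* EE n := algebraMap (AA n) (EE n)

theorem jA_inj : Function.Injective (jA n) := IsFractionRing.injective _ _

theorem jA_X (i : Fin 3) : jA n (X i) = xv n i := rfl

theorem jA_C (l : LL n) : jA n (C l) = algebraMap (LL n) (EE n) l := (algebraMap_LL n l).symm

variable {n}

theorem AG_mul {i j : ℕ} {a b : AA n} (ha : a ∈ AG n i) (hb : b ∈ AG n j) :
    a * b ∈ AG n (i + j) := IsWeightedHomogeneous.mul ha hb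

theorem AG_pow {i : ℕ} {a : AA n} (ha : a ∈ AG n i) (k : ℕ) :
    a ^ k ∈ AG n (k * i) := IsWeightedHomogeneous.pow ha k

theorem AG_X (i : Fin 3) : (X i : AA n) ∈ AG n (ww n i) := isWeightedHomogeneous_X _ _ i

theorem AG_C (l : LL n) : (C l : AA n) ∈ AG n 0 := isWeightedHomogeneous_C _ l

theorem AG_of_mul {i j : ℕ} {b c : AA n} (hb : b ∈ AG n i) (hb0 : b ≠ 0)
    (hbc : b * c ∈ AG n j) : c ∈ AG n (j - i) ∧ (c ≠ 0 → i ≤ j) := by
  by_cases hij : i ≤ j
  · refine ⟨?_, fun _ => hij⟩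
    have h1 := DirectSum.coe_decompose_mul_of_left_mem_of_le (AG n) (b := c) hb hij
    rw [DirectSum.decompose_of_mem_same (AG n) hbc] at h1
    rw [mul_left_cancel₀ hb0 h1]
    exact (DirectSum.decompose (AG n) c (j - i)).2
  · have h1 := DirectSum.coe_decompose_mul_of_left_mem_of_not_le (AG n) (b := c) hb hij
    rw [DirectSum.decompose_of_mem_same (AG n) hbc] at h1
    have h2 : c = 0 := (mul_eq_zero.mp h1).resolve_left hb0
    exact ⟨h2 ▸ zero_mem _, fun h => absurd h2 h⟩

theorem AG_zero (hn : n ≠ 0) {a : AA n} (ha : a ∈ AG n 0) : a = C (coeff 0 a) := by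
  rw [← weightedHomogeneousComponent_zero (w := ww n) a (fun i => by fin_cases i <;> simp [ww, hn]),
    weightedHomogeneousComponent_eq_self ha]

theorem weight_ww (d : Fin 3 →₀ ℕ) : Finsupp.weight (ww n) d = d 0 + d 1 + d 2 * n := by
  rw [Finsupp.weight_apply, Finsupp.sum_fintype _ _ (by simp), Fin.sum_univ_three]
  simp [ww]

theorem monomial_three (d : Fin 3 →₀ ℕ) (r : LL n) :
    (monomial d r : AA n) = C r * X 0 ^ d 0 * X 1 ^ d 1 * X 2 ^ d 2 := by
  rw [monomial_eq, Finsupp.prod_fintype _ _ (by simp), Fin.prod_univ_three]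
  ring

namespace Chart

variable (ch : Chart n)

theorem dehom {j : ℕ} {a : AA n} (ha : a ∈ AG n j) : jA n a / xv n ch.i0 ^ j ∈ ch.G := by
  have hx := xv_ne_zero n ch.i0
  have h1 : xv n ch.i1 / xv n ch.i0 ∈ ch.G := Subring.subset_closure (Or.inr (Or.inl rfl))
  have h2 : xv n 2 / xv n ch.i0 ^ n ∈ ch.G := Subring.subset_closure (Or.inr (Or.inr rfl))
  have h0 : xv n ch.i0 / xv n ch.i0 ∈ ch.G := by rw [div_self hx]; exact one_mem _
  have hx0 : xv n 0 / xv n ch.i0 ∈ ch.G := by
    rcases ch.hi with ⟨h, -⟩ | ⟨-, h⟩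
    · exact h ▸ h0
    · exact h ▸ h1
  have hx1 : xv n 1 / xv n ch.i0 ∈ ch.G := by
    rcases ch.hi with ⟨-, h⟩ | ⟨h, -⟩
    · exact h ▸ h1
    · exact h ▸ h0
  induction ha using IsWeightedHomogeneous.induction_on with
  | zero => simp
  | add p q hp hq h3 h4 => rw [map_add, add_div]; exact add_mem h3 h4
  | monomial d r hr =>
    have : jA n (monomial d r) / xv n ch.i0 ^ j = algebraMap (LL n) (EE n) r *
        (xv n 0 / xv n ch.i0) ^ d 0 * (xv n 1 / xv n ch.i0) ^ d 1 *
          (xv n 2 / xv n ch.i0 ^ n) ^ d 2 := by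
      rw [monomial_three, ← hr, weight_ww]
      simp only [map_mul, map_pow, jA_X, jA_C, div_pow, pow_add, ← pow_mul, mul_comm n]
      field_simp
    rw [this]
    exact mul_mem (mul_mem (mul_mem (Subring.subset_closure (Or.inl ⟨r, rfl⟩)) (pow_mem hx0 _))
      (pow_mem hx1 _)) (pow_mem h2 _)

theorem sq_mem_of_mem_G {g : EE n} (hg : g ∈ ch.G) : g ^ 2 ∈ FF n := by
  have : ch.G ≤ (FF n).toSubring.comap (frobenius (EE n) 2) := by
    rw [G, Subring.closure_le]
    rintro _ (⟨l, rfl⟩ | rfl | rfl)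
    · exact sq_LL_mem n l
    · change _ ^ 2 ∈ FF n
      rw [← ch.hs]
      exact pow_mem ch.s.2 2
    · change _ ^ 2 ∈ FF n
      rw [← inv_div, inv_pow, ← ch.coe_h]
      exact inv_mem (ch.e ^ 2 + ch.a).2
  exact this hg

theorem ratio_mem : xv n ch.i0 / xv n 0 ∈ FF n := by
  rcases ch.hi with ⟨h, -⟩ | ⟨h, -⟩
  · rw [h, div_self (xv_ne_zero n 0)]; exact one_mem _
  · rw [h]; exact ss_mem n

end Chart

variable (n)

/-- The graded pieces of the ring of the foliation quotient. -/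
noncomputable def RR (j : ℕ) : Submodule (KK n) (AA n) where
  carrier := {a | a ∈ AG n j ∧ jA n a / xv n 0 ^ j ∈ FF n}
  add_mem' := by
    rintro a b ⟨ha, ha'⟩ ⟨hb, hb'⟩
    exact ⟨add_mem ha hb, by rw [map_add, add_div]; exact add_mem ha' hb'⟩
  zero_mem' := ⟨zero_mem _, by simp⟩
  smul_mem' := by
    rintro κ a ⟨ha, ha'⟩
    refine ⟨(AG n j).smul_mem (κ : LL n) ha, ?_⟩
    change jA n ((κ : LL n) • a) / _ ∈ _
    rw [smul_eq_C_mul, map_mul, jA_C, mul_div_assoc]
    exact mul_mem (KK_mem n κ.2) ha'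

variable {n}

theorem mem_RR {j : ℕ} {a : AA n} : a ∈ RR n j ↔ a ∈ AG n j ∧ jA n a / xv n 0 ^ j ∈ FF n :=
  Iff.rfl

theorem RR_mul {i j : ℕ} {a b : AA n} (ha : a ∈ RR n i) (hb : b ∈ RR n j) :
    a * b ∈ RR n (i + j) :=
  ⟨AG_mul ha.1 hb.1, by rw [map_mul, pow_add, mul_div_mul_comm]; exact mul_mem ha.2 hb.2⟩

theorem RR_one : (1 : AA n) ∈ RR n 0 := ⟨AG_C 1, by simp⟩

instance : SetLike.GradedMonoid (RR n) where
  one_mem := RR_one
  mul_mem _ _ _ _ := RR_mul

theorem RR_pow {i : ℕ} {a : AA n} (ha : a ∈ RR n i) (k : ℕ) : a ^ k ∈ RR n (k * i) :=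
  SetLike.pow_mem_graded k ha

theorem RR_sq {i : ℕ} {a : AA n} (ha : a ∈ AG n i) : a ^ 2 ∈ RR n (2 * i) :=
  ⟨AG_pow ha 2, by
    rw [map_pow, pow_mul', ← div_pow]
    exact (chart1 n).sq_mem_of_mem_G ((chart1 n).dehom ha)⟩

theorem RR_X0 : (X 0 : AA n) ∈ RR n 1 :=
  ⟨AG_X 0, by rw [pow_one, jA_X, div_self (xv_ne_zero n 0)]; exact one_mem _⟩

theorem RR_X1 : (X 1 : AA n) ∈ RR n 1 :=
  ⟨AG_X 1, by rw [pow_one]; exact ss_mem n⟩

theorem RR_X2 : (X 2 ^ 2 : AA n) ∈ RR n (2 * n) := RR_sq (AG_X 2)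

theorem RR_i0 (ch : Chart n) : (X ch.i0 : AA n) ∈ RR n 1 := by
  rcases ch.hi with ⟨h, -⟩ | ⟨h, -⟩
  · rw [h]; exact RR_X0
  · rw [h]; exact RR_X1

theorem RR_i1 (ch : Chart n) : (X ch.i1 : AA n) ∈ RR n 1 := by
  rcases ch.hi with ⟨-, h⟩ | ⟨-, h⟩
  · rw [h]; exact RR_X1
  · rw [h]; exact RR_X0

theorem div_mem_FF {j : ℕ} {a b : AA n} (ha : a ∈ RR n j) (hb : b ∈ RR n j) :
    jA n a / jA n b ∈ FF n := by
  have := div_mem ha.2 hb.2
  rwa [div_div_div_cancel_right₀ (pow_ne_zero _ (xv_ne_zero n 0))] at this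

theorem mem_RR_of_div {j : ℕ} {a b : AA n} (ha : a ∈ AG n j) (hb : b ∈ RR n j) (hb0 : b ≠ 0)
    (h : jA n a / jA n b ∈ FF n) : a ∈ RR n j := by
  refine ⟨ha, ?_⟩
  have h0 : jA n b ≠ 0 := (map_ne_zero_iff _ (jA_inj n)).mpr hb0
  have := mul_mem h hb.2
  rwa [div_mul_div_cancel₀ h0] at this

theorem RR_zero (hn : n ≠ 0) {a : AA n} (ha : a ∈ RR n 0) :
    ∃ κ : KK n, algebraMap (KK n) (AA n) κ = a := by
  have h1 := AG_zero hn ha.1
  have h2 := ha.2
  rw [pow_zero, div_one, h1, jA_C] at h2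
  exact ⟨⟨coeff 0 a, mem_KK_of_mem_FF n h2⟩, h1.symm⟩

instance : Module.Finite (KK n) (LL n) := by
  have h1 : FiniteDimensional (KK n) (IntermediateField.adjoin (KK n) (Set.range (alL n))) := by
    apply IntermediateField.finiteDimensional_adjoin
    rintro _ ⟨i, rfl⟩
    exact IsIntegral.of_pow two_pos (isIntegral_algebraMap (x := aK i))
  have h2 : IntermediateField.adjoin (KK n) (Set.range (alL n)) = ⊤ := by
    rw [eq_top_iff]
    intro l _
    exact mem_of_subfield_LL n (RingHom.id _)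
      (IntermediateField.adjoin (KK n) (Set.range (alL n))).toSubfield
      (fun i => IntermediateField.subset_adjoin _ _ ⟨i, rfl⟩) l
  rw [h2] at h1
  exact Module.Finite.equiv IntermediateField.topEquiv.toLinearEquiv

theorem finite_of_le_AG (hn : n ≠ 0) {j : ℕ} (N : Submodule (KK n) (AA n))
    (hN : ∀ a ∈ N, a ∈ AG n j) : Module.Finite (KK n) N := by
  have h1 : Module.Finite (LL n) (AG n j) :=
    Module.Finite.iff_fg.mpr (weightedHomogeneousSubmodule_fg _ _
      (fun i => by fin_cases i <;> simp [ww, hn]) j)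
  have h2 : Module.Finite (KK n) (AG n j) := Module.Finite.trans (LL n) _
  have h3 : ((AG n j).restrictScalars (KK n)).FG := Module.Finite.iff_fg.mp h2
  have h4 : FiniteDimensional (KK n) ((AG n j).restrictScalars (KK n)) := Module.Finite.iff_fg.mpr h3
  exact @Submodule.finiteDimensional_of_le _ _ _ _ _ _ ((AG n j).restrictScalars (KK n)) h4 hN

theorem iSupIndep_of_le {m : ℕ} (hm : 0 < m) (ℬ : ℕ → Submodule (KK n) (AA n))
    (h : ∀ j, ∀ a ∈ ℬ j, a ∈ AG n (m * j)) : iSupIndep ℬ := by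
  intro i
  rw [Submodule.disjoint_def]
  intro a ha ha'
  have h1 : ∀ b ∈ (⨆ (j) (_ : j ≠ i), ℬ j), weightedHomogeneousComponent (ww n) (m * i) b = 0 := by
    have : (⨆ (j) (_ : j ≠ i), ℬ j) ≤ LinearMap.ker
        ((weightedHomogeneousComponent (ww n) (m * i)).restrictScalars (KK n)) := by
      refine iSup₂_le fun j hj b hb => ?_
      exact IsWeightedHomogeneous.weightedHomogeneousComponent_ne _ (h j b hb)
        fun h' => hj (Nat.eq_of_mul_eq_mul_left hm h').symm
    exact fun b hb => this hb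
  rw [← weightedHomogeneousComponent_eq_self (h i a ha)]
  exact h1 a ha'

end Pool.Agent.Work.MP_a77660_ag
end

-- merged part: Pool.Agent.Work.MP_a77660_ag.Ring2
section
/-!
A Veronese subring generated in degree one.
-/

namespace Pool.Agent.Work.MP_a77660_ag

open MvPolynomial

variable {n : ℕ}

/-- The monomials in `x, y, z ^ 2`. -/
noncomputable def mono (n a b c : ℕ) : AA n := X 0 ^ a * X 1 ^ b * (X 2 ^ 2) ^ c

theorem mono_mem (a b c : ℕ) : mono n a b c ∈ RR n (a + b + 2 * n * c) := by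
  have := RR_mul (RR_mul (RR_pow (RR_X0 (n := n)) a) (RR_pow RR_X1 b)) (RR_pow RR_X2 c)
  rwa [mul_one, mul_one, mul_comm c] at this

theorem mono_add (a b c a' b' c' : ℕ) :
    mono n (a + a') (b + b') (c + c') = mono n a b c * mono n a' b' c' := by
  simp only [mono, pow_add]; ring

theorem exists_split (κ a b c : ℕ) (h : 2 * n * κ ≤ a + b + 2 * n * c) :
    ∃ a₁ b₁ c₁ a₂ b₂ c₂, a = a₁ + a₂ ∧ b = b₁ + b₂ ∧ c = c₁ + c₂ ∧
      a₁ + b₁ + 2 * n * c₁ = 2 * n * κ := by
  rcases le_total κ c with h1 | h1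
  · exact ⟨0, 0, κ, a, b, c - κ, by omega, by omega, by omega, by omega⟩
  · obtain ⟨e, rfl⟩ := Nat.exists_eq_add_of_le h1
    rw [mul_add] at h
    generalize hM : 2 * n * e = M at h
    refine ⟨min a M, M - min a M, c, a - min a M, b - (M - min a M), 0, by omega, by omega,
      by omega, ?_⟩
    rw [mul_add, hM]
    omega

theorem exists_bound : ∃ D : ℕ, ∀ j, ∀ r ∈ RR n j, r ∈ Submodule.span (KK n)
    {x | ∃ a b c d, d ≤ D ∧ ∃ r ∈ RR n d, x = mono n a b c * r} := by
  let P := MvPolynomial (Fin 3) (KK n)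
  let ψ : P →ₐ[KK n] AA n := aeval ![X 0, X 1, X 2 ^ 2]
  let _ : Algebra P (AA n) := ψ.toRingHom.toAlgebra
  have hX : ∀ i, ψ (X i) = ![X 0, X 1, X 2 ^ 2] i := fun i => aeval_X _ i
  have : IsScalarTower (KK n) P (AA n) := IsScalarTower.of_algebraMap_eq fun κ => (ψ.commutes κ).symm
  have hft0 : Algebra.FiniteType (KK n) (AA n) :=
    Algebra.FiniteType.trans (S := LL n) inferInstance inferInstance
  have hft : Algebra.FiniteType P (AA n) := Algebra.FiniteType.of_restrictScalars_finiteType (KK n) _ _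
  have hint : Algebra.IsIntegral P (AA n) := by
    refine ⟨fun a => IsIntegral.of_pow two_pos ?_⟩
    have : a ^ 2 ∈ ψ.range := by
      induction a using MvPolynomial.induction_on with
      | C l =>
        rw [← map_pow]
        exact ψ.range.algebraMap_mem (⟨l ^ 2, sq_mem_KK n l⟩ : KK n)
      | add p q hp hq => rw [CharTwo.add_sq]; exact add_mem hp hq
      | mul_X p i hp =>
        rw [mul_pow]
        refine mul_mem hp ?_
        fin_cases i
        · exact ⟨X 0 ^ 2, by simp [hX]⟩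
        · exact ⟨X 1 ^ 2, by simp [hX]⟩
        · exact ⟨X 2, by simp [hX]⟩
    obtain ⟨p, hp⟩ := this
    rw [← hp]
    exact isIntegral_algebraMap (x := p)
  have hfin : Module.Finite P (AA n) := Algebra.IsIntegral.finite
  let N : ℕ →o Submodule P (AA n) :=
    ⟨fun D => Submodule.span P {r | ∃ d ≤ D, r ∈ RR n d}, fun D D' h =>
      Submodule.span_mono fun r ⟨d, hd, hr⟩ => ⟨d, hd.trans h, hr⟩⟩
  obtain ⟨D, hD⟩ := monotone_stabilizes_iff_noetherian.mpr (inferInstance : IsNoetherian P (AA n)) N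
  refine ⟨D, fun j r hr => ?_⟩
  set U := Submodule.span (KK n) {x | ∃ a b c d, d ≤ D ∧ ∃ r ∈ RR n d, x = mono n a b c * r}
  have hmono : ∀ a b c, ∀ x ∈ U, mono n a b c * x ∈ U := by
    intro a b c x hx
    induction hx using Submodule.span_induction with
    | mem x hx =>
      obtain ⟨a', b', c', d, hd, r, hr, rfl⟩ := hx
      exact Submodule.subset_span ⟨a + a', b + b', c + c', d, hd, r, hr, by
        rw [mono_add, mul_assoc]⟩
    | zero => simp
    | add x y _ _ hx hy => rw [mul_add]; exact add_mem hx hy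
    | smul κ x _ hx => rw [mul_smul_comm]; exact U.smul_mem κ hx
  have hP : ∀ (p : P), ∀ x ∈ U, ψ p * x ∈ U := by
    intro p
    induction p using MvPolynomial.induction_on with
    | C κ =>
      intro x hx
      rw [show ψ (C κ) = algebraMap (KK n) (AA n) κ from ψ.commutes κ, ← Algebra.smul_def]
      exact U.smul_mem κ hx
    | add p q hp hq => intro x hx; rw [map_add, add_mul]; exact add_mem (hp x hx) (hq x hx)
    | mul_X p i hp =>
      intro x hx
      rw [map_mul, mul_assoc]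
      apply hp
      fin_cases i
      · simpa [mono, hX] using hmono 1 0 0 x hx
      · simpa [mono, hX] using hmono 0 1 0 x hx
      · simpa [mono, hX] using hmono 0 0 1 x hx
  have h1 : r ∈ N D := by
    rw [hD (max D j) (le_max_left _ _)]
    exact Submodule.subset_span ⟨j, le_max_right _ _, hr⟩
  change r ∈ Submodule.span P {r | ∃ d ≤ D, r ∈ RR n d} at h1
  clear hr
  induction h1 using Submodule.span_induction with
  | mem x hx =>
    obtain ⟨d, hd, hx⟩ := hx
    exact Submodule.subset_span ⟨0, 0, 0, d, hd, x, hx, by simp [mono]⟩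
  | zero => exact zero_mem _
  | add x y _ _ hx hy => exact add_mem hx hy
  | smul p x _ hx => exact hP p x hx

theorem exists_kappa (hn : n ≠ 0) : ∃ κ : ℕ, 0 < κ ∧ ∀ J, RR n (2 * n * κ * (J + 2)) ≤
    RR n (2 * n * κ * 1) * RR n (2 * n * κ * (J + 1)) := by
  obtain ⟨D, hD⟩ := exists_bound (n := n)
  refine ⟨D + 1, Nat.succ_pos _, fun J r hr => ?_⟩
  set m := 2 * n * (D + 1) with hm
  have hDm : D ≤ m := by
    have : 1 ≤ n := Nat.one_le_iff_ne_zero.mpr hn
    nlinarith
  have h1 : ∀ x ∈ Submodule.span (KK n)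
      {x | ∃ a b c d, d ≤ D ∧ ∃ r ∈ RR n d, x = mono n a b c * r},
      weightedHomogeneousComponent (ww n) (m * (J + 2)) x ∈ RR n (m * 1) * RR n (m * (J + 1)) := by
    intro x hx
    induction hx using Submodule.span_induction with
    | mem x hx =>
      obtain ⟨a, b, c, d, hd, r, hr, rfl⟩ := hx
      rw [weightedHomogeneousComponent_of_mem (RR_mul (mono_mem a b c) hr).1]
      split_ifs with h
      · obtain ⟨a₁, b₁, c₁, a₂, b₂, c₂, rfl, rfl, rfl, h2⟩ := exists_split (n := n) (D + 1) a b c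
          (by rw [← hm]; nlinarith)
        rw [mono_add, mul_assoc (mono n a₁ b₁ c₁)]
        refine Submodule.mul_mem_mul ?_ ?_
        · rw [mul_one, hm, ← h2]
          exact mono_mem _ _ _
        · have h3 : m * (J + 1) = a₂ + b₂ + 2 * n * c₂ + d := by
            rw [← hm] at h2
            nlinarith
          rw [h3]
          exact RR_mul (mono_mem _ _ _) hr
      · exact zero_mem _
    | zero => simp
    | add x y _ _ hx hy => rw [map_add]; exact add_mem hx hy
    | smul κ x _ hx =>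
      rw [LinearMap.map_smul_of_tower]
      exact Submodule.smul_mem _ κ hx
  rw [← weightedHomogeneousComponent_eq_self hr.1]
  exact h1 r (hD _ r hr)

end Pool.Agent.Work.MP_a77660_ag
end

-- merged part: Pool.Agent.Work.MP_a77660_ag.ProjDim
section
/-!
Dimension and codimension on `Proj`.
-/

namespace Pool.Agent.Work.MP_a77660_ag

open AlgebraicGeometry CategoryTheory Order

set_option backward.isDefEq.respectTransparency false

theorem topologicalKrullDim_eq_krullDim (X : Scheme.{0}) :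
    topologicalKrullDim X = krullDim X := by
  let _ := specializationOrder X
  exact krullDim_eq_of_orderIso (irreducibleSetEquivPoints (α := X))

theorem ringKrullDim_le_of_isIntegral {R S : Type} [CommRing R] [CommRing S] [Algebra R S]
    [Algebra.IsIntegral R S] [FaithfulSMul R S] : ringKrullDim R ≤ ringKrullDim S := by
  refine iSup_le fun l => ?_
  obtain ⟨⟨P, hP, hP'⟩⟩ := (inferInstance : Nonempty (l.head.asIdeal.primesOver S))
  obtain ⟨L, hL, -⟩ := Ideal.exists_ltSeries_of_hasGoingUp l P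
  rw [← hL]
  exact LTSeries.length_le_krullDim L

variable {K R : Type} [Field K] [CommRing R] [Algebra K R] {𝒜 : ℕ → Submodule K R}
  [GradedAlgebra 𝒜]

theorem toIdeal_lt (h0 : ∀ a ∈ 𝒜 0, ∃ κ, algebraMap K R κ = a) (P : Ideal R)
    (hP : ∀ i, 0 < i → ∀ a ∈ 𝒜 i, a ∈ P) (x : Proj 𝒜) : x.asHomogeneousIdeal.toIdeal < P := by
  classical
  refine lt_of_le_of_ne (fun a ha => ?_) fun h => ?_
  · rw [← DirectSum.sum_support_decompose 𝒜 a]
    refine Ideal.sum_mem _ fun i _ => ?_
    rcases Nat.eq_zero_or_pos i with rfl | hi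
    · obtain ⟨κ, hκ⟩ := h0 _ (DirectSum.decompose 𝒜 a 0).2
      have h1 : (DirectSum.decompose 𝒜 a 0 : R) ∈ x.asHomogeneousIdeal.toIdeal :=
        x.asHomogeneousIdeal.isHomogeneous 0 ha
      rw [← hκ] at h1 ⊢
      by_cases h2 : κ = 0
      · rw [h2, map_zero]; exact zero_mem _
      · exact absurd (Ideal.eq_top_of_isUnit_mem _ h1 ((IsUnit.mk0 κ h2).map _))
          x.isPrime.ne_top
    · exact hP i hi _ (DirectSum.decompose 𝒜 a i).2
  · obtain ⟨i, hi, a, ha, hax⟩ := exists_pos_not_mem x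
    apply hax
    change a ∈ x.asHomogeneousIdeal.toIdeal
    rw [h]
    exact hP i hi a ha

theorem krullDim_proj_le [Nonempty (Proj 𝒜)] (h0 : ∀ a ∈ 𝒜 0, ∃ κ, algebraMap K R κ = a)
    (P : Ideal R) [hP' : P.IsPrime] (hP : ∀ i, 0 < i → ∀ a ∈ 𝒜 i, a ∈ P) :
    krullDim (Proj 𝒜) + 1 ≤ ringKrullDim R := by
  rw [← krullDim_withBot, ringKrullDim, ← krullDim_orderDual (α := PrimeSpectrum R)]
  refine krullDim_le_of_strictMono (fun x : WithBot (Proj 𝒜) => OrderDual.toDual
    (WithBot.recBotCoe (⟨P, hP'⟩ : PrimeSpectrum R)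
      (fun x => ⟨x.asHomogeneousIdeal.toIdeal, x.isPrime⟩) x)) ?_
  intro x y hxy
  induction y with
  | bot => exact absurd hxy not_lt_bot
  | coe y =>
    induction x with
    | bot => exact toIdeal_lt h0 P hP y
    | coe x => exact (lt_iff x y).mp (WithBot.coe_lt_coe.mp hxy)

variable [IsDomain R] (hpos : ∃ i, 0 < i ∧ ∃ a ∈ 𝒜 i, a ≠ 0)

include hpos in
theorem coheight_eq_one (x : Proj 𝒜) (h1 : x.asHomogeneousIdeal ≠ ⊥)
    (h2 : ∀ y : Proj 𝒜, y.asHomogeneousIdeal < x.asHomogeneousIdeal → y.asHomogeneousIdeal = ⊥) :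
    coheight x = 1 := by
  apply le_antisymm
  · refine (coheight_le_coe_iff (n := 1)).mpr fun y hy => ?_
    have : IsMax y := fun z _ => by
      rw [le_iff, h2 y ((lt_iff x y).mp hy)]
      exact bot_le
    rw [this.coheight_eq_zero]
    exact zero_lt_one
  · rw [Order.one_le_iff_pos, coheight_pos, not_isMax_iff]
    exact ⟨botPoint hpos, by rw [lt_iff, botPoint_ideal]; exact bot_lt_iff_ne_bot.mpr h1⟩

include hpos in
theorem eq_of_coheight_eq_one {x y : Proj 𝒜} (hx : coheight x = 1)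
    (hy : y.asHomogeneousIdeal ≠ ⊥) (h : y.asHomogeneousIdeal ≤ x.asHomogeneousIdeal) : y = x := by
  by_contra hne
  have h1 : x < y := (lt_iff x y).mpr (lt_of_le_of_ne h fun h' => hne (point_ext h'))
  have h2 := (coheight_le_coe_iff (n := 1)).mp hx.le y h1
  have h3 : IsMax y := by simpa using h2
  have h4 : y < botPoint hpos := by
    rw [lt_iff, botPoint_ideal]; exact bot_lt_iff_ne_bot.mpr hy
  exact h3.not_lt h4

include hpos in
theorem two_le_krullDim {x y : Proj 𝒜} (hy : y.asHomogeneousIdeal ≠ ⊥)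
    (h : y.asHomogeneousIdeal < x.asHomogeneousIdeal) : 2 ≤ krullDim (Proj 𝒜) := by
  have h1 : x < y := (lt_iff x y).mpr h
  have h4 : y < botPoint hpos := by
    rw [lt_iff, botPoint_ideal]; exact bot_lt_iff_ne_bot.mpr hy
  exact (le_krullDim_iff (n := 2)).mpr
    ⟨((RelSeries.singleton _ x).snoc y h1).snoc (botPoint hpos) (by simpa using h4), rfl⟩

end Pool.Agent.Work.MP_a77660_ag
end

-- merged part: Pool.Agent.Work.MP_a77660_ag.Surf1
section
/-!
The surface and its points.
-/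

namespace Pool.Agent.Work.MP_a77660_ag

open MvPolynomial AlgebraicGeometry CategoryTheory Order

set_option backward.isDefEq.respectTransparency false

section General

variable {K A : Type} [Field K] [CommRing A] [Algebra K A] (ℬ : ℕ → Submodule K A)
  [SetLike.GradedMonoid ℬ]

theorem map_subG (j : ℕ) : (subG ℬ j).map (subR ℬ).val.toLinearMap = ℬ j := by
  apply Submodule.map_comap_eq_of_le
  intro a ha
  exact ⟨⟨a, mem_subR ℬ ha⟩, rfl⟩

theorem subG_gen {i j k : ℕ} (h : ℬ i ≤ ℬ j * ℬ k) : subG ℬ i ≤ subG ℬ j * subG ℬ k := by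
  rw [← Submodule.map_le_map_iff_of_injective (f := (subR ℬ).val.toLinearMap)
    Subtype.val_injective, Submodule.map_mul, map_subG, map_subG, map_subG]
  exact h

theorem subG_finite {j : ℕ} (h : Module.Finite K (ℬ j)) : Module.Finite K (subG ℬ j) := by
  rw [← map_subG ℬ j] at h
  exact Module.Finite.equiv (Submodule.equivMapOfInjective (subR ℬ).val.toLinearMap
    Subtype.val_injective (subG ℬ j)).symm

/-- The subalgebra as a type. -/
def SR : Type := subR ℬ

noncomputable instance : CommRing (SR ℬ) := inferInstanceAs (CommRing (subR ℬ))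
noncomputable instance : Algebra K (SR ℬ) := inferInstanceAs (Algebra K (subR ℬ))
instance [IsDomain A] : IsDomain (SR ℬ) := inferInstanceAs (IsDomain (subR ℬ))

/-- The grading. -/
noncomputable def SG : ℕ → Submodule K (SR ℬ) := subG ℬ

noncomputable instance [Fact (iSupIndep ℬ)] : GradedAlgebra (SG ℬ) :=
  inferInstanceAs (GradedAlgebra (subG ℬ))

variable {ℬ}

/-- The inclusion. -/
noncomputable def vS : SR ℬ →+* A := (subR ℬ).val.toRingHom

theorem vS_inj : Function.Injective (vS (ℬ := ℬ)) := Subtype.val_injective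

theorem vS_algebraMap (κ : K) : vS (algebraMap K (SR ℬ) κ) = algebraMap K A κ := rfl

theorem mem_SG {j : ℕ} {a : SR ℬ} : a ∈ SG ℬ j ↔ vS a ∈ ℬ j := Iff.rfl

/-- An element of the subalgebra. -/
noncomputable def mkS {j : ℕ} (a : A) (ha : a ∈ ℬ j) : SR ℬ := ⟨a, mem_subR ℬ ha⟩

theorem mkS_mem {j : ℕ} (a : A) (ha : a ∈ ℬ j) : mkS a ha ∈ SG ℬ j := ha

@[simp] theorem vS_mkS {j : ℕ} (a : A) (ha : a ∈ ℬ j) : vS (mkS a ha) = a := rfl

theorem SG_gen {i j k : ℕ} (h : ℬ i ≤ ℬ j * ℬ k) : SG ℬ i ≤ SG ℬ j * SG ℬ k := subG_gen ℬ h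

theorem SG_finite {j : ℕ} (h : Module.Finite K (ℬ j)) : Module.Finite K (SG ℬ j) :=
  subG_finite ℬ h

end General

variable (n : ℕ) [hn : NeZero n]

/-- The integer defining the Veronese subring. -/
noncomputable def kap : ℕ := (exists_kappa (n := n) hn.out).choose

/-- The degree of the Veronese subring. -/
noncomputable def mm : ℕ := 2 * n * kap n

theorem kap_pos : 0 < kap n := (exists_kappa (n := n) hn.out).choose_spec.1

theorem two_mul_le_mm : 2 * n ≤ mm n := Nat.le_mul_of_pos_right _ (kap_pos n)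

theorem mm_pos : 0 < mm n := lt_of_lt_of_le (by have := hn.out; omega) (two_mul_le_mm n)

/-- The graded pieces of the Veronese subring. -/
noncomputable def BB (j : ℕ) : Submodule (KK n) (AA n) := RR n (mm n * j)

theorem BB_gen (J : ℕ) : BB n (J + 2) ≤ BB n 1 * BB n (J + 1) :=
  (exists_kappa (n := n) hn.out).choose_spec.2 J

instance : SetLike.GradedMonoid (BB n) where
  one_mem := RR_one
  mul_mem i j _ _ ha hb := by
    rw [BB, mul_add]
    exact RR_mul ha hb

instance : Fact (iSupIndep (BB n)) := ⟨iSupIndep_of_le (mm_pos n) _ fun _ _ h => h.1⟩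

/-- The homogeneous coordinate ring of the surface. -/
abbrev RB : Type := SR (BB n)

/-- The grading of the homogeneous coordinate ring. -/
noncomputable abbrev GB : ℕ → Submodule (KK n) (RB n) := SG (BB n)

/-- The surface. -/
noncomputable abbrev XX : Scheme.{0} := Proj (GB n)

/-- The embedding of the coordinate ring in the big field. -/
noncomputable def jB : RB n →+* EE n := (jA n).comp vS

theorem jB_apply (a : RB n) : jB n a = jA n (vS a) := rfl

theorem jB_inj : Function.Injective (jB n) := (jA_inj n).comp vS_inj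

variable {n}

theorem mem_GB {j : ℕ} {a : RB n} : a ∈ GB n j ↔ vS a ∈ RR n (mm n * j) := Iff.rfl

/-- An element of the coordinate ring. -/
noncomputable def mkB {j : ℕ} (a : AA n) (ha : a ∈ RR n (mm n * j)) : RB n :=
  mkS (ℬ := BB n) (j := j) a ha

theorem mkB_mem {j : ℕ} (a : AA n) (ha : a ∈ RR n (mm n * j)) : mkB a ha ∈ GB n j := ha

@[simp] theorem coe_mkB {j : ℕ} (a : AA n) (ha : a ∈ RR n (mm n * j)) :
    vS (mkB a ha) = a := rfl

theorem pow_mem_RR {d : ℕ} {a : AA n} (ha : a ∈ AG n d) :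
    a ^ (2 * mm n) ∈ RR n (mm n * (2 * d)) := by
  rw [pow_mul]
  exact RR_pow (RR_sq ha) _

/-- The exponents. -/
noncomputable def ex (n : ℕ) [NeZero n] : Fin 3 → ℕ := ![mm n, mm n, 2 * kap n]

theorem ex_pos (i : Fin 3) : 0 < ex n i := by
  fin_cases i
  · exact mm_pos n
  · exact mm_pos n
  · exact Nat.mul_pos two_pos (kap_pos n)

theorem X_pow_mem (i : Fin 3) : (X i : AA n) ^ ex n i ∈ RR n (mm n * 1) := by
  fin_cases i
  · exact RR_pow RR_X0 _
  · exact RR_pow RR_X1 _
  · change (X 2 : AA n) ^ (2 * kap n) ∈ _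
    rw [pow_mul, mul_one, mm, mul_comm _ (kap n)]
    exact RR_pow RR_X2 _

/-- The powers of the variables in degree one. -/
noncomputable def xB (n : ℕ) [NeZero n] (i : Fin 3) : RB n :=
  mkB (X i ^ ex n i) (X_pow_mem i)

theorem xB_mem (i : Fin 3) : xB n i ∈ GB n 1 := mkB_mem _ _

theorem coe_xB (i : Fin 3) : vS (xB n i) = X i ^ ex n i := rfl

theorem xB_ne_zero (i : Fin 3) : xB n i ≠ 0 := fun h =>
  pow_ne_zero _ (X_ne_zero i) ((coe_xB i).symm.trans (by rw [h, map_zero]))

theorem hposB : ∃ i, 0 < i ∧ ∃ a ∈ GB n i, a ≠ 0 := ⟨1, one_pos, xB n 0, xB_mem 0, xB_ne_zero 0⟩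

instance : IsIntegral (XX n) := isIntegral_proj hposB

theorem GB_zero : ∀ a ∈ GB n 0, ∃ κ, algebraMap (KK n) (RB n) κ = a := by
  intro a ha
  obtain ⟨κ, hκ⟩ := RR_zero hn.out (mem_GB.mp ha)
  exact ⟨κ, vS_inj hκ⟩

theorem isProjective_XX : IsProjectiveOver (structMap (GB n)) :=
  isProjectiveOver_structMap _
    (SG_finite (finite_of_le_AG hn.out _ fun _ h => h.1)) GB_zero
    fun j => SG_gen (BB_gen n j)

instance : IsProper (structMap (GB n)) := isProjective_XX.isProper

instance : IsLocallyNoetherian (XX n) :=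
  LocallyOfFiniteType.isLocallyNoetherian (structMap (GB n))

noncomputable instance : Algebra (RB n) (AA n) := vS.toAlgebra

instance : FaithfulSMul (RB n) (AA n) := (faithfulSMul_iff_algebraMap_injective _ _).mpr vS_inj

instance : Algebra.IsIntegral (RB n) (AA n) := by
  refine ⟨fun a => ?_⟩
  have h : ∀ d, ∀ a ∈ AG n d, IsIntegral (RB n) a := fun d a ha =>
    IsIntegral.of_pow (n := 2 * mm n) (by have := mm_pos n; omega)
      (isIntegral_algebraMap (x := mkB _ (pow_mem_RR ha)))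
  induction a using MvPolynomial.induction_on with
  | C l => exact h 0 _ (AG_C l)
  | add p q hp hq => exact hp.add hq
  | mul_X p i hp => exact hp.mul (h _ _ (AG_X i))

theorem exists_over (x : XX n) : ∃ Q : Ideal (AA n), Q.IsPrime ∧
    ∀ a : RB n, a ∈ x.asHomogeneousIdeal ↔ vS a ∈ Q := by
  have := x.isPrime
  obtain ⟨Q, hQ, h⟩ := Ideal.exists_ideal_over_prime_of_isIntegral_of_isDomain (S := AA n)
    x.asHomogeneousIdeal.toIdeal (by
      rw [(RingHom.injective_iff_ker_eq_bot (algebraMap (RB n) (AA n))).mp vS_inj]; exact bot_le)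
  refine ⟨Q, hQ, fun a => ?_⟩
  change a ∈ x.asHomogeneousIdeal.toIdeal ↔ _
  rw [← h]
  rfl

omit hn in
theorem mem_of_X_mem (Q : Ideal (AA n)) (hQ : ∀ i, X i ∈ Q) {d : ℕ} (hd : 0 < d) {a : AA n}
    (ha : a ∈ AG n d) : a ∈ Q := by
  induction ha using IsWeightedHomogeneous.induction_on with
  | zero => exact zero_mem _
  | add p q _ _ hp hq => exact add_mem hp hq
  | monomial e r hr =>
    rw [monomial_three]
    rw [weight_ww] at hr
    by_cases h0 : 0 < e 0
    · exact Q.mul_mem_right _ (Q.mul_mem_right _ (Q.mul_mem_left _ (Q.pow_mem_of_mem (hQ 0) _ h0)))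
    by_cases h1 : 0 < e 1
    · exact Q.mul_mem_right _ (Q.mul_mem_left _ (Q.pow_mem_of_mem (hQ 1) _ h1))
    have h2 : 0 < e 2 := by
      by_contra h2
      have : e 2 = 0 := by omega
      rw [this] at hr
      omega
    exact Q.mul_mem_left _ (Q.pow_mem_of_mem (hQ 2) _ h2)

theorem exists_xB_not_mem (x : XX n) : ∃ i, xB n i ∉ x.asHomogeneousIdeal := by
  by_contra! h
  obtain ⟨Q, hQ, hQ'⟩ := exists_over x
  obtain ⟨d, hd, a, ha, hax⟩ := exists_pos_not_mem x
  refine hax ((hQ' a).mpr (mem_of_X_mem Q (fun i => ?_) (Nat.mul_pos (mm_pos n) hd) (mem_GB.mp ha).1))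
  exact hQ.mem_of_pow_mem _ ((hQ' _).mp (h i))

instance (i : Fin 3) : (Ideal.span {(X i : AA n)}).IsPrime :=
  (Ideal.span_singleton_prime (X_ne_zero i)).mpr X_prime

theorem not_dvd_xB {i j : Fin 3} (h : i ≠ j) : ¬ (X i : AA n) ∣ vS (xB n j) := fun h' =>
  h (X_dvd_X.mp (X_prime.dvd_of_dvd_pow h'))

/-- The point of the surface given by the vanishing of a variable. -/
noncomputable def ptB (n : ℕ) [NeZero n] (i : Fin 3) : XX n :=
  corePoint ((Ideal.span {(X i : AA n)}).comap vS)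
    ⟨1, one_pos, xB n (i + 1), xB_mem _, fun h => not_dvd_xB (by fin_cases i <;> decide)
      (Ideal.mem_span_singleton.mp h)⟩

theorem mem_ptB (i : Fin 3) {j : ℕ} {a : RB n} (ha : a ∈ GB n j) :
    a ∈ (ptB n i).asHomogeneousIdeal ↔ (X i : AA n) ∣ vS a :=
  (mem_corePoint _ _ ha).trans Ideal.mem_span_singleton

theorem xB_mem_ptB (i : Fin 3) : xB n i ∈ (ptB n i).asHomogeneousIdeal :=
  (mem_ptB i (xB_mem i)).mpr (dvd_pow_self _ (ex_pos i).ne')

theorem xB_not_mem_ptB {i j : Fin 3} (h : i ≠ j) : xB n j ∉ (ptB n i).asHomogeneousIdeal :=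
  fun h' => not_dvd_xB h ((mem_ptB i (xB_mem j)).mp h')

theorem ptB_ne_bot (i : Fin 3) : (ptB n i).asHomogeneousIdeal ≠ ⊥ := fun h => by
  have := xB_mem_ptB (n := n) i
  rw [h] at this
  exact xB_ne_zero i this

theorem ptB_le {i : Fin 3} {x : XX n} (h : xB n i ∈ x.asHomogeneousIdeal) :
    (ptB n i).asHomogeneousIdeal ≤ x.asHomogeneousIdeal := by
  obtain ⟨Q, hQ, hQ'⟩ := exists_over x
  refine homIdeal_le fun j a ha hai => (hQ' a).mpr ?_
  exact Q.mem_of_dvd ((mem_ptB i ha).mp hai) (hQ.mem_of_pow_mem _ ((hQ' _).mp h))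

theorem coheight_ptB (i : Fin 3) : coheight (ptB n i) = 1 := by
  refine coheight_eq_one hposB _ (ptB_ne_bot i) fun y hy => ?_
  have h1 : xB n i ∉ y.asHomogeneousIdeal := fun h => hy.not_ge (ptB_le h)
  obtain ⟨Q, hQ, hQ'⟩ := exists_over y
  have h2 : X i ∉ Q := fun h => h1 ((hQ' _).mpr (Q.pow_mem_of_mem h _ (ex_pos i)))
  refine le_antisymm (homIdeal_le fun j a ha hay => ?_) bot_le
  by_contra h0
  have h3 : vS a ≠ 0 := fun h => h0 (show a = 0 from vS_inj (by rw [h, map_zero]))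
  obtain ⟨k, b, hb, hab⟩ := WfDvdMonoid.max_power_factor h3 (X_prime (i := i)).irreducible
  have hb1 : b ∈ Q := by
    have := (hQ' a).mp hay
    rw [hab] at this
    exact (hQ.mem_or_mem this).resolve_left fun h => h2 (hQ.mem_of_pow_mem _ h)
  have hb2 := (AG_of_mul (AG_pow (AG_X i) k) (pow_ne_zero _ (X_ne_zero i)) (hab ▸ (mem_GB.mp ha).1)).1
  have hb3 : mkB _ (pow_mem_RR hb2) ∈ y.asHomogeneousIdeal :=
    (hQ' _).mpr (Q.pow_mem_of_mem hb1 _ (by have := mm_pos n; omega))
  exact hb (X_prime.dvd_of_dvd_pow ((mem_ptB i (mkB_mem _ _)).mp (hy.le hb3)))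

theorem eq_ptB {i : Fin 3} {x : XX n} (hx : coheight x = 1) (h : xB n i ∈ x.asHomogeneousIdeal) :
    ptB n i = x :=
  eq_of_coheight_eq_one hposB hx (ptB_ne_bot i) (ptB_le h)

theorem dim_XX : topologicalKrullDim (XX n) = 2 := by
  rw [topologicalKrullDim_eq_krullDim]
  apply le_antisymm
  · let P : Ideal (RB n) := RingHom.ker ((constantCoeff : AA n →+* LL n).comp vS)
    have : P.IsPrime := RingHom.ker_isPrime _
    have h1 := krullDim_proj_le (𝒜 := GB n) GB_zero P fun i hi a ha =>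
      mem_of_X_mem (RingHom.ker (constantCoeff : AA n →+* LL n)) (fun i => by simp)
        (Nat.mul_pos (mm_pos n) hi) (mem_GB.mp ha).1
    have h2 : ringKrullDim (RB n) ≤ ringKrullDim (AA n) := ringKrullDim_le_of_isIntegral
    rw [MvPolynomial.ringKrullDim_of_isNoetherianRing, ringKrullDim_eq_zero_of_field] at h2
    have h3 := h1.trans h2
    simp only [Nat.card_eq_fintype_card, Fintype.card_fin, zero_add] at h3
    generalize krullDim (XX n) = d at h3
    induction d with
    | bot => exact bot_le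
    | coe d =>
      induction d with
      | top => exact absurd h3 (by decide)
      | coe d =>
        have h4 : ((d + 1 : ℕ) : WithBot ℕ∞) ≤ (3 : ℕ) := h3
        have h5 : d ≤ 2 := by
          have := Nat.cast_le.mp h4
          omega
        exact (Nat.cast_le (α := WithBot ℕ∞)).mpr h5
  · let P : Ideal (RB n) := RingHom.ker ((eval ![0, 0, 1] : AA n →+* LL n).comp vS)
    have : P.IsPrime := RingHom.ker_isPrime _
    have hP : ∀ a : RB n, a ∈ P ↔ eval ![0, 0, 1] (vS a) = 0 := fun _ => Iff.rfl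
    let x : XX n := corePoint P ⟨1, one_pos, xB n 2, xB_mem 2, by simp [hP, coe_xB]⟩
    have h0 : xB n 0 ∈ x.asHomogeneousIdeal := (mem_corePoint _ _ (xB_mem 0)).mpr (by
      simp [hP, coe_xB, (ex_pos 0).ne'])
    have h1 : xB n 1 ∈ x.asHomogeneousIdeal := (mem_corePoint _ _ (xB_mem 1)).mpr (by
      simp [hP, coe_xB, (ex_pos 1).ne'])
    refine two_le_krullDim hposB (ptB_ne_bot 0) (lt_of_le_of_ne (ptB_le h0) fun h => ?_)
    exact xB_not_mem_ptB (i := 0) (j := 1) (by decide) (h ▸ h1)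

end Pool.Agent.Work.MP_a77660_ag
end

-- merged part: Pool.Agent.Work.MP_a77660_ag.Surf2
section
/-!
Function field, normality and global functions of the surface.
-/

namespace Pool.Agent.Work.MP_a77660_ag

open MvPolynomial AlgebraicGeometry CategoryTheory Order

set_option backward.isDefEq.respectTransparency false

instance (n : ℕ) : FaithfulSMul (AA n) (EE n) :=
  (faithfulSMul_iff_algebraMap_injective _ _).mpr (jA_inj n)

instance (n : ℕ) : IsIntegrallyClosed (AA n) := UniqueFactorizationMonoid.instIsIntegrallyClosed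

variable {n : ℕ} [hn : NeZero n]

/-- The embedding of the function field of the surface in the big field. -/
noncomputable def thX (n : ℕ) [NeZero n] : (XX n).functionField →+* EE n :=
  theta (jB n) (jB_inj n)

theorem thX_mem (g : (XX n).functionField) : thX n g ∈ FF n := by
  obtain ⟨i, a, ha, b, hb, -, h⟩ := (mem_range_theta (jB n) (jB_inj n) hposB _).mp ⟨g, rfl⟩
  rw [thX, h]
  exact div_mem_FF (mem_GB.mp ha) (mem_GB.mp hb)

theorem mem_range_of_div {d : ℕ} {a b : AA n} (ha : a ∈ AG n d) (hb : b ∈ RR n d) (hb0 : b ≠ 0)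
    (h : jA n a / jA n b ∈ FF n) : jA n a / jA n b ∈ (thX n).fieldRange := by
  have ha' := mem_RR_of_div ha hb hb0 h
  have h0 : jA n b ≠ 0 := (map_ne_zero_iff _ (jA_inj n)).mpr hb0
  obtain ⟨k, hk⟩ : ∃ k, mm n = k + 1 := ⟨mm n - 1, by have := mm_pos n; omega⟩
  have h1 : b ^ k * a ∈ RR n (mm n * d) := by
    rw [hk, add_mul, one_mul]; exact RR_mul (RR_pow hb k) ha'
  have h2 : b ^ k * b ∈ RR n (mm n * d) := by
    rw [hk, add_mul, one_mul]; exact RR_mul (RR_pow hb k) hb
  refine (mem_range_theta (jB n) (jB_inj n) hposB _).mpr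
    ⟨d, mkB _ h1, mkB_mem _ _, mkB _ h2, mkB_mem _ _, fun h3 => ?_, ?_⟩
  · have h4 := congrArg vS h3
    rw [coe_mkB, map_zero] at h4
    exact mul_ne_zero (pow_ne_zero _ hb0) hb0 h4
  · simp only [jB_apply, coe_mkB, map_mul, map_pow]
    field_simp

theorem FF_le_range : FF n ≤ (thX n).fieldRange := by
  have hx := xv_ne_zero n 0
  have hz := xv_ne_zero n 2
  have hC : ∀ i, jA n (C (alL n i)) = al n i := fun i => jA_C n _
  rw [FF, Subfield.closure_le]
  rintro _ ⟨l, rfl⟩
  have hl := tt_mem n l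
  revert hl
  refine Fin.cases ?_ (fun l => ?_) l
  · intro hl
    have h : tt n 0 = jA n (C (alL n 0) ^ 2) / jA n 1 := by
      rw [map_pow, hC, map_one, div_one]; rfl
    rw [h] at hl ⊢
    exact mem_range_of_div (AG_pow (AG_C _) 2) RR_one one_ne_zero hl
  refine Fin.cases ?_ (fun l => ?_) l
  · intro hl
    exact mem_range_of_div (AG_X 1) RR_X0 (X_ne_zero 0) hl
  refine Fin.cases ?_ (fun l => ?_) l
  · intro hl
    have h : tt n (Fin.succ 0).succ =
        jA n (C (alL n 0) * X 2 ^ 2 + X 0 ^ n * X 2) / jA n (X 2 ^ 2) := by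
      change ee n = _
      simp only [map_add, map_mul, map_pow, hC, jA_X, ee]
      field_simp
    rw [h] at hl ⊢
    refine mem_range_of_div (d := 2 * n) (add_mem ?_ ?_) RR_X2 (pow_ne_zero _ (X_ne_zero 2)) hl
    · simpa using AG_mul (AG_C (alL n 0)) (RR_X2 (n := n)).1
    · simpa [ww, two_mul] using AG_mul (AG_pow (AG_X (n := n) 0) n) (AG_X 2)
  · intro hl
    have h : tt n l.succ.succ.succ = jA n (C (alL n l.succ) * X 0 ^ (l.succ : ℕ) +
        C (alL n 0) * X 1 ^ (l.succ : ℕ)) / jA n (X 0 ^ (l.succ : ℕ)) := by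
      change UU n l.succ = _
      simp only [map_add, map_mul, map_pow, hC, jA_X, UU, ss, div_pow]
      field_simp
    rw [h] at hl ⊢
    refine mem_range_of_div (d := (l.succ : ℕ) * 1) (add_mem ?_ ?_) (RR_pow RR_X0 _)
      (pow_ne_zero _ (X_ne_zero 0)) hl
    · simpa [ww] using AG_mul (AG_C (alL n l.succ)) (AG_pow (AG_X (n := n) 0) (l.succ : ℕ))
    · simpa [ww] using AG_mul (AG_C (alL n 0)) (AG_pow (AG_X (n := n) 1) (l.succ : ℕ))

/-- The identification of the function field. -/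
noncomputable def eps (n : ℕ) [NeZero n] : FF n ≃+* (XX n).functionField :=
  (RingEquiv.ofBijective ((thX n).codRestrict (FF n) thX_mem)
    ⟨fun _ _ h => (thX n).injective (congrArg Subtype.val h), fun f => by
      obtain ⟨g, hg⟩ := FF_le_range f.2
      exact ⟨g, Subtype.ext hg⟩⟩).symm

theorem thX_eps (f : FF n) : thX n (eps n f) = f :=
  congrArg Subtype.val ((eps n).symm_apply_apply f)

theorem exists_frac {f : EE n} (hf : f ∈ FF n) :
    ∃ i, ∃ a ∈ GB n i, ∃ b ∈ GB n i, b ≠ 0 ∧ f = jB n a / jB n b :=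
  (mem_range_theta (jB n) (jB_inj n) hposB _).mp (FF_le_range hf)

theorem eps_mem_iff (x : XX n) (f : FF n) :
    eps n f ∈ (algebraMap ((XX n).presheaf.stalk x) (XX n).functionField).range ↔
      ∃ i, ∃ a ∈ GB n i, ∃ b ∈ GB n i, b ∉ x.asHomogeneousIdeal ∧ (f : EE n) = jB n a / jB n b := by
  rw [mem_range_algebraMap_iff (jB n) (jB_inj n), mem_range_rho]
  rw [show theta (jB n) (jB_inj n) (eps n f) = f from thX_eps f]

theorem eps_kF (κ : KK n) : eps n (kF n κ) = kRat (structMap (GB n)) κ := by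
  apply (thX n).injective
  rw [thX_eps]
  exact ((rho_structSec (jB n) (jB_inj n) _ κ).trans (jA_C n _)).symm

/-- An element of the function field which becomes a polynomial after multiplication by a
homogeneous element. -/
theorem mem_RR_of_mul {f : EE n} (hf : f ∈ FF n) {j : ℕ} {a b : AA n} (hb : b ∈ RR n j)
    (hb0 : b ≠ 0) (h : f = jA n a / jA n b) : a ∈ RR n j := by
  obtain ⟨i, a', ha', b', hb', hb0', h'⟩ := exists_frac hf
  have h0 : jA n b ≠ 0 := (map_ne_zero_iff _ (jA_inj n)).mpr hb0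
  have h1 : jB n b' ≠ 0 := (map_ne_zero_iff _ (jB_inj n)).mpr hb0'
  have h2 : vS b' * a = vS a' * b := by
    apply jA_inj n
    rw [h, div_eq_div_iff h0 h1] at h'
    rw [map_mul, map_mul, mul_comm]
    exact h'
  have h3 := (AG_of_mul (mem_GB.mp hb').1 ((map_ne_zero_iff _ vS_inj).mpr hb0')
    (h2 ▸ AG_mul (mem_GB.mp ha').1 hb.1)).1
  rw [Nat.add_sub_cancel_left] at h3
  exact mem_RR_of_div h3 hb hb0 (h ▸ hf)

theorem normal_XX : IsNormalScheme (XX n) := by
  intro x
  rw [isIntegrallyClosed_iff (XX n).functionField]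
  intro g hg
  let M : Submonoid (AA n) :=
    { carrier := {c | ∃ i, ∃ b ∈ GB n i, b ∉ x.asHomogeneousIdeal ∧ vS b = c}
      mul_mem' := by
        rintro _ _ ⟨i, b, hb, hbx, rfl⟩ ⟨i', b', hb', hbx', rfl⟩
        exact ⟨i + i', b * b', SetLike.mul_mem_graded hb hb', fun h =>
          (x.isPrime.mem_or_mem h).elim hbx hbx', map_mul _ _ _⟩
      one_mem' := ⟨0, 1, SetLike.one_mem_graded _, fun h =>
        x.isPrime.ne_top ((Ideal.eq_top_iff_one _).mpr h), map_one _⟩ }
  have hM : M ≤ nonZeroDivisors (AA n) := by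
    rintro _ ⟨i, b, -, hbx, rfl⟩
    exact mem_nonZeroDivisors_of_ne_zero fun h => hbx (by
      rw [show b = 0 from vS_inj (by rw [h, map_zero])]; exact zero_mem _)
  let Z := Localization.subalgebra.ofField (EE n) M hM
  have hZ : IsIntegrallyClosed Z := isIntegrallyClosed_of_isLocalization Z M hM
  have hmem : ∀ o, rho (jB n) (jB_inj n) x o ∈ Z := fun o => by
    obtain ⟨i, a, -, b, hb, hbx, h⟩ := exists_rho_eq (jB n) (jB_inj n) x o
    exact ⟨vS a, vS b, ⟨i, b, hb, hbx, rfl⟩, by rw [h, div_eq_mul_inv]; rfl⟩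
  have h1 : IsIntegral Z (thX n g) :=
    hg.map_of_comp_eq ((rho (jB n) (jB_inj n) x).codRestrict Z hmem) (thX n)
      (RingHom.ext fun o => (theta_algebraMap (jB n) (jB_inj n) x o).symm)
  obtain ⟨⟨_, a, _, ⟨i, b, hb, hbx, rfl⟩, rfl⟩, h2⟩ :=
    (isIntegrallyClosed_iff (EE n)).mp hZ h1
  have hb0 : vS b ≠ 0 := fun h => hbx (by
    rw [show b = 0 from vS_inj (by rw [h, map_zero])]; exact zero_mem _)
  have h3 : thX n g = jA n a / jA n (vS b) := by rw [← h2, div_eq_mul_inv]; rfl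
  have h4 := mem_RR_of_mul (thX_mem g) (mem_GB.mp hb) hb0 h3
  exact (mem_range_algebraMap_iff (jB n) (jB_inj n) x g).mpr
    ((mem_range_rho _ _ _ _).mpr ⟨i, mkB a h4, mkB_mem _ _, b, hb, hbx, h3⟩)

theorem contraction_XX : Function.Bijective (structMap (GB n)).appTop := by
  have h : Function.Bijective (kSec (structMap (GB n))) := by
    let η := genericPoint (XX n)
    let ρ : Γ(XX n, ⊤) →+* EE n := (thX n).comp ((XX n).presheaf.germ ⊤ η trivial).hom
    have hρ : Function.Injective ρ :=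
      (thX n).injective.comp (germ_injective_of_isIntegral (U := ⊤) _ η trivial)
    have hρK : ∀ κ, ρ (kSec (structMap (GB n)) κ) = jA n (algebraMap (KK n) (AA n) κ) :=
      fun κ => rho_structSec (jB n) (jB_inj n) η κ
    have : Nontrivial Γ(XX n, ⊤) := ρ.domain_nontrivial
    refine ⟨RingHom.injective _, fun σ => ?_⟩
    have h1 : (kSec (structMap (GB n))).IsIntegral := by
      apply RingHom.isIntegral_respectsIso.2
        (e := (Scheme.ΓSpecIso _).symm.commRingCatIsoToRingEquiv)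
      exact isIntegral_appTop_of_universallyClosed _
    let _ := (kSec (structMap (GB n))).toAlgebra
    have h2 : IsIntegral (KK n) σ := h1 σ
    have h3 : IsIntegral (AA n) (ρ σ) :=
      h2.map_of_comp_eq (algebraMap (KK n) (AA n)) ρ (RingHom.ext fun κ => (hρK κ).symm)
    obtain ⟨a, ha⟩ := (isIntegrallyClosed_iff (EE n)).mp inferInstance h3
    have h4 : a ∈ RR n 0 := mem_RR_of_mul (f := ρ σ) (thX_mem _) RR_one one_ne_zero
      (by rw [map_one, div_one]; exact ha.symm)
    obtain ⟨κ, rfl⟩ := RR_zero hn.out h4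
    exact ⟨κ, hρ ((hρK κ).trans ha)⟩
  exact (Function.Bijective.of_comp_iff _
    (Scheme.ΓSpecIso (CommRingCat.of (KK n))).symm.commRingCatIsoToRingEquiv.bijective).mp h

end Pool.Agent.Work.MP_a77660_ag
end

-- merged part: Pool.Agent.Work.MP_a77660_ag.Surf3
section
/-!
The boundary divisor, and the log Calabi-Yau property.
-/

namespace Pool.Agent.Work.MP_a77660_ag

open MvPolynomial AlgebraicGeometry CategoryTheory Order WithZero

set_option backward.isDefEq.respectTransparency false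

variable {n : ℕ} [hn : NeZero n]

open Classical in
/-- The boundary divisor. -/
noncomputable def bdry (n : ℕ) [NeZero n] (x : XX n) : ℤ :=
  if x = ptB n 0 ∨ x = ptB n 1 then 1 else 0

omit hn in
theorem cF_ne_zero : cF n ≠ 0 := fun h => by
  have := (chart1 n).hjac
  rw [h, zero_mul] at this
  exact mul_ne_zero (chart1 n).s_ne_zero (chart1 n).h_ne_zero this.symm

theorem mm_succ : ∃ k, mm n = k + 1 := ⟨mm n - 1, by have := mm_pos n; omega⟩

namespace Chart

variable (ch : Chart n)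

theorem jB_xB0 : jB n (xB n ch.i0) = xv n ch.i0 ^ mm n := by
  rw [jB_apply, coe_xB, map_pow, jA_X]
  rcases ch.hi with ⟨h, -⟩ | ⟨h, -⟩ <;> rw [h] <;> rfl

theorem jB_xB1 : jB n (xB n ch.i1) = xv n ch.i1 ^ mm n := by
  rw [jB_apply, coe_xB, map_pow, jA_X]
  rcases ch.hi with ⟨-, h⟩ | ⟨-, h⟩ <;> rw [h] <;> rfl

omit hn in
theorem i_ne : ch.i1 ≠ ch.i0 := by
  rcases ch.hi with ⟨h, h'⟩ | ⟨h, h'⟩ <;> rw [h, h'] <;> decide

variable (x : XX n) (V : Valuation (FF n) ℤᵐ⁰)
  (hV : ∀ f : FF n, V f ≤ 1 ↔ ∃ i, ∃ a ∈ GB n i, ∃ b ∈ GB n i, b ∉ x.asHomogeneousIdeal ∧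
    (f : EE n) = jB n a / jB n b)

omit ch in
include hV in
theorem val_le_one {f : FF n} {i : ℕ} {b : RB n} (hb : b ∈ GB n i)
    (hbx : b ∉ x.asHomogeneousIdeal) (a : AA n) (h : (f : EE n) = jA n a / jB n b) : V f ≤ 1 := by
  have hb0 : vS b ≠ 0 := fun h => hbx (by
    rw [show b = 0 from vS_inj (by rw [h, map_zero])]; exact zero_mem _)
  have h1 := mem_RR_of_mul f.2 (mem_GB.mp hb) hb0 h
  exact (hV f).mpr ⟨i, mkB a h1, mkB_mem _ _, b, hb, hbx, h⟩

include hV in
theorem val_s_le (hx : xB n ch.i0 ∉ x.asHomogeneousIdeal) : V ch.s ≤ 1 := by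
  obtain ⟨k, hk⟩ := mm_succ (n := n)
  refine val_le_one x V hV (xB_mem _) hx (X ch.i0 ^ k * X ch.i1) ?_
  have := xv_ne_zero n ch.i0
  rw [ch.hs, ch.jB_xB0, hk, map_mul, map_pow, jA_X, jA_X]
  field_simp
  ring

include hV in
theorem val_s_inv_le (hx : xB n ch.i1 ∉ x.asHomogeneousIdeal) : V ch.s⁻¹ ≤ 1 := by
  obtain ⟨k, hk⟩ := mm_succ (n := n)
  refine val_le_one x V hV (xB_mem _) hx (X ch.i1 ^ k * X ch.i0) ?_
  have := xv_ne_zero n ch.i1
  rw [Subfield.coe_inv, ch.hs, ch.jB_xB1, hk, map_mul, map_pow, jA_X, jA_X]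
  field_simp
  ring

include hV in
theorem val_h_le (hx : xB n ch.i0 ∉ x.asHomogeneousIdeal) : V (ch.e ^ 2 + ch.a)⁻¹ ≤ 1 := by
  obtain ⟨k, hk⟩ := Nat.exists_eq_add_of_le (two_mul_le_mm n)
  refine val_le_one x V hV (xB_mem _) hx (X ch.i0 ^ k * X 2 ^ 2) ?_
  have := xv_ne_zero n ch.i0
  have := xv_ne_zero n 2
  rw [Subfield.coe_inv, ch.coe_h, ch.jB_xB0, hk, map_mul, map_pow, map_pow, jA_X, jA_X]
  field_simp
  ring

include hV in
theorem exists_quot (f : FF n) (hf : V f ≤ 1) :
    ∃ qa qb : FF n, (qa : EE n) ∈ ch.G ∧ (qb : EE n) ∈ ch.G ∧ V qb⁻¹ ≤ 1 ∧ f = qa * qb⁻¹ := by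
  obtain ⟨i, a, ha, b, hb, hbx, h⟩ := (hV f).mp hf
  have h1 : (X ch.i0 : AA n) ^ (mm n * i) ∈ RR n (mm n * i) := by
    simpa using RR_pow (RR_i0 ch) (mm n * i)
  have h0 := xv_ne_zero n ch.i0
  have h2 : ∀ c ∈ GB n i, jA n (vS c) / jA n (X ch.i0 ^ (mm n * i)) ∈ ch.G := fun c hc => by
    rw [map_pow]
    exact ch.dehom (mem_GB.mp hc).1
  refine ⟨⟨_, div_mem_FF (mem_GB.mp ha) h1⟩, ⟨_, div_mem_FF (mem_GB.mp hb) h1⟩, h2 a ha, h2 b hb,
    val_le_one x V hV hb hbx (X ch.i0 ^ (mm n * i)) ?_, Subtype.ext ?_⟩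
  · rw [Subfield.coe_inv, inv_div]
    rfl
  · rw [Subfield.coe_mul, Subfield.coe_inv, h]
    change _ = jA n (vS a) / jA n (X ch.i0 ^ (mm n * i)) *
      (jA n (vS b) / jA n (X ch.i0 ^ (mm n * i)))⁻¹
    rw [map_pow, jA_X, jB_apply, jB_apply]
    field_simp

include hV in
theorem val_s_eq (hπ : ∃ π, V π = exp (-1 : ℤ)) (hc : coheight x = 1)
    (hx : xB n ch.i0 ∉ x.asHomogeneousIdeal) : V ch.s = exp (-(bdry n x)) := by
  have hs := ch.val_s_le x V hV hx
  have hs0 : V ch.s ≠ 0 := by simpa using ch.s_ne_zero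
  have hx0 : x ≠ ptB n ch.i0 := fun h => hx (h ▸ xB_mem_ptB _)
  have h0 := xv_ne_zero n ch.i0
  have h1 := xv_ne_zero n ch.i1
  by_cases hx1 : x = ptB n ch.i1
  · have hB : bdry n x = 1 := by
      rw [bdry, if_pos]
      rcases ch.hi with ⟨-, h⟩ | ⟨-, h⟩
      · exact Or.inr (h ▸ hx1)
      · exact Or.inl (h ▸ hx1)
    rw [hB]
    obtain ⟨π, hπ⟩ := hπ
    apply le_antisymm
    · have h2 : ¬ V ch.s⁻¹ ≤ 1 := fun h2 => by
        obtain ⟨i, a, ha, b, hb, hbx, h⟩ := (hV _).mp h2
        have hb0 := ne_zero_of_not_mem (jB n) (jB_inj n) hbx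
        rw [Subfield.coe_inv, ch.hs, inv_div, div_eq_div_iff h1 hb0] at h
        have h3 : X ch.i0 * vS b = vS a * X ch.i1 := by
          apply jA_inj n
          rw [map_mul, map_mul]
          exact h
        have h4 : (X ch.i1 : AA n) ∣ X ch.i0 * vS b := h3 ▸ dvd_mul_left _ _
        rcases X_prime.dvd_or_dvd h4 with h5 | h5
        · exact ch.i_ne (X_dvd_X.mp h5)
        · exact hbx (hx1 ▸ (mem_ptB _ hb).mpr h5)
      rw [map_inv₀, inv_le_one₀ (zero_lt_iff.mpr hs0), not_le] at h2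
      rw [← exp_log hs0, ← exp_zero, exp_lt_exp] at h2
      rw [← exp_log hs0, exp_le_exp]
      omega
    · have hπ1 : V π ≤ 1 := by rw [hπ, ← exp_zero, exp_le_exp]; norm_num
      obtain ⟨i, a, ha, b, hb, hbx, h⟩ := (hV _).mp hπ1
      have hb0 := ne_zero_of_not_mem (jB n) (jB_inj n) hbx
      have hax : a ∈ x.asHomogeneousIdeal := by
        by_contra hax
        have h2 := val_le_one x V hV (f := π⁻¹) ha hax (vS b) (by
          rw [Subfield.coe_inv, h, inv_div]; rfl)
        rw [map_inv₀, hπ, ← exp_neg, ← exp_zero, exp_le_exp] at h2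
        omega
      obtain ⟨c, hc⟩ := (mem_ptB _ ha).mp (hx1 ▸ hax)
      have h2 := val_le_one x V hV (f := π / ch.s) hb hbx (X ch.i0 * c) (by
        rw [Subfield.coe_div, h, ch.hs, jB_apply n a, hc, map_mul, map_mul, jA_X, jA_X]
        field_simp)
      rw [map_div₀, div_le_one₀ (zero_lt_iff.mpr hs0), hπ] at h2
      exact h2
  · have hB : bdry n x = 0 := by
      rw [bdry, if_neg]
      rcases ch.hi with ⟨h, h'⟩ | ⟨h, h'⟩
      · exact fun h2 => h2.elim (h ▸ hx0) (h' ▸ hx1)
      · exact fun h2 => h2.elim (h' ▸ hx1) (h ▸ hx0)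
    have h2 := ch.val_s_inv_le x V hV fun h => hx1 (eq_ptB hc h).symm
    rw [map_inv₀, inv_le_one₀ (zero_lt_iff.mpr hs0)] at h2
    rw [hB, le_antisymm hs h2]
    rfl

end Chart

/-- The last index. -/
def lastIdx (n : ℕ) [hn : NeZero n] : Fin n := ⟨n - 1, by have := hn.out; omega⟩

theorem lastIdx_succ : (lastIdx n : ℕ) + 1 = n := by
  have := hn.out
  simp only [lastIdx]
  omega

theorem exists_chart (x : XX n) (hc : coheight x = 1) :
    ∃ ch : Chart n, xB n ch.i0 ∉ x.asHomogeneousIdeal := by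
  by_cases h : xB n 0 ∈ x.asHomogeneousIdeal
  · refine ⟨chart2 (lastIdx n) lastIdx_succ, fun h' => ?_⟩
    rw [← eq_ptB hc h] at h'
    exact xB_not_mem_ptB (i := 0) (j := 1) (by decide) h'
  · exact ⟨chart1 n, h⟩

variable (β : Module.Basis (Fin (n + 3)) (XX n).functionField Ω[(XX n).functionField⁄ℤ])
  (hβ : ∀ a : Fin (n + 3) → FF n,
    β.det (fun i => KaehlerDifferential.D ℤ _ (eps n (a i))) = eps n (jac (del n) a))

include hβ in
theorem trivial_XX (x : XX n) (hc : coheight x = 1) : ∃ κ : ℤ,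
    IsCanonicalCoeff β (RingHom.id (XX n).functionField) x κ ∧
      (XX n).ord (eps n (cF n)) x = κ + bdry n x := by
  obtain ⟨v, hv1, ⟨π, hπ⟩, hv2⟩ := exists_valuation x (normal_XX x) hc
  let V : Valuation (FF n) ℤᵐ⁰ := v.comap (eps n : FF n →+* (XX n).functionField)
  have hV : ∀ f : FF n, V f ≤ 1 ↔ ∃ i, ∃ a ∈ GB n i, ∃ b ∈ GB n i,
      b ∉ x.asHomogeneousIdeal ∧ (f : EE n) = jB n a / jB n b := fun f =>
    (hv1 _).trans (eps_mem_iff x f)
  have hV2 : ∀ f : FF n, f ≠ 0 → V f = exp (-((XX n).ord (eps n f) x)) := fun f hf =>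
    hv2 _ (by simpa using hf)
  have hK : ∀ κ, V (kF n κ) ≤ 1 := fun κ =>
    (hv1 _).mpr ⟨_, (algebraMap_kStalk (structMap (GB n)) x κ).trans (eps_kF κ).symm⟩
  obtain ⟨ch, hx⟩ := exists_chart x hc
  obtain ⟨t, ht, h1, h2⟩ := ch.exact_chart V hK (ch.val_s_le x V hV hx) (ch.val_h_le x V hV hx)
    (ch.exists_quot x V hV)
  rw [ch.val_s_eq x V hV ⟨(eps n).symm π, by simpa [V] using hπ⟩ hc hx] at h1
  have ht0 : jac (del n) t ≠ 0 := fun h => by
    rw [h, mul_zero, map_zero] at h1
    exact exp_ne_zero h1.symm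
  refine ⟨_, isCanonicalCoeff_of_max (eps n) (del n) β hβ (RingHom.id _) x V (fun f => hv1 _) hV2
    t ht ht0 h2, ?_⟩
  rw [map_mul, hV2 _ cF_ne_zero, hV2 _ ht0, ← exp_add, exp_inj] at h1
  simp only [RingHom.id_apply]
  omega

include hβ in
theorem lc_XX (W : Scheme.{0}) [IsIntegral W] [IsLocallyNoetherian W] (φ : W ⟶ XX n)
    [IsDominant φ] (hW : IsNormalScheme W) [IsProper φ]
    (hφ : Function.Bijective (pullbackRat φ)) (w : W) (hc : coheight w = 1) : ∃ κ : ℤ,
      IsCanonicalCoeff β (pullbackRat φ) w κ ∧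
        W.ord (pullbackRat φ (eps n (cF n))) w - κ ≤ 1 := by
  obtain ⟨v, hv1, ⟨π, hπ⟩, hv2⟩ := exists_valuation w (hW w) hc
  let Ψ : FF n ≃+* W.functionField := (eps n).trans (RingEquiv.ofBijective _ hφ)
  have hΨ : ∀ f, Ψ f = pullbackRat φ (eps n f) := fun _ => rfl
  let V : Valuation (FF n) ℤᵐ⁰ := v.comap (Ψ : FF n →+* W.functionField)
  have hVv : ∀ f, V f = v (Ψ f) := fun _ => rfl
  have hV2 : ∀ f : FF n, f ≠ 0 → V f = exp (-(W.ord (pullbackRat φ (eps n f)) w)) := fun f hf =>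
    hv2 _ (by simpa using hf)
  have hΨK : ∀ κ, Ψ (kF n κ) = kRat (φ ≫ structMap (GB n)) κ := fun κ => by
    rw [hΨ, eps_kF, pullbackRat_kRat]
  have hK : ∀ κ, V (kF n κ) ≤ 1 := fun κ =>
    (hv1 _).mpr ⟨_, (algebraMap_kStalk (φ ≫ structMap (GB n)) w κ).trans (hΨK κ).symm⟩
  obtain ⟨a₀, ha₀, h1⟩ := lc_general (lastIdx n) lastIdx_succ V hK (π := Ψ.symm π)
    (by rw [hVv, Ψ.apply_symm_apply, hπ])
  have h0 : jac (del n) a₀ ≠ 0 := fun h => by
    rw [h, mul_zero, map_zero, le_zero_iff] at h1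
    exact exp_ne_zero h1
  obtain ⟨σ, hσ⟩ := exists_generators (φ ≫ structMap (GB n)) w
  obtain ⟨γ, hγ⟩ := exists_bound_jac (del n) V
    (Sum.elim (fun i => kF n (aK i))
      (fun s : σ => Ψ.symm (algebraMap (W.presheaf.stalk w) W.functionField s.1)))
    (by
      rintro (i | s)
      · exact hK _
      · rw [hVv, hv1]
        exact ⟨s.1, (Ψ.apply_symm_apply _).symm⟩)
    (by
      intro T hT hinv f hf
      have hKT : ∀ κ, kF n κ ∈ T := by
        let T' : Subfield (KK n) :=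
          { T.comap (kF n) with
            inv_mem' := fun κ hκ => by
              change kF n κ⁻¹ ∈ T
              rw [map_inv₀]
              exact hinv _ hκ (by rw [← map_inv₀]; exact hK _) }
        exact KK_induction T' fun i => hT (Sum.inl i)
      obtain ⟨o, ho⟩ := (hv1 _).mp hf
      have h2 := hσ (T.comap (Ψ.symm : W.functionField →+* FF n))
        (fun κ => by
          change Ψ.symm _ ∈ T
          rw [← hΨK, Ψ.symm_apply_apply]
          exact hKT κ)
        (fun s hs => hT (Sum.inr ⟨s, hs⟩))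
        (fun t ht h => by
          change Ψ.symm _ ∈ T
          rw [map_inv₀]
          refine hinv _ ht ?_
          rw [hVv, map_inv₀, Ψ.apply_symm_apply]
          exact (hv1 _).mpr h) o
      rw [ho] at h2
      change Ψ.symm (Ψ f) ∈ T at h2
      rwa [Ψ.symm_apply_apply] at h2)
  obtain ⟨t, ht, ht0, hmax⟩ := exists_max (del n) V γ hγ a₀ ha₀ h0
  refine ⟨_, isCanonicalCoeff_of_max (eps n) (del n) β hβ (pullbackRat φ) w V (fun f => hv1 _) hV2
    t ht ht0 hmax, ?_⟩
  have h2 : exp (-1 : ℤ) ≤ V (cF n) * V (jac (del n) t) := by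
    rw [map_mul] at h1
    exact h1.trans (mul_le_mul_right (hmax a₀ ha₀) _)
  rw [hV2 _ cF_ne_zero, hV2 _ ht0, ← exp_add, exp_le_exp] at h2
  omega

theorem isLogCalabiYau_XX : IsLogCalabiYauOver (structMap (GB n)) fun x => (bdry n x : ℚ) where
  normal := normal_XX
  projective := isProjective_XX
  contraction := contraction_XX
  coeff_nonneg x := by
    unfold bdry
    split_ifs <;> norm_num
  finite_support := by
    refine (Set.toFinite {ptB n 0, ptB n 1}).subset fun x hx => ?_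
    by_contra h
    apply hx
    simp only [bdry]
    rw [if_neg (show ¬ (x = ptB n 0 ∨ x = ptB n 1) from h)]
    rfl
  support_codim_one x hx := by
    by_cases h : x = ptB n 0 ∨ x = ptB n 1
    · rcases h with rfl | rfl <;> exact coheight_ptB _
    · exact absurd (by rw [bdry, if_neg h]; rfl) hx
  trivial_and_lc := by
    obtain ⟨β, hβ⟩ := exists_basis_equiv (eps n) (tF n) (del n) (del_tF n) (closure_tF n)
    refine ⟨n + 3, β, 1, eps n (cF n), one_pos, by simpa using cF_ne_zero, fun x hx => ?_,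
      fun W _ _ φ _ hW _ hφ w hw => ?_⟩
    · obtain ⟨κ, h1, h2⟩ := trivial_XX β hβ x hx
      exact ⟨κ, h1, by rw [h2]; simp⟩
    · obtain ⟨κ, h1, h2⟩ := lc_XX β hβ W φ hW hφ w hw
      refine ⟨κ, h1, ?_⟩
      rw [Nat.cast_one, div_one]
      exact_mod_cast h2

end Pool.Agent.Work.MP_a77660_ag
end

-- merged part: Pool.Agent.Work.MP_a77660_ag.Curve
section
/-!
The boundary component with many global functions.
-/

namespace Pool.Agent.Work.MP_a77660_ag

open MvPolynomial AlgebraicGeometry CategoryTheory Order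

set_option backward.isDefEq.respectTransparency false

section General

variable {K A : Type} [Field K] [CommRing A] [Algebra K A] (ℬ : ℕ → Submodule K A)
  [SetLike.GradedMonoid ℬ] (ev : A →ₐ[K] A)

/-- The image family. -/
def imG (j : ℕ) : Submodule K A := (ℬ j).map ev.toLinearMap

instance : SetLike.GradedMonoid (imG ℬ ev) where
  one_mem := ⟨1, SetLike.one_mem_graded ℬ, map_one ev⟩
  mul_mem _ _ _ _ := by
    rintro ⟨a, ha, rfl⟩ ⟨b, hb, rfl⟩
    exact ⟨a * b, SetLike.mul_mem_graded ha hb, map_mul ev a b⟩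

theorem mem_subR_imG (c : A) : c ∈ subR (imG ℬ ev) ↔ ∃ a ∈ subR ℬ, ev a = c := by
  simp only [mem_subR_iff, imG, ← Submodule.map_iSup]
  rfl

/-- The map onto the image. -/
noncomputable def imHom : SR ℬ →+* SR (imG ℬ ev) :=
  (ev.toRingHom.comp vS).codRestrict (subR (imG ℬ ev)) fun a =>
    (mem_subR_imG ℬ ev _).mpr ⟨_, a.2, rfl⟩

theorem vS_imHom (a : SR ℬ) : vS (imHom ℬ ev a) = ev (vS a) := rfl

theorem imHom_surjective : Function.Surjective (imHom ℬ ev) := by
  rintro ⟨c, hc⟩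
  obtain ⟨a, ha, rfl⟩ := (mem_subR_imG ℬ ev _).mp hc
  exact ⟨⟨a, ha⟩, rfl⟩

/-- The map onto the image as a graded map. -/
noncomputable def imGHom : SG ℬ →+*ᵍ SG (imG ℬ ev) where
  toRingHom := imHom ℬ ev
  map_mem := fun {_ a} ha => ⟨vS a, ha, rfl⟩

end General

/-- Setting the first variable to zero. -/
noncomputable def evL (n : ℕ) : AA n →ₐ[LL n] AA n := aeval ![0, X 1, X 2]

/-- Setting the first variable to zero. -/
noncomputable def evK (n : ℕ) : AA n →ₐ[KK n] AA n := (evL n).restrictScalars (KK n)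

variable {n : ℕ}

@[simp] theorem evK_X0 : evK n (X 0) = 0 := aeval_X _ 0
@[simp] theorem evK_X1 : evK n (X 1) = X 1 := aeval_X _ 1
@[simp] theorem evK_X2 : evK n (X 2) = X 2 := aeval_X _ 2
@[simp] theorem evK_C (l : LL n) : evK n (C l) = C l := (evL n).commutes l

theorem evK_mem {j : ℕ} {a : AA n} (ha : a ∈ AG n j) : evK n a ∈ AG n j := by
  induction ha using IsWeightedHomogeneous.induction_on with
  | zero => simp
  | add p q _ _ hp hq => rw [map_add]; exact add_mem hp hq
  | monomial d r hr =>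
    have h := isWeightedHomogeneous_monomial (ww n) d r hr
    rw [monomial_three] at h ⊢
    simp only [map_mul, map_pow, evK_X0, evK_X1, evK_X2, evK_C]
    rcases Nat.eq_zero_or_pos (d 0) with h0 | h0
    · rw [h0] at h ⊢
      simpa using h
    · rw [zero_pow h0.ne']
      simp

theorem evK_eq_zero_iff (a : AA n) : evK n a = 0 ↔ (X 0 : AA n) ∣ a := by
  constructor
  · intro h
    have : (X 0 : AA n) ∣ a - evK n a := by
      clear h
      induction a using MvPolynomial.induction_on with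
      | C l => simp
      | add p q hp hq =>
        rw [map_add, add_sub_add_comm]
        exact dvd_add hp hq
      | mul_X p i hp =>
        rw [map_mul]
        fin_cases i
        · simp
        · simpa [← sub_mul] using hp.mul_right _
        · simpa [← sub_mul] using hp.mul_right _
    rwa [h, sub_zero] at this
  · rintro ⟨b, rfl⟩
    simp

variable [hn : NeZero n]

instance : Fact (iSupIndep (imG (BB n) (evK n))) :=
  ⟨iSupIndep_of_le (mm_pos n) _ (by
    rintro j _ ⟨a, ha, rfl⟩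
    exact evK_mem ha.1)⟩

/-- The homogeneous coordinate ring of the curve. -/
abbrev RC (n : ℕ) [NeZero n] : Type := SR (imG (BB n) (evK n))

/-- The grading of the homogeneous coordinate ring of the curve. -/
noncomputable abbrev GC (n : ℕ) [NeZero n] : ℕ → Submodule (KK n) (RC n) :=
  SG (imG (BB n) (evK n))

/-- The curve. -/
noncomputable abbrev SS (n : ℕ) [NeZero n] : Scheme.{0} := Proj (GC n)

/-- The restriction map. -/
noncomputable def resC (n : ℕ) [NeZero n] : GB n →+*ᵍ GC n := imGHom (BB n) (evK n)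

theorem vS_resC (a : RB n) : vS (resC n a) = evK n (vS a) := rfl

theorem resC_surjective : Function.Surjective (resC n) := imHom_surjective _ _

/-- The embedding of the curve. -/
noncomputable def iota (n : ℕ) [NeZero n] : SS n ⟶ XX n :=
  Proj.map (resC n) (irrelevant_le_of_surjective _ resC_surjective)

instance : IsClosedImmersion (iota n) := isClosedImmersion_map _ resC_surjective

theorem iota_struct : iota n ≫ structMap (GB n) = structMap (GC n) :=
  map_structMap _ _ fun κ => vS_inj ((evK n).commutes κ)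

theorem mem_iota (y : SS n) (a : RB n) :
    a ∈ (iota n y).asHomogeneousIdeal ↔ resC n a ∈ y.asHomogeneousIdeal := Iff.rfl

theorem hposC : ∃ i, 0 < i ∧ ∃ a ∈ GC n i, a ≠ 0 :=
  ⟨1, one_pos, resC n (xB n 1), (resC n).map_mem (xB_mem 1), fun h => by
    have := congrArg vS h
    rw [vS_resC, map_zero, evK_eq_zero_iff] at this
    exact not_dvd_xB (by decide) this⟩

instance : IsIntegral (SS n) := isIntegral_proj hposC

theorem iota_generic : iota n (genericPoint (SS n)) = ptB n 0 := by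
  have h : ∀ j, ∀ a ∈ GB n j, a ∈ (iota n (genericPoint (SS n))).asHomogeneousIdeal ↔
      a ∈ (ptB n 0).asHomogeneousIdeal := by
    intro j a ha
    rw [mem_iota, genericPoint_ideal hposC, mem_ptB 0 ha, ← evK_eq_zero_iff, ← vS_resC,
      map_eq_zero_iff _ vS_inj]
    rfl
  exact point_ext (le_antisymm (homIdeal_le fun j a ha => (h j a ha).mp)
    (homIdeal_le fun j a ha => (h j a ha).mpr))

/-- The embedding of the coordinate ring of the curve in the big field. -/
noncomputable def jC (n : ℕ) [NeZero n] : RC n →+* EE n := (jA n).comp vS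

theorem jC_inj : Function.Injective (jC n) := (jA_inj n).comp vS_inj

theorem al_mem_range (i : Fin n) (y : SS n) :
    al n i.castSucc ∈ (rho (jC n) jC_inj y).range := by
  have hx := xv_ne_zero n 0
  have hy := xv_ne_zero n 1
  have hz := xv_ne_zero n 2
  have hC : ∀ i, jA n (C (alL n i)) = al n i := fun i => jA_C n _
  obtain ⟨d, hd⟩ : ∃ d, n = i + (d + 1) := ⟨n - i - 1, by have := i.2; omega⟩
  have key : ∀ (j : Fin 3) (a : AA n), resC n (xB n j) ∉ y.asHomogeneousIdeal →
      jA n a / jA n (X j ^ ex n j) ∈ FF n →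
      evK n a = C (alL n i.castSucc) * evK n (X j ^ ex n j) →
      al n i.castSucc ∈ (rho (jC n) jC_inj y).range := by
    intro j a h1 h2 h3
    have h4 := mem_RR_of_mul h2 (X_pow_mem j) (pow_ne_zero _ (X_ne_zero j)) rfl
    refine (mem_range_rho _ _ _ _).mpr ⟨1, resC n (mkB a h4), (resC n).map_mem (mkB_mem _ _),
      resC n (xB n j), (resC n).map_mem (xB_mem j), h1, ?_⟩
    rw [eq_div_iff (ne_zero_of_not_mem (jC n) jC_inj h1)]
    change _ * jA n (evK n (X j ^ ex n j)) = jA n (evK n a)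
    rw [h3, map_mul, hC]
  obtain ⟨j, hj⟩ := exists_xB_not_mem (iota n y)
  rw [mem_iota] at hj
  fin_cases j
  · exfalso
    apply hj
    have : resC n (xB n 0) = 0 := vS_inj (by
      rw [vS_resC, map_zero, evK_eq_zero_iff, coe_xB]
      exact dvd_pow_self _ (ex_pos 0).ne')
    change resC n (xB n 0) ∈ _
    rw [this]
    exact zero_mem _
  · obtain ⟨k, hk⟩ : ∃ k, ex n 1 = k + (d + 1) := ⟨mm n - (d + 1), by
      have := two_mul_le_mm n
      change mm n = _
      omega⟩
    refine key 1 (C (alL n i.castSucc) * X 1 ^ ex n 1 +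
      C (alL n (Fin.last n)) * X 0 ^ (d + 1) * X 1 ^ k) hj ?_ (by simp)
    have h1 : jA n (C (alL n i.castSucc) * X 1 ^ ex n 1 +
        C (alL n (Fin.last n)) * X 0 ^ (d + 1) * X 1 ^ k) / jA n (X 1 ^ ex n 1) =
        UU n i.castSucc + (ss n)⁻¹ ^ (d + 1) * UU n (Fin.last n) := by
      have h2 : (ss n)⁻¹ ^ (d + 1) * ss n ^ n = ss n ^ (i : ℕ) := by
        have := ss_ne_zero n
        rw [show ss n ^ n = ss n ^ (i : ℕ) * ss n ^ (d + 1) by rw [← pow_add, ← hd], inv_pow]
        field_simp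
      have h3 : UU n i.castSucc + (ss n)⁻¹ ^ (d + 1) * UU n (Fin.last n) =
          al n i.castSucc + (ss n)⁻¹ ^ (d + 1) * al n (Fin.last n) := by
        rw [UU, UU, Fin.val_last, Fin.val_castSucc, mul_add, ← mul_assoc, h2]
        linear_combination (ss n ^ (i : ℕ) * al n 0) * two_EE n
      rw [h3]
      simp only [map_add, map_mul, map_pow, hC, jA_X, hk]
      rw [ss, inv_div, div_pow, pow_add (xv n 1) k]
      field_simp
    rw [h1]
    exact add_mem (UU_mem n _) (mul_mem (pow_mem (inv_mem (ss_mem n)) _) (UU_mem n _))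
  · obtain ⟨k, hk⟩ : ∃ k, ex n 2 = k + 1 := ⟨ex n 2 - 1, by have := ex_pos (n := n) 2; omega⟩
    refine key 2 (C (alL n i.castSucc) * X 2 ^ ex n 2 +
      X 0 ^ (d + 1) * X 1 ^ (i : ℕ) * X 2 ^ k) hj ?_ (by simp)
    have h1 : jA n (C (alL n i.castSucc) * X 2 ^ ex n 2 +
        X 0 ^ (d + 1) * X 1 ^ (i : ℕ) * X 2 ^ k) / jA n (X 2 ^ ex n 2) =
        UU n i.castSucc + ss n ^ (i : ℕ) * ee n := by
      have h2 : xv n 0 ^ n = xv n 0 ^ (i : ℕ) * xv n 0 ^ (d + 1) := by rw [← pow_add, ← hd]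
      rw [UU, add_assoc, Fin.val_castSucc, ← mul_add, add_comm (al n 0), ee_add, h2]
      simp only [map_add, map_mul, map_pow, hC, jA_X, hk]
      rw [ss, div_pow]
      field_simp
      ring
    rw [h1]
    exact add_mem (UU_mem n _) (mul_mem (pow_mem (ss_mem n) _) (ee_mem n))

theorem le_steinDegree : n ≤ steinDegree (iota n ≫ structMap (GB n)) := by
  have hfin := finite_appTop_of_universallyClosed (KK n) (iota n ≫ structMap (GB n))
  rw [iota_struct] at hfin ⊢
  let _ : Algebra (KK n) Γ(SS n, ⊤) := (structSec (GC n)).toAlgebra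
  have hfin' : Module.Finite (KK n) Γ(SS n, ⊤) :=
    RingHom.finite_respectsIso.2 _ (Scheme.ΓSpecIso _).symm.commRingCatIsoToRingEquiv hfin
  choose σ hσ using fun i => exists_section (jC n) jC_inj _ (al_mem_range (n := n) i)
  let η := genericPoint (SS n)
  let ρ : Γ(SS n, ⊤) →+* EE n :=
    (rho (jC n) jC_inj η).comp ((SS n).presheaf.germ ⊤ η trivial).hom
  have hρ : ∀ i, ρ (σ i) = al n i.castSucc := fun i => hσ i η
  have hρK : ∀ κ : KK n, ρ (structSec (GC n) κ) = algebraMap (LL n) (EE n) κ := fun κ =>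
    (rho_structSec (jC n) jC_inj η κ).trans (jA_C n _)
  have hli : LinearIndependent (KK n) σ := by
    rw [Fintype.linearIndependent_iff]
    intro g hg
    have h1 := congrArg ρ hg
    rw [map_sum, map_zero] at h1
    have h2 : ∑ i, g i • alL n i.castSucc = 0 := by
      apply (algebraMap (LL n) (EE n)).injective
      rw [map_sum, map_zero, ← h1]
      refine Finset.sum_congr rfl fun i _ => ?_
      change algebraMap (LL n) (EE n) ((g i : LL n) * _) = ρ (structSec (GC n) (g i) * σ i)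
      rw [map_mul, map_mul, hρ, hρK]
      rfl
    exact Fintype.linearIndependent_iff.mp
      ((linInd_al n).comp Fin.castSucc (Fin.castSucc_injective n)) g h2
  have := hli.fintype_card_le_finrank
  rw [Fintype.card_fin] at this
  exact this

end Pool.Agent.Work.MP_a77660_ag
end
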