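import Mathlib
import Pool.Agent.Work.MP_a77660_ag.Defs

-- merged part: Pool.Agent.Work.MP_a77660_ag.Forms
section
/-!
Derivations, Jacobian determinants and valuations.
-/

namespace Pool.Agent.Work.MP_a77660_ag

open WithZero

section Exists

variable {F : Type} [Field F] [Algebra (ZMod 2) F] {ι : Type}

theorem exists_derivation (t : ι → F) (hind : AlgebraicIndependent (ZMod 2) t)
    (hgen : Subfield.closure (Set.range t) = ⊤) (v : ι → F) :
    ∃ D : Derivation ℤ F F, ∀ i, D (t i) = v i := by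
  let P := MvPolynomial ι (ZMod 2)
  let φ : P →+* F := (MvPolynomial.aeval t : P →ₐ[ZMod 2] F).toRingHom
  let _ : Algebra P F := φ.toAlgebra
  have hinj : Function.Injective (algebraMap P F) := hind
  have hrange : ∀ y ∈ Subring.closure (Set.range t), ∃ p : P, algebraMap P F p = y := by
    intro y hy
    have : Subring.closure (Set.range t) ≤ φ.range := by
      rw [Subring.closure_le]
      rintro _ ⟨i, rfl⟩
      exact ⟨MvPolynomial.X i, MvPolynomial.aeval_X t i⟩
    exact this hy
  have : FaithfulSMul P F := (faithfulSMul_iff_algebraMap_injective P F).mpr hinj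
  have : IsFractionRing P F := by
    refine IsFractionRing.of_field P F fun z => ?_
    have hz : z ∈ Subfield.closure (Set.range t) := hgen ▸ Subfield.mem_top z
    obtain ⟨a, ha, b, hb, rfl⟩ := Subfield.mem_closure_iff.mp hz
    obtain ⟨p, rfl⟩ := hrange a ha
    obtain ⟨q, rfl⟩ := hrange b hb
    exact ⟨p, q, rfl⟩
  let τ₀ : P →+* TrivSqZeroExt F F :=
    MvPolynomial.eval₂Hom ((TrivSqZeroExt.inlHom F F).comp (algebraMap (ZMod 2) F))
      (fun i => TrivSqZeroExt.inl (t i) + TrivSqZeroExt.inr (v i))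
  have h0 : (TrivSqZeroExt.fstHom F F F).toRingHom.comp τ₀ = algebraMap P F := by
    apply MvPolynomial.ringHom_ext
    · intro r
      simp [τ₀, RingHom.algebraMap_toAlgebra, φ]
    · intro i
      simp [τ₀, RingHom.algebraMap_toAlgebra, φ]
  have hunit : ∀ y : nonZeroDivisors P, IsUnit (τ₀ y) := by
    intro y
    rw [TrivSqZeroExt.isUnit_iff_isUnit_fst]
    have : (τ₀ y).fst = algebraMap P F y := congrArg (fun f : P →+* F => f y) h0
    rw [this]
    exact IsLocalization.map_units F y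
  let τ : F →+* TrivSqZeroExt F F := IsLocalization.lift (M := nonZeroDivisors P) hunit
  have h1 : (TrivSqZeroExt.fstHom F F F).toRingHom.comp τ = RingHom.id F := by
    apply IsLocalization.ringHom_ext (nonZeroDivisors P)
    rw [RingHom.comp_assoc, IsLocalization.lift_comp, h0, RingHom.id_comp]
  have h2 : ∀ a, (τ a).fst = a := fun a => congrArg (fun f : F →+* F => f a) h1
  let D₀ : F →+ F :=
    { toFun := fun a => (τ a).snd
      map_zero' := by simp
      map_add' := fun a b => by simp }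
  refine ⟨Derivation.mk' D₀.toIntLinearMap fun a b => ?_, fun i => ?_⟩
  · change (τ (a * b)).snd = a • (τ b).snd + b • (τ a).snd
    rw [map_mul, TrivSqZeroExt.snd_mul, h2, h2]
    simp [mul_comm]
  · change (τ (t i)).snd = v i
    have : t i = algebraMap P F (MvPolynomial.X i) := (MvPolynomial.aeval_X t i).symm
    rw [this, IsLocalization.lift_eq]
    simp only [τ₀, P, MvPolynomial.eval₂Hom_X']
    simp

end Exists

section Jac

variable {F : Type} [Field F] {r : ℕ}

/-- The gradient with respect to a family of derivations. -/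
def grad (δ : Fin r → Derivation ℤ F F) : Derivation ℤ F (Fin r → F) :=
  Derivation.mk' (LinearMap.pi fun j => (δ j : F →ₗ[ℤ] F)) fun a b => by
    ext j
    simp

@[simp] theorem grad_apply (δ : Fin r → Derivation ℤ F F) (a : F) (j : Fin r) :
    grad δ a j = δ j a := rfl

/-- The Jacobian determinant. -/
def jac (δ : Fin r → Derivation ℤ F F) (a : Fin r → F) : F :=
  (Matrix.of fun i j => δ j (a i)).det

theorem jac_eq (δ : Fin r → Derivation ℤ F F) (a : Fin r → F) :
    jac δ a = Matrix.detRowAlternating (fun i => grad δ (a i)) := rfl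

theorem exists_basis (t : Fin r → F) (δ : Fin r → Derivation ℤ F F)
    (hδ : ∀ i j, δ j (t i) = if i = j then 1 else 0)
    (hgen : Subfield.closure (Set.range t) = ⊤) :
    ∃ β : Module.Basis (Fin r) F Ω[F⁄ℤ],
      ∀ a : Fin r → F, β.det (fun i => KaehlerDifferential.D ℤ F (a i)) = jac δ a := by
  have hli : LinearIndependent F (fun i => KaehlerDifferential.D ℤ F (t i)) := by
    rw [Fintype.linearIndependent_iff]
    intro g hg j
    have := congrArg (δ j).liftKaehlerDifferential hg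
    simpa [map_sum, hδ] using this
  have hsp : ⊤ ≤ Submodule.span F (Set.range fun i => KaehlerDifferential.D ℤ F (t i)) := by
    rw [← KaehlerDifferential.span_range_derivation, Submodule.span_le]
    rintro _ ⟨a, rfl⟩
    have ha : a ∈ Subfield.closure (Set.range t) := hgen ▸ Subfield.mem_top a
    induction ha using Subfield.closure_induction with
    | mem x hx =>
      obtain ⟨i, rfl⟩ := hx
      exact Submodule.subset_span ⟨i, rfl⟩
    | one => simp
    | add x y _ _ hx hy => rw [map_add]; exact add_mem hx hy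
    | neg x _ hx => rw [map_neg]; exact neg_mem hx
    | inv x _ hx => rw [Derivation.leibniz_inv]; exact Submodule.smul_mem _ _ hx
    | mul x y _ _ hx hy =>
      rw [Derivation.leibniz]
      exact add_mem (Submodule.smul_mem _ _ hy) (Submodule.smul_mem _ _ hx)
  refine ⟨Module.Basis.mk hli hsp, fun a => ?_⟩
  have hcoord : ∀ j (ω : Ω[F⁄ℤ]), (Module.Basis.mk hli hsp).repr ω j =
      (δ j).liftKaehlerDifferential ω := by
    intro j ω
    have : (Module.Basis.mk hli hsp).coord j = (δ j).liftKaehlerDifferential := by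
      apply (Module.Basis.mk hli hsp).ext
      intro i
      rw [Module.Basis.coord_apply, Module.Basis.repr_self, Module.Basis.mk_apply,
        Derivation.liftKaehlerDifferential_comp_D, hδ, Finsupp.single_apply]
    rw [← this]; rfl
  rw [Module.Basis.det_apply, jac, ← Matrix.det_transpose]
  congr 1
  ext i j
  rw [Matrix.transpose_apply, Module.Basis.toMatrix_apply, hcoord,
    Derivation.liftKaehlerDifferential_comp_D, Matrix.of_apply]

/-- A determinant with a triangular pattern of zeros. -/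
theorem det_of_rank {ι : Type} [Fintype ι] [DecidableEq ι] (M : Matrix ι ι F) (ρ : ι → ℕ)
    (h : ∀ i j, M i j ≠ 0 → i = j ∨ ρ j < ρ i) : M.det = ∏ i, M i i := by
  rw [← Matrix.det_transpose, Matrix.det_apply, Finset.sum_eq_single 1]
  · simp
  · intro σ _ hσ
    have : ∃ i, M i (σ i) = 0 := by
      by_contra! hne
      have h1 : ∀ i, ρ (σ i) ≤ ρ i := fun i => by
        rcases h i (σ i) (hne i) with h2 | h2
        · rw [← h2]
        · exact h2.le
      obtain ⟨i, hi⟩ : ∃ i, σ i ≠ i := by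
        by_contra! h3
        exact hσ (Equiv.ext h3)
      have h4 : ρ (σ i) < ρ i := (h i (σ i) (hne i)).resolve_left hi.symm
      have h5 : ∑ i, ρ (σ i) < ∑ i, ρ i :=
        Finset.sum_lt_sum (fun i _ => h1 i) ⟨i, Finset.mem_univ _, h4⟩
      rw [Equiv.sum_comp σ ρ] at h5
      exact lt_irrefl _ h5
    obtain ⟨i, hi⟩ := this
    rw [Finset.prod_eq_zero (Finset.mem_univ i) (by simpa using hi), smul_zero]
  · simp

variable {Γ : Type} [LinearOrderedCommGroupWithZero Γ] (v : Valuation F Γ)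

theorem val_det_le {ι : Type} [Fintype ι] [DecidableEq ι] (M : Matrix ι ι F) (γ : ι → Γ)
    (h : ∀ i j, v (M i j) ≤ γ j) : v M.det ≤ ∏ j, γ j := by
  rw [Matrix.det_apply']
  refine v.map_sum_le fun σ _ => ?_
  rw [map_mul, map_prod]
  have h1 : v ((Equiv.Perm.sign σ : ℤ) : F) ≤ 1 := by
    rcases Int.units_eq_one_or (Equiv.Perm.sign σ) with h | h <;> simp [h]
  calc _ ≤ 1 * ∏ j, γ j := mul_le_mul' h1 (Finset.prod_le_prod' fun j _ => h _ _)
    _ = _ := one_mul _

theorem val_jac_le (δ : Fin r → Derivation ℤ F F) (t a : Fin r → F)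
    (h : ∀ i, grad δ (a i) ∈ Submodule.span v.integer (Set.range fun l => grad δ (t l))) :
    v (jac δ a) ≤ v (jac δ t) := by
  have h1 : ∀ i, ∃ c : Fin r → v.integer, ∑ l, c l • grad δ (t l) = grad δ (a i) := fun i =>
    (Submodule.mem_span_range_iff_exists_fun _).mp (h i)
  choose c hc using h1
  have h2 : (Matrix.of fun i j => δ j (a i)) =
      (Matrix.of fun i l => (c i l : F)) * (Matrix.of fun l j => δ j (t l)) := by
    ext i j
    have := congrFun (hc i) j
    simp only [Finset.sum_apply, Pi.smul_apply, grad_apply] at this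
    simp only [Matrix.of_apply, Matrix.mul_apply, ← this]
    rfl
  rw [jac, h2, Matrix.det_mul, map_mul]
  have h3 : v (Matrix.of fun i l => (c i l : F)).det ≤ 1 := by
    simpa using val_det_le v (Matrix.of fun i l => (c i l : F)) (fun _ => 1) fun i j => (c i j).2
  calc _ ≤ 1 * v (jac δ t) := mul_le_mul' h3 le_rfl
    _ = _ := one_mul _

/-- The integral elements whose derivative lies in a given submodule. -/
def derSubring {M : Type} [AddCommGroup M] [Module F M] (d : Derivation ℤ F M)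
    (N : Submodule v.integer M) : Subring F where
  carrier := {f | v f ≤ 1 ∧ d f ∈ N}
  mul_mem' := by
    rintro a b ⟨ha, ha'⟩ ⟨hb, hb'⟩
    refine ⟨by rw [map_mul]; exact mul_le_one' ha hb, ?_⟩
    rw [Derivation.leibniz]
    exact add_mem (N.smul_mem ⟨a, ha⟩ hb') (N.smul_mem ⟨b, hb⟩ ha')
  one_mem' := ⟨by simp, by simp⟩
  add_mem' := by
    rintro a b ⟨ha, ha'⟩ ⟨hb, hb'⟩
    exact ⟨v.map_add_le ha hb, by rw [map_add]; exact add_mem ha' hb'⟩
  zero_mem' := ⟨by simp, by simp⟩
  neg_mem' := by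
    rintro a ⟨ha, ha'⟩
    exact ⟨by simpa using ha, by rw [map_neg]; exact neg_mem ha'⟩

theorem mem_derSubring {M : Type} [AddCommGroup M] [Module F M] (d : Derivation ℤ F M)
    (N : Submodule v.integer M) (f : F) : f ∈ derSubring v d N ↔ v f ≤ 1 ∧ d f ∈ N := Iff.rfl

theorem inv_mem_derSubring {M : Type} [AddCommGroup M] [Module F M] (d : Derivation ℤ F M)
    (N : Submodule v.integer M) {f : F} (hf : f ∈ derSubring v d N) (h : v f⁻¹ ≤ 1) :
    f⁻¹ ∈ derSubring v d N := by
  refine ⟨h, ?_⟩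
  rw [Derivation.leibniz_inv]
  exact N.smul_mem (-(⟨f⁻¹, h⟩ : v.integer) ^ 2) hf.2

/-- The elements of valuation at most `γ`. -/
def leSub (γ : Γ) : Submodule v.integer F where
  carrier := {f | v f ≤ γ}
  add_mem' := fun ha hb => v.map_add_le ha hb
  zero_mem' := by simp
  smul_mem' := by
    rintro ⟨c, hc⟩ f hf
    change v (c * f) ≤ γ
    rw [map_mul]
    calc _ ≤ 1 * γ := mul_le_mul' hc hf
      _ = γ := one_mul _

end Jac

section Log

variable {F : Type} [Field F] {n : ℕ} (δ : Fin (n + 2) → Derivation ℤ F F) (rest : Fin n → F)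

/-- The Jacobian determinant as a function of the first two entries. -/
def br (p q : F) : F := jac δ (Matrix.vecCons p (Matrix.vecCons q rest))

/-- The determinant as a function of the first two rows. -/
noncomputable def bil : (Fin (n + 2) → F) →ₗ[F] (Fin (n + 2) → F) →ₗ[F] F :=
  LinearMap.mk₂ F (fun u w => ((Matrix.detRowAlternating.curryLeft u).curryLeft w)
      (fun i => grad δ (rest i)))
    (fun u u' w => by simp only [map_add, AlternatingMap.curryLeft_add, LinearMap.add_apply,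
      AlternatingMap.add_apply])
    (fun c u w => by simp only [map_smul, AlternatingMap.curryLeft_smul, LinearMap.smul_apply,
      AlternatingMap.smul_apply])
    (fun u w w' => by simp only [map_add, AlternatingMap.add_apply])
    (fun c u w => by simp only [map_smul, AlternatingMap.smul_apply])

theorem bil_self (u : Fin (n + 2) → F) : bil δ rest u u = 0 := by
  simp only [bil, LinearMap.mk₂_apply, AlternatingMap.curryLeft_same, AlternatingMap.zero_apply]

theorem br_eq (p q : F) : br δ rest p q = bil δ rest (grad δ p) (grad δ q) := by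
  simp only [br, jac_eq, bil, LinearMap.mk₂_apply, AlternatingMap.curryLeft_apply_apply]
  congr 1
  funext i
  refine Fin.cases rfl (fun i => ?_) i
  refine Fin.cases rfl (fun i => rfl) i

theorem exists_unit_mul_zpow (v : Valuation F ℤᵐ⁰) {π : F} (hπ : v π = exp (-1 : ℤ)) {f : F}
    (hf : f ≠ 0) : ∃ (u : F) (ν : ℤ), v u = 1 ∧ f = u * π ^ ν := by
  have hπ0 : π ≠ 0 := by
    rintro rfl
    rw [map_zero] at hπ
    exact exp_ne_zero hπ.symm
  have hv : v f ≠ 0 := (map_ne_zero v).mpr hf
  refine ⟨f * π ^ (log (v f)), -log (v f), ?_, ?_⟩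
  · rw [map_mul, map_zpow₀, hπ, ← exp_zsmul]
    nth_rewrite 1 [← exp_log hv]
    rw [← exp_add]
    simp
  · rw [mul_assoc, ← zpow_add₀ hπ0]
    simp

theorem log_lemma (v : Valuation F ℤᵐ⁰) {π : F} (hπ : v π = exp (-1 : ℤ)) {f g : F}
    (hf : f ≠ 0) (hg : g ≠ 0) :
    ∃ p q : F, v p ≤ 1 ∧ v q ≤ 1 ∧
      v (π * (br δ rest f g / (f * g))) ≤ v (br δ rest p q) := by
  have hπ0 : π ≠ 0 := by
    rintro rfl
    rw [map_zero] at hπ
    exact exp_ne_zero hπ.symm
  have hπ1 : v π ≤ 1 := by rw [hπ, ← exp_zero, exp_le_exp]; norm_num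
  obtain ⟨u, μ, hu, rfl⟩ := exists_unit_mul_zpow v hπ hf
  obtain ⟨w, ν, hw, rfl⟩ := exists_unit_mul_zpow v hπ hg
  have hu0 : u ≠ 0 := by rintro rfl; simp at hu
  have hw0 : w ≠ 0 := by rintro rfl; simp at hw
  have key : π * (br δ rest (u * π ^ μ) (w * π ^ ν) / (u * π ^ μ * (w * π ^ ν))) =
      π / (u * w) * br δ rest u w + (ν : F) / u * br δ rest u π + (μ : F) / w * br δ rest π w := by
    have hz : ∀ z : ℤ, grad δ (π ^ z) = ((z : F) * (π ^ z * π⁻¹)) • grad δ π := fun z => by
      rw [Derivation.leibniz_zpow, zpow_sub_one₀ hπ0, mul_smul (z : F), Int.cast_smul_eq_zsmul]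
    simp only [br_eq, Derivation.leibniz, hz, map_add, map_smul,
      LinearMap.add_apply, LinearMap.smul_apply, bil_self, smul_eq_mul]
    have h1 : π ^ μ ≠ 0 := zpow_ne_zero _ hπ0
    have h2 : π ^ ν ≠ 0 := zpow_ne_zero _ hπ0
    field_simp
    ring
  rw [key]
  have hint : ∀ z : ℤ, v (z : F) ≤ 1 := fun z => (z : v.integer).2.trans_eq' (by simp)
  have b1 : v (π / (u * w) * br δ rest u w) ≤ v (br δ rest u w) := by
    rw [map_mul, map_div₀, map_mul, hu, hw, one_mul, div_one]
    exact mul_le_of_le_one_left' hπ1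
  have b2 : v ((ν : F) / u * br δ rest u π) ≤ v (br δ rest u π) := by
    rw [map_mul, map_div₀, hu, div_one]
    exact mul_le_of_le_one_left' (hint ν)
  have b3 : v ((μ : F) / w * br δ rest π w) ≤ v (br δ rest π w) := by
    rw [map_mul, map_div₀, hw, div_one]
    exact mul_le_of_le_one_left' (hint μ)
  rcases v.map_add' (π / (u * w) * br δ rest u w + (ν : F) / u * br δ rest u π)
    ((μ : F) / w * br δ rest π w) with h | h
  · rcases v.map_add' (π / (u * w) * br δ rest u w) ((ν : F) / u * br δ rest u π) with h' | h'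
    · exact ⟨u, w, hu.le, hw.le, h.trans (h'.trans b1)⟩
    · exact ⟨u, π, hu.le, hπ1, h.trans (h'.trans b2)⟩
  · exact ⟨π, w, hπ1, hw.le, h.trans b3⟩

end Log

end Pool.Agent.Work.MP_a77660_ag
end

-- merged part: Pool.Agent.Work.MP_a77660_ag.Field1
section
/-!
The fields of the example.
-/

namespace Pool.Agent.Work.MP_a77660_ag

open MvPolynomial

/-- Polynomials in the square roots. -/
abbrev P0 (n : ℕ) : Type := MvPolynomial (Fin (n + 1)) (ZMod 2)
/-- The purely inseparable extension `L` of the base field. -/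
def LL (n : ℕ) : Type := FractionRing (P0 n)

variable (n : ℕ)

noncomputable instance : Field (LL n) := inferInstanceAs (Field (FractionRing (P0 n)))
noncomputable instance : Algebra (P0 n) (LL n) :=
  inferInstanceAs (Algebra (P0 n) (FractionRing (P0 n)))
instance : IsFractionRing (P0 n) (LL n) :=
  inferInstanceAs (IsFractionRing (P0 n) (FractionRing (P0 n)))
instance : CharP (LL n) 2 := inferInstanceAs (CharP (FractionRing (P0 n)) 2)
noncomputable instance : Algebra (ZMod 2) (LL n) := ZMod.algebra _ 2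
instance : IsScalarTower (ZMod 2) (P0 n) (LL n) :=
  IsScalarTower.of_algebraMap_eq' (RingHom.ext_zmod _ _)

/-- The polynomial ring `L[x, y, z]`. -/
abbrev AA (n : ℕ) : Type := MvPolynomial (Fin 3) (LL n)
/-- The fraction field of `L[x, y, z]`. -/
def EE (n : ℕ) : Type := FractionRing (AA n)

noncomputable instance : Field (EE n) := inferInstanceAs (Field (FractionRing (AA n)))
noncomputable instance : Algebra (AA n) (EE n) :=
  inferInstanceAs (Algebra (AA n) (FractionRing (AA n)))
instance : IsFractionRing (AA n) (EE n) :=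
  inferInstanceAs (IsFractionRing (AA n) (FractionRing (AA n)))
instance : CharP (EE n) 2 := inferInstanceAs (CharP (FractionRing (AA n)) 2)
noncomputable instance : Algebra (ZMod 2) (EE n) := ZMod.algebra _ 2
noncomputable instance : Algebra (LL n) (EE n) :=
  ((algebraMap (AA n) (EE n)).comp (algebraMap (LL n) (AA n))).toAlgebra
instance : IsScalarTower (LL n) (AA n) (EE n) := IsScalarTower.of_algebraMap_eq' rfl
instance : IsScalarTower (ZMod 2) (LL n) (EE n) :=
  IsScalarTower.of_algebraMap_eq' (RingHom.ext_zmod _ _)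

/-- The base field: the squares in `L`. -/
noncomputable def KK : Subfield (LL n) := (frobenius (LL n) 2).fieldRange

/-- The variables of `L`. -/
noncomputable def alL (i : Fin (n + 1)) : LL n := algebraMap (P0 n) (LL n) (X i)

/-- The variables of `L` in the big field. -/
noncomputable def al (i : Fin (n + 1)) : EE n := algebraMap (LL n) (EE n) (alL n i)

/-- The variables `x, y, z` in the big field. -/
noncomputable def xv (j : Fin 3) : EE n := algebraMap (AA n) (EE n) (X j)

theorem two_EE : (2 : EE n) = 0 := CharTwo.two_eq_zero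

theorem algebraMap_LL (l : LL n) : algebraMap (LL n) (EE n) l = algebraMap (AA n) (EE n) (C l) :=
  IsScalarTower.algebraMap_apply (LL n) (AA n) (EE n) l

theorem xv_ne_zero (j : Fin 3) : xv n j ≠ 0 := by
  rw [xv, map_ne_zero_iff _ (IsFractionRing.injective (AA n) (EE n))]
  exact X_ne_zero j

theorem alL_ne_zero (i : Fin (n + 1)) : alL n i ≠ 0 := by
  rw [alL, map_ne_zero_iff _ (IsFractionRing.injective (P0 n) (LL n))]
  exact X_ne_zero i

theorem al_ne_zero (i : Fin (n + 1)) : al n i ≠ 0 := by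
  rw [al, map_ne_zero]
  exact alL_ne_zero n i

theorem algInd_gens : AlgebraicIndependent (ZMod 2) (Sum.elim (xv n) (al n)) := by
  have h1 : AlgebraicIndependent (ZMod 2) (alL n) :=
    (algebraicIndependent_X (Fin (n + 1)) (ZMod 2)).map'
      (f := IsScalarTower.toAlgHom (ZMod 2) (P0 n) (LL n)) (IsFractionRing.injective _ _)
  have h2 : AlgebraicIndependent (LL n) (xv n) :=
    (algebraicIndependent_X (Fin 3) (LL n)).map'
      (f := IsScalarTower.toAlgHom (LL n) (AA n) (EE n)) (IsFractionRing.injective _ _)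
  exact h1.sumElim_comp h2

theorem poly_mem_of_subring {S : Type} [CommRing S] (φ : P0 n →+* S) (T : Subring S)
    (h : ∀ i, φ (X i) ∈ T) (p : P0 n) : φ p ∈ T := by
  induction p using MvPolynomial.induction_on with
  | C r =>
    obtain ⟨k, rfl⟩ := ZMod.natCast_zmod_surjective r
    rw [map_natCast, map_natCast]
    exact natCast_mem T k
  | add p q hp hq => rw [map_add]; exact add_mem hp hq
  | mul_X p i hp => rw [map_mul]; exact mul_mem hp (h i)

theorem mem_of_subfield_LL {S : Type} [Field S] (φ : LL n →+* S) (T : Subfield S)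
    (h : ∀ i, φ (alL n i) ∈ T) (l : LL n) : φ l ∈ T := by
  obtain ⟨p, q, -, rfl⟩ := IsFractionRing.div_surjective (A := P0 n) l
  rw [map_div₀]
  exact div_mem (poly_mem_of_subring n (φ.comp (algebraMap _ _)) T.toSubring h p)
    (poly_mem_of_subring n (φ.comp (algebraMap _ _)) T.toSubring h q)

theorem mem_of_subfield_EE (T : Subfield (EE n)) (h : ∀ i, al n i ∈ T) (h' : ∀ j, xv n j ∈ T)
    (g : EE n) : g ∈ T := by
  have h1 : ∀ a : AA n, algebraMap (AA n) (EE n) a ∈ T := by
    intro a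
    induction a using MvPolynomial.induction_on with
    | C l =>
      rw [← algebraMap_LL]
      exact mem_of_subfield_LL n _ T h l
    | add p q hp hq => rw [map_add]; exact add_mem hp hq
    | mul_X p i hp => rw [map_mul]; exact mul_mem hp (h' i)
  obtain ⟨p, q, -, rfl⟩ := IsFractionRing.div_surjective (A := AA n) g
  exact div_mem (h1 p) (h1 q)

theorem exists_der (vX : Fin 3 → EE n) (vα : Fin (n + 1) → EE n) :
    ∃ D : Derivation ℤ (EE n) (EE n), (∀ j, D (xv n j) = vX j) ∧ ∀ i, D (al n i) = vα i := by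
  obtain ⟨D, hD⟩ := exists_derivation _ (algInd_gens n) (by
    rw [eq_top_iff]
    intro g _
    exact mem_of_subfield_EE n _
      (fun i => Subfield.subset_closure (Set.mem_range_self (f := Sum.elim (xv n) (al n)) (.inr i)))
      (fun j => Subfield.subset_closure (Set.mem_range_self (f := Sum.elim (xv n) (al n)) (.inl j)))
      g) (Sum.elim vX vα)
  exact ⟨D, fun j => hD (Sum.inl j), fun i => hD (Sum.inr i)⟩

theorem mem_KK {l : LL n} : l ∈ KK n ↔ ∃ l' : LL n, l' ^ 2 = l := by
  simp [KK, frobenius_def]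

theorem sq_mem_KK (l : LL n) : l ^ 2 ∈ KK n := (mem_KK n).mpr ⟨l, rfl⟩

theorem der_sq {F M : Type} [Field F] [CharP F 2] [AddCommGroup M] [Module F M]
    (D : Derivation ℤ F M) (a : F) : D (a ^ 2) = 0 := by
  rw [sq, Derivation.leibniz, ← add_smul, CharTwo.add_self_eq_zero, zero_smul]

theorem der_KK (D : Derivation ℤ (EE n) (EE n)) {l : LL n} (hl : l ∈ KK n) :
    D (algebraMap (LL n) (EE n) l) = 0 := by
  obtain ⟨l', rfl⟩ := (mem_KK n).mp hl
  rw [map_pow, der_sq]

/-- chain rule -/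
theorem der_poly (D : Derivation ℤ (EE n) (EE n)) (p : P0 n) :
    D (algebraMap (LL n) (EE n) (algebraMap (P0 n) (LL n) p)) =
      ∑ i, algebraMap (LL n) (EE n) (algebraMap (P0 n) (LL n) (pderiv i p)) * D (al n i) := by
  induction p using MvPolynomial.induction_on with
  | C r =>
    obtain ⟨k, rfl⟩ := ZMod.natCast_zmod_surjective r
    simp only [map_natCast, Derivation.map_natCast, map_zero, zero_mul, Finset.sum_const_zero]
  | add p q hp hq => simp only [map_add, hp, hq, add_mul, Finset.sum_add_distrib]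
  | mul_X p i hp =>
    simp only [map_mul, Derivation.leibniz, hp, smul_eq_mul, map_add, add_mul,
      Finset.sum_add_distrib, Finset.mul_sum, pderiv_X]
    congr 1
    · rw [Finset.sum_eq_single i]
      · simp [al, alL]
      · intro j _ hj
        simp [hj.symm]
      · simp
    · refine Finset.sum_congr rfl fun j _ => ?_
      ring

theorem exists_sq_of_pderiv {σ : Type} [DecidableEq σ] (p : MvPolynomial σ (ZMod 2))
    (h : ∀ i, pderiv i p = 0) : ∃ q : MvPolynomial σ (ZMod 2), q ^ 2 = p := by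
  have hev : ∀ d ∈ p.support, ∀ i, 2 ∣ d i := by
    intro d hd i
    by_contra hodd
    have h1 : d i ≠ 0 := by
      intro h0
      exact hodd (h0 ▸ dvd_zero 2)
    have h2 := congrArg (coeff (d - Finsupp.single i 1)) (h i)
    rw [coeff_pderiv, coeff_zero] at h2
    have h3 : d - Finsupp.single i 1 + Finsupp.single i 1 = d := by
      apply tsub_add_cancel_of_le
      rw [Finsupp.single_le_iff]
      omega
    rw [h3] at h2
    rcases mul_eq_zero.mp h2 with h4 | h4
    · exact (mem_support_iff.mp hd) h4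
    · have h5 : (((d - Finsupp.single i 1 : σ →₀ ℕ) i + 1 : ℕ) : ZMod 2) = 0 := by
        exact_mod_cast h4
      rw [ZMod.natCast_eq_zero_iff] at h5
      have h6 : (d - Finsupp.single i 1 : σ →₀ ℕ) i + 1 = d i := by
        simp only [Finsupp.coe_tsub, Pi.sub_apply, Finsupp.single_eq_same]
        omega
      exact hodd (h6 ▸ h5)
  refine ⟨∑ d ∈ p.support, monomial (d.mapRange (· / 2) (by simp)) (coeff d p), ?_⟩
  rw [sum_pow_char 2]
  conv_rhs => rw [p.as_sum]
  refine Finset.sum_congr rfl fun d hd => ?_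
  rw [monomial_pow, ZMod.pow_card]
  congr 2
  ext i
  simp only [Finsupp.coe_smul, Pi.smul_apply, Finsupp.mapRange_apply, smul_eq_mul]
  exact Nat.mul_div_cancel' (hev d hd i)

/-- The ratio `y / x` is transcendental over `L`. -/
theorem coeff_eq_zero_of_sum {m : ℕ} (c : Fin (m + 1) → LL n)
    (h : ∑ i, algebraMap (LL n) (EE n) (c i) * (xv n 1 / xv n 0) ^ (i : ℕ) = 0) (i : Fin (m + 1)) :
    c i = 0 := by
  have hx := xv_ne_zero n 0
  have h1 : (∑ i : Fin (m + 1), C (c i) * (X 0 ^ (m - i) * X 1 ^ (i : ℕ)) : AA n) = 0 := by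
    apply IsFractionRing.injective (AA n) (EE n)
    rw [map_zero, ← mul_zero (xv n 0 ^ m), ← h, map_sum, Finset.mul_sum]
    refine Finset.sum_congr rfl fun i _ => ?_
    have hi : (i : ℕ) ≤ m := Nat.lt_succ_iff.mp i.2
    rw [map_mul, map_mul, map_pow, map_pow, ← algebraMap_LL]
    change _ * (xv n 0 ^ _ * xv n 1 ^ _) = _
    rw [pow_sub₀ _ hx hi, div_pow]
    field_simp
  have h2 := congrArg (aeval (R := LL n) ![(1 : Polynomial (LL n)), Polynomial.X, 0]) h1
  simp only [map_sum, map_mul, map_pow, aeval_C, aeval_X, map_zero] at h2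
  have h3 := congrArg (fun q => Polynomial.coeff q i) h2
  simp only [Polynomial.finsetSum_coeff, Matrix.cons_val_zero, Matrix.cons_val_one, one_pow,
    one_mul, Polynomial.algebraMap_apply, Algebra.algebraMap_self, RingHom.id_apply,
    Polynomial.coeff_C_mul_X_pow, Polynomial.coeff_zero] at h3
  rw [Finset.sum_eq_single i] at h3
  · simpa using h3
  · intro j _ hj
    rw [if_neg]
    exact fun h => hj (Fin.ext h.symm)
  · simp

theorem mem_KK_of_der (D : Derivation ℤ (EE n) (EE n))
    (hD : ∀ i, D (al n i) = (xv n 1 / xv n 0) ^ (i : ℕ)) {l : LL n}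
    (hl : D (algebraMap (LL n) (EE n) l) = 0) : l ∈ KK n := by
  obtain ⟨p, q, hq, rfl⟩ := IsFractionRing.div_surjective (A := P0 n) l
  have hq0 : algebraMap (P0 n) (LL n) q ≠ 0 :=
    (map_ne_zero_iff _ (IsFractionRing.injective _ _)).mpr (nonZeroDivisors.ne_zero hq)
  have h1 : algebraMap (P0 n) (LL n) (p * q) = algebraMap (P0 n) (LL n) p /
      algebraMap (P0 n) (LL n) q * (algebraMap (P0 n) (LL n) q) ^ 2 := by
    rw [map_mul]; field_simp
  have h2 : D (algebraMap (LL n) (EE n) (algebraMap (P0 n) (LL n) (p * q))) = 0 := by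
    rw [h1, map_mul, Derivation.leibniz, hl, map_pow, der_sq]
    simp
  rw [der_poly] at h2
  simp only [hD] at h2
  have h3 : ∀ i, pderiv i (p * q) = 0 := fun i =>
    IsFractionRing.injective (P0 n) (LL n) (by
      rw [map_zero]; exact coeff_eq_zero_of_sum n _ h2 i)
  obtain ⟨g, hg⟩ := exists_sq_of_pderiv _ h3
  refine (mem_KK n).mpr ⟨algebraMap (P0 n) (LL n) g / algebraMap (P0 n) (LL n) q, ?_⟩
  rw [div_pow, ← map_pow, hg, map_mul]
  field_simp

end Pool.Agent.Work.MP_a77660_ag
end

-- merged part: Pool.Agent.Work.MP_a77660_ag.ProjGen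
section
/-!
General facts on `Proj` of a graded algebra over a field.
-/

namespace Pool.Agent.Work.MP_a77660_ag

open AlgebraicGeometry CategoryTheory HomogeneousLocalization TopologicalSpace

set_option backward.isDefEq.respectTransparency false

theorem topIso_inv_appTop (X : Scheme.{0}) : X.topIso.inv.appTop =
    X.presheaf.map (homOfLE (show (⊤ : X.Opens) ≤ (⊤ : X.Opens).ι ''ᵁ ⊤ by simp)).op := by
  have h2 := congrArg Scheme.Hom.appTop (Scheme.toIso_inv_ι X)
  rw [Scheme.Hom.comp_appTop, Scheme.Opens.ι_appTop, Scheme.Hom.id_appTop] at h2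
  have h3 : X.presheaf.map (homOfLE (show (⊤ : X.Opens) ≤ (⊤ : X.Opens).ι ''ᵁ ⊤ by simp)).op ≫
      X.presheaf.map (homOfLE (show (⊤ : X.Opens).ι ''ᵁ ⊤ ≤ (⊤ : X.Opens) by simp)).op = 𝟙 _ := by
    rw [← Functor.map_comp, ← X.presheaf.map_id]
    rfl
  rw [← Category.id_comp (X.topIso.inv.appTop)]
  erw [← h3]
  rw [Category.assoc]
  erw [h2]
  simp

section Basic

variable {K R : Type} [Field K] [CommRing R] [Algebra K R] (𝒜 : ℕ → Submodule K R)
  [GradedAlgebra 𝒜]

/-- The structure morphism of `Proj`. -/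
noncomputable def structMap : Proj 𝒜 ⟶ Spec (CommRingCat.of K) :=
  Proj.toSpecZero 𝒜 ≫ Spec.map (CommRingCat.ofHom (algebraMap K (𝒜 0)))

/-- The ring map from `K` to the global sections. -/
noncomputable def structSec : K →+* Γ(Proj 𝒜, ⊤) :=
  ((Scheme.ΓSpecIso (CommRingCat.of K)).inv ≫ (structMap 𝒜).appTop).hom

theorem structSec_val (κ : K) (x : Proj 𝒜) :
    ((structSec 𝒜 κ).1 ⟨x, trivial⟩).val = algebraMap R _ (algebraMap K R κ) := by
  have h : (Scheme.ΓSpecIso (CommRingCat.of K)).inv ≫ (structMap 𝒜).appTop =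
      CommRingCat.ofHom (algebraMap K (𝒜 0)) ≫ CommRingCat.ofHom (fromZeroRingHom 𝒜 _) ≫
        Proj.awayToSection 𝒜 1 ≫
          (Proj 𝒜).presheaf.map (homOfLE (Proj.basicOpen_one 𝒜).ge).op := by
    simp only [structMap, Proj.toSpecZero, Scheme.Hom.comp_appTop, Category.assoc]
    rw [← Scheme.ΓSpecIso_inv_naturality_assoc, ← Scheme.ΓSpecIso_inv_naturality_assoc]
    congr 2
    rw [Scheme.Hom.appTop, Proj.basicOpenToSpec_app_top]
    simp only [Category.assoc, Iso.inv_hom_id_assoc]
    congr 1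
    rw [topIso_inv_appTop]
    simp only [Scheme.isoOfEq_inv, Scheme.Opens.topIso_inv,
      Scheme.homOfLE_appTop, ← Functor.map_comp]
    rfl
  rw [structSec, h]
  simp only [CommRingCat.hom_comp, RingHom.comp_apply, CommRingCat.hom_ofHom]
  erw [ProjectiveSpectrum.Proj.awayToSection_apply]
  change (IsLocalization.map _ (RingHom.id R) _) (Localization.mk (algebraMap K R κ) 1) = _
  rw [Localization.mk_one_eq_algebraMap, IsLocalization.map_eq]
  rfl

variable {𝒜}

theorem specializes_iff (x y : Proj 𝒜) :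
    x ⤳ y ↔ x.asHomogeneousIdeal ≤ y.asHomogeneousIdeal := by
  rw [specializes_iff_mem_closure]
  exact (ProjectiveSpectrum.le_iff_mem_closure 𝒜 x y).symm

theorem le_iff (x y : Proj 𝒜) :
    x ≤ y ↔ y.asHomogeneousIdeal ≤ x.asHomogeneousIdeal := by
  rw [Scheme.le_iff_specializes, specializes_iff]

theorem lt_iff (x y : Proj 𝒜) :
    x < y ↔ y.asHomogeneousIdeal < x.asHomogeneousIdeal := by
  rw [lt_iff_le_not_ge, lt_iff_le_not_ge, le_iff, le_iff]

theorem point_ext {x y : Proj 𝒜} (h : x.asHomogeneousIdeal = y.asHomogeneousIdeal) : x = y :=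
  ProjectiveSpectrum.ext h

theorem homIdeal_le {I J : HomogeneousIdeal 𝒜}
    (h : ∀ i, ∀ a ∈ 𝒜 i, a ∈ I → a ∈ J) : I ≤ J := by
  classical
  intro a ha
  rw [← DirectSum.sum_support_decompose 𝒜 a]
  refine Ideal.sum_mem J.toIdeal fun i _ => ?_
  exact h i _ (DirectSum.decompose 𝒜 a i).2 (I.isHomogeneous i ha)

theorem exists_pos_not_mem (x : Proj 𝒜) :
    ∃ i, 0 < i ∧ ∃ a ∈ 𝒜 i, a ∉ x.asHomogeneousIdeal := by
  by_contra! h
  refine x.not_irrelevant_le (homIdeal_le fun i a ha hai => ?_)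
  rcases Nat.eq_zero_or_pos i with rfl | hi
  · have : a = 0 := by
      rw [HomogeneousIdeal.mem_irrelevant_iff] at hai
      rw [GradedRing.proj_apply, DirectSum.decompose_of_mem_same 𝒜 ha] at hai
      exact hai
    rw [this]; exact zero_mem _
  · exact h i hi a ha

/-- The point of `Proj` given by the homogeneous part of a prime ideal. -/
noncomputable def corePoint (P : Ideal R) [hP : P.IsPrime]
    (h : ∃ i, 0 < i ∧ ∃ a ∈ 𝒜 i, a ∉ P) : Proj 𝒜 :=
  (⟨P.homogeneousCore 𝒜, hP.homogeneousCore, fun hle => by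
    obtain ⟨i, hi, a, ha, haP⟩ := h
    refine haP (Ideal.toIdeal_homogeneousCore_le 𝒜 P (hle ?_))
    rw [HomogeneousIdeal.mem_irrelevant_iff, GradedRing.proj_apply,
      DirectSum.decompose_of_mem_ne 𝒜 ha hi.ne']⟩ : ProjectiveSpectrum 𝒜)

theorem mem_corePoint (P : Ideal R) [hP : P.IsPrime]
    (h : ∃ i, 0 < i ∧ ∃ a ∈ 𝒜 i, a ∉ P) {i : ℕ} {a : R} (ha : a ∈ 𝒜 i) :
    a ∈ (corePoint P h).asHomogeneousIdeal ↔ a ∈ P :=
  ⟨fun h' => Ideal.toIdeal_homogeneousCore_le 𝒜 P h',
    fun h' => Ideal.mem_homogeneousCore_of_homogeneous_of_mem ⟨i, ha⟩ h'⟩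

end Basic

section Map

variable {K R S : Type} [Field K] [CommRing R] [Algebra K R] [CommRing S] [Algebra K S]
  {𝒜 : ℕ → Submodule K R} [GradedAlgebra 𝒜] {ℬ : ℕ → Submodule K S} [GradedAlgebra ℬ]
  (φ : 𝒜 →+*ᵍ ℬ)

theorem exists_mem_of_surjective (hφ : Function.Surjective φ) {i : ℕ} {b : S} (hb : b ∈ ℬ i) :
    ∃ a ∈ 𝒜 i, φ a = b := by
  obtain ⟨a, rfl⟩ := hφ b
  refine ⟨DirectSum.decompose 𝒜 a i, (DirectSum.decompose 𝒜 a i).2, ?_⟩
  rw [GradedRingHom.map_directSumDecompose, DirectSum.decompose_of_mem_same ℬ hb]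

theorem irrelevant_le_of_surjective (hφ : Function.Surjective φ) :
    HomogeneousIdeal.irrelevant ℬ ≤ (HomogeneousIdeal.irrelevant 𝒜).map φ := by
  refine homIdeal_le fun i b hb hbi => ?_
  rcases Nat.eq_zero_or_pos i with rfl | hi
  · have : b = 0 := by
      rw [HomogeneousIdeal.mem_irrelevant_iff] at hbi
      rw [GradedRing.proj_apply, DirectSum.decompose_of_mem_same ℬ hb] at hbi
      exact hbi
    rw [this]; exact zero_mem _
  · obtain ⟨a, ha, rfl⟩ := exists_mem_of_surjective φ hφ hb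
    refine Ideal.mem_map_of_mem _ ?_
    change a ∈ HomogeneousIdeal.irrelevant 𝒜
    rw [HomogeneousIdeal.mem_irrelevant_iff, GradedRing.proj_apply,
      DirectSum.decompose_of_mem_ne 𝒜 ha hi.ne']

theorem map_structMap (hf) (hK : ∀ κ : K, φ (algebraMap K R κ) = algebraMap K S κ) :
    Proj.map φ hf ≫ structMap 𝒜 = structMap ℬ := by
  apply ext_to_Spec
  ext κ
  change (Proj.map φ hf).appTop (structSec 𝒜 κ) = structSec ℬ κ
  refine Subtype.ext (funext fun x => ?_)
  obtain ⟨x, hx⟩ := x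
  apply HomogeneousLocalization.val_injective
  rw [structSec_val ℬ κ x]
  change (HomogeneousLocalization.localRingHom φ _ x.asHomogeneousIdeal.toIdeal rfl
    ((structSec 𝒜 κ).1 ⟨ProjectiveSpectrum.comap φ hf x, trivial⟩)).val = _
  rw [val_localRingHom]
  erw [structSec_val 𝒜 κ (ProjectiveSpectrum.comap φ hf x)]
  erw [Localization.localRingHom_to_map]
  rw [← hK]
  rfl

theorem isClosedImmersion_map (hφ : Function.Surjective φ) :
    IsClosedImmersion (Proj.map φ (irrelevant_le_of_surjective φ hφ)) := by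
  set hf := irrelevant_le_of_surjective φ hφ
  refine IsZariskiLocalAtTarget.of_iSup_eq_top (P := @IsClosedImmersion)
    (ι := Σ i : {n : ℕ // 0 < n}, 𝒜 i.1) (fun s => Proj.basicOpen 𝒜 s.2.1) ?_ ?_
  · refine top_le_iff.mp fun x _ => ?_
    obtain ⟨i, hi, a, ha, hax⟩ := exists_pos_not_mem x
    exact Opens.mem_iSup.mpr ⟨⟨⟨i, hi⟩, ⟨a, ha⟩⟩, hax⟩
  · rintro ⟨⟨i, hi⟩, ⟨s, hs⟩⟩
    have h := Proj.awayι_comp_map φ hf hi s hs
    have h2 : (Proj.map φ hf ∣_ Proj.basicOpen 𝒜 s) =
        (Proj.basicOpenIsoSpec ℬ (φ s) (φ.2 hs) hi).hom ≫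
          Spec.map (CommRingCat.ofHom (Away.map φ s)) ≫ (Proj.basicOpenIsoSpec 𝒜 s hs hi).inv := by
      rw [← cancel_mono (Proj.basicOpen 𝒜 s).ι, morphismRestrict_ι, Category.assoc,
        Category.assoc, Proj.basicOpenIsoSpec_inv_ι, ← h, Proj.awayι]
      simp
    have h3 : IsClosedImmersion (Spec.map (CommRingCat.ofHom (Away.map φ s))) := by
      apply IsClosedImmersion.spec_of_surjective
      intro y
      obtain ⟨n, b, hb, rfl⟩ := Away.mk_surjective ℬ (φ.2 hs) y
      obtain ⟨a, ha, rfl⟩ := exists_mem_of_surjective φ hφ hb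
      exact ⟨Away.mk 𝒜 hs n a ha, Away.map_mk φ s hs n a ha⟩
    change IsClosedImmersion (Proj.map φ hf ∣_ Proj.basicOpen 𝒜 s)
    rw [h2]
    infer_instance

end Map

end Pool.Agent.Work.MP_a77660_ag
end

-- merged part: Pool.Agent.Work.MP_a77660_ag.ProjDom
section
/-!
`Proj` of a graded domain embedded in a field.
-/

namespace Pool.Agent.Work.MP_a77660_ag

open AlgebraicGeometry CategoryTheory HomogeneousLocalization TopologicalSpace

set_option backward.isDefEq.respectTransparency false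

variable {K R E : Type} [Field K] [CommRing R] [Algebra K R] {𝒜 : ℕ → Submodule K R}
  [GradedAlgebra 𝒜] [Field E] (j : R →+* E) (hj : Function.Injective j)

/-- The map from the homogeneous localization to the ambient field. -/
noncomputable def locToField (P : Ideal R) [P.IsPrime] : AtPrime 𝒜 P →+* E :=
  (IsLocalization.lift (M := P.primeCompl) (S := Localization P.primeCompl) (g := j)
    (fun y => IsUnit.mk0 _ fun h => y.2 (by
      have : (y : R) = 0 := hj (by rw [h, map_zero])
      rw [this]; exact zero_mem _))).comp (algebraMap _ _)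

theorem locToField_mk (P : Ideal R) [P.IsPrime] (c : NumDenSameDeg 𝒜 P.primeCompl) :
    locToField j hj P (HomogeneousLocalization.mk c) = j c.num / j c.den := by
  have hden : j c.den ≠ 0 := fun h => c.den_mem (by
      have : (c.den : R) = 0 := hj (by rw [h, map_zero])
      rw [this]; exact zero_mem _)
  simp only [locToField, RingHom.comp_apply, HomogeneousLocalization.algebraMap_apply, val_mk,
    Localization.mk_eq_mk']
  rw [IsLocalization.lift_mk'_spec]
  field_simp

theorem locToField_of_val (P : Ideal R) [P.IsPrime] (z : AtPrime 𝒜 P) (r : R)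
    (h : z.val = algebraMap R _ r) : locToField j hj P z = j r := by
  simp only [locToField, RingHom.comp_apply, HomogeneousLocalization.algebraMap_apply, h]
  rw [IsLocalization.lift_eq]

theorem locToField_injective (P : Ideal R) [P.IsPrime] :
    Function.Injective (locToField (𝒜 := 𝒜) j hj P) := by
  rw [injective_iff_map_eq_zero]
  intro z hz
  obtain ⟨c, rfl⟩ := mk_surjective z
  have hden : j c.den ≠ 0 := fun h => c.den_mem (by
      have : (c.den : R) = 0 := hj (by rw [h, map_zero])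
      rw [this]; exact zero_mem _)
  rw [locToField_mk, div_eq_zero_iff, or_iff_left hden] at hz
  exact mk_eq_zero_of_num c (Subtype.ext (hj (by rw [hz]; simp)))

/-- The map from a stalk of `Proj` to the ambient field. -/
noncomputable def rho (x : Proj 𝒜) : (Proj 𝒜).presheaf.stalk x →+* E :=
  (locToField j hj x.asHomogeneousIdeal.toIdeal).comp (Proj.stalkIso 𝒜 x).hom.hom

theorem rho_injective (x : Proj 𝒜) : Function.Injective (rho j hj x) :=
  (locToField_injective j hj _).comp (Proj.stalkIso 𝒜 x).commRingCatIsoToRingEquiv.injective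

theorem rho_germ (U : (Proj 𝒜).Opens) (x : Proj 𝒜) (hx : x ∈ U) (s : Γ(Proj 𝒜, U)) :
    rho j hj x ((Proj 𝒜).presheaf.germ U x hx s) =
      locToField j hj x.asHomogeneousIdeal.toIdeal (s.1 ⟨x, hx⟩) := by
  simp only [rho, RingHom.comp_apply]
  congr 1
  exact Proj.stalkIso'_germ 𝒜 U x hx s

theorem exists_rho_eq (x : Proj 𝒜) (o : (Proj 𝒜).presheaf.stalk x) :
    ∃ i, ∃ a ∈ 𝒜 i, ∃ b ∈ 𝒜 i, b ∉ x.asHomogeneousIdeal ∧ rho j hj x o = j a / j b := by
  obtain ⟨c, hc⟩ := mk_surjective ((Proj.stalkIso 𝒜 x).hom.hom o)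
  refine ⟨c.deg, c.num, c.num.2, c.den, c.den.2, c.den_mem, ?_⟩
  simp only [rho, RingHom.comp_apply]
  rw [← hc, locToField_mk]

theorem exists_eq_rho (x : Proj 𝒜) {i : ℕ} {a b : R} (ha : a ∈ 𝒜 i) (hb : b ∈ 𝒜 i)
    (hbx : b ∉ x.asHomogeneousIdeal) : ∃ o, rho j hj x o = j a / j b := by
  refine ⟨(Proj.stalkIso 𝒜 x).inv.hom (HomogeneousLocalization.mk ⟨i, ⟨a, ha⟩, ⟨b, hb⟩, hbx⟩), ?_⟩
  simp only [rho, RingHom.comp_apply]
  rw [← CommRingCat.comp_apply, Iso.inv_hom_id]
  exact locToField_mk j hj _ _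

theorem mem_range_rho (x : Proj 𝒜) (f : E) : f ∈ (rho j hj x).range ↔
    ∃ i, ∃ a ∈ 𝒜 i, ∃ b ∈ 𝒜 i, b ∉ x.asHomogeneousIdeal ∧ f = j a / j b := by
  constructor
  · rintro ⟨o, rfl⟩
    exact exists_rho_eq j hj x o
  · rintro ⟨i, a, ha, b, hb, hbx, rfl⟩
    exact exists_eq_rho j hj x ha hb hbx

include hj in
theorem ne_zero_of_not_mem {x : Proj 𝒜} {b : R} (hb : b ∉ x.asHomogeneousIdeal) : j b ≠ 0 :=
  fun h => hb (by
    have : b = 0 := hj (by rw [h, map_zero])
    rw [this]; exact zero_mem _)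

theorem isUnit_iff_not_mem (x : Proj 𝒜) (o : (Proj 𝒜).presheaf.stalk x) {i : ℕ} {a b : R}
    (ha : a ∈ 𝒜 i) (hb : b ∈ 𝒜 i) (hbx : b ∉ x.asHomogeneousIdeal)
    (h : rho j hj x o = j a / j b) : IsUnit o ↔ a ∉ x.asHomogeneousIdeal := by
  have hb0 := ne_zero_of_not_mem j hj hbx
  constructor
  · intro hu hax
    obtain ⟨o', ho'⟩ := hu.exists_right_inv
    obtain ⟨i', a', ha', b', hb', hbx', h'⟩ := exists_rho_eq j hj x o'
    have hb0' := ne_zero_of_not_mem j hj hbx'
    have h1 := congrArg (rho j hj x) ho'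
    rw [map_mul, h, h', map_one] at h1
    have h2 : a * a' = b * b' := by
      apply hj
      rw [map_mul, map_mul]
      field_simp at h1
      exact h1
    have h3 : b * b' ∈ x.asHomogeneousIdeal.toIdeal := h2 ▸ Ideal.mul_mem_right _ _ hax
    rcases x.isPrime.mem_or_mem h3 with h4 | h4
    · exact hbx h4
    · exact hbx' h4
  · intro hax
    obtain ⟨o', ho'⟩ := exists_eq_rho j hj x hb ha hax
    have ha0 := ne_zero_of_not_mem j hj hax
    refine IsUnit.of_mul_eq_one o' (rho_injective j hj x ?_)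
    rw [map_mul, h, ho', map_one]
    field_simp

theorem rho_specializes {x y : Proj 𝒜} (h : x ⤳ y) (o : (Proj 𝒜).presheaf.stalk y) :
    rho j hj x ((Proj 𝒜).presheaf.stalkSpecializes h o) = rho j hj y o := by
  obtain ⟨c, hc⟩ := mk_surjective ((Proj.stalkIso 𝒜 y).hom.hom o)
  have ho : o = (Proj 𝒜).presheaf.germ (Proj.basicOpen 𝒜 c.den) y c.den_mem
      (sectionInBasicOpen 𝒜 y c) := by
    have : o = (Proj.stalkIso 𝒜 y).inv.hom (HomogeneousLocalization.mk c) := by
      rw [hc, ← CommRingCat.comp_apply, Iso.hom_inv_id]; rfl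
    rw [this]
    rfl
  rw [ho, TopCat.Presheaf.germ_stalkSpecializes_apply, rho_germ, rho_germ]
  exact (locToField_mk j hj _ _).trans (locToField_mk j hj _ c).symm

theorem rho_structSec (x : Proj 𝒜) (κ : K) :
    rho j hj x ((Proj 𝒜).presheaf.germ ⊤ x trivial (structSec 𝒜 κ)) = j (algebraMap K R κ) := by
  rw [rho_germ]
  exact locToField_of_val j hj _ _ _ (structSec_val 𝒜 κ x)

/-- An element of the ambient field lying in all local rings is a global section. -/
theorem exists_section (f : E) (hf : ∀ x : Proj 𝒜, f ∈ (rho j hj x).range) :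
    ∃ s : Γ(Proj 𝒜, ⊤), ∀ x, rho j hj x ((Proj 𝒜).presheaf.germ ⊤ x trivial s) = f := by
  have h1 : ∀ x : Proj 𝒜, ∃ z : AtPrime 𝒜 x.asHomogeneousIdeal.toIdeal,
      locToField j hj _ z = f := fun x => by
    obtain ⟨o, ho⟩ := hf x
    exact ⟨(Proj.stalkIso 𝒜 x).hom.hom o, ho⟩
  choose z hz using h1
  refine ⟨⟨fun x => z x.1, fun x => ?_⟩, fun x => ?_⟩
  · obtain ⟨i, a, ha, b, hb, hbx, hab⟩ := (mem_range_rho j hj x.1 f).mp (hf x.1)
    refine ⟨ProjectiveSpectrum.basicOpen 𝒜 b, hbx, homOfLE le_top, i, ⟨a, ha⟩, ⟨b, hb⟩,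
      fun y => y.2, fun y => ?_⟩
    apply locToField_injective j hj
    rw [locToField_mk]
    exact (hz _).trans hab
  · rw [rho_germ]
    exact hz x

variable (hpos : ∃ i, 0 < i ∧ ∃ a ∈ 𝒜 i, a ≠ 0)

/-- The zero ideal as a point of `Proj`. -/
noncomputable def botPoint [IsDomain R] : Proj 𝒜 :=
  corePoint (⊥ : Ideal R) (by simpa using hpos)

theorem botPoint_ideal [IsDomain R] : (botPoint hpos).asHomogeneousIdeal = ⊥ :=
  le_antisymm (homIdeal_le fun _ _ ha h => (mem_corePoint (⊥ : Ideal R) _ ha).mp h) bot_le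

theorem isGenericPoint_botPoint [IsDomain R] : IsGenericPoint (botPoint hpos) Set.univ := by
  rw [isGenericPoint_iff_specializes]
  intro y
  simp [specializes_iff, botPoint_ideal]

include hpos in
theorem isIntegral_proj [IsDomain R] : IsIntegral (Proj 𝒜) := by
  have h1 : IrreducibleSpace (Proj 𝒜) := by
    have := (isGenericPoint_botPoint hpos).isIrreducible
    exact { isPreirreducible_univ := this.2, toNonempty := ⟨botPoint hpos⟩ }
  have h2 : ∀ x : Proj 𝒜, _root_.IsReduced ((Proj 𝒜).presheaf.stalk x) := fun x =>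
    isReduced_of_injective (rho (algebraMap R (FractionRing R)) (IsFractionRing.injective _ _) x)
      (rho_injective _ _ x)
  have h3 : IsReduced (Proj 𝒜) := isReduced_of_isReduced_stalk _
  exact isIntegral_of_irreducibleSpace_of_isReduced _

theorem genericPoint_eq [IsDomain R] [IsIntegral (Proj 𝒜)] :
    genericPoint (Proj 𝒜) = botPoint hpos :=
  (genericPoint_spec _).eq (isGenericPoint_botPoint hpos)

include hpos in
theorem genericPoint_ideal [IsDomain R] [IsIntegral (Proj 𝒜)] :
    (genericPoint (Proj 𝒜)).asHomogeneousIdeal = ⊥ := by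
  rw [genericPoint_eq hpos, botPoint_ideal]

/-- The embedding of the function field into the ambient field. -/
noncomputable def theta [IsIntegral (Proj 𝒜)] : (Proj 𝒜).functionField →+* E :=
  rho j hj (genericPoint (Proj 𝒜))

theorem theta_algebraMap [IsIntegral (Proj 𝒜)] (x : Proj 𝒜) (o : (Proj 𝒜).presheaf.stalk x) :
    theta j hj (algebraMap _ (Proj 𝒜).functionField o) = rho j hj x o :=
  rho_specializes j hj _ o

include hpos in
theorem mem_range_theta [IsDomain R] [IsIntegral (Proj 𝒜)] (f : E) :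
    f ∈ (theta (𝒜 := 𝒜) j hj).range ↔
      ∃ i, ∃ a ∈ 𝒜 i, ∃ b ∈ 𝒜 i, b ≠ 0 ∧ f = j a / j b := by
  rw [theta, mem_range_rho, genericPoint_ideal hpos]
  rfl

theorem mem_range_algebraMap_iff [IsIntegral (Proj 𝒜)] (x : Proj 𝒜)
    (f : (Proj 𝒜).functionField) :
    f ∈ (algebraMap ((Proj 𝒜).presheaf.stalk x) (Proj 𝒜).functionField).range ↔
      theta j hj f ∈ (rho j hj x).range := by
  constructor
  · rintro ⟨o, rfl⟩
    exact ⟨o, (theta_algebraMap j hj x o).symm⟩
  · rintro ⟨o, ho⟩
    exact ⟨o, (theta j hj).injective (by rw [theta_algebraMap, ho])⟩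

end Pool.Agent.Work.MP_a77660_ag
end

-- merged part: Pool.Agent.Work.MP_a77660_ag.ValBridge
section
/-!
Orders of vanishing as valuations, and constants in local rings.
-/

namespace Pool.Agent.Work.MP_a77660_ag

open AlgebraicGeometry CategoryTheory Order WithZero

set_option backward.isDefEq.respectTransparency false

section Val

variable {W : Scheme.{0}} [IsIntegral W] [IsLocallyNoetherian W]

theorem isDVR_stalk (w : W) (hn : IsIntegrallyClosed (W.presheaf.stalk w)) (hw : coheight w = 1) :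
    IsDiscreteValuationRing (W.presheaf.stalk w) := by
  have h1 : Ring.KrullDimLE 1 (W.presheaf.stalk w) := krullDimLE_of_coheight_le hw.le
  have h2 : ¬ IsField (W.presheaf.stalk w) := fun h => by
    have h3 := ringKrullDim_eq_zero_of_isField h
    rw [ringKrullDim_stalk_eq_coheight, hw] at h3
    exact absurd h3 (by decide)
  have h4 : IsLocalRing.maximalIdeal (W.presheaf.stalk w) ≠ ⊥ :=
    IsLocalRing.isField_iff_maximalIdeal_eq.not.mp h2
  have h5 : IsIntegrallyClosed (W.presheaf.stalk w) ∧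
      ∃! P : Ideal (W.presheaf.stalk w), P ≠ ⊥ ∧ P.IsPrime :=
    ⟨hn, IsLocalRing.maximalIdeal _, ⟨h4, inferInstance⟩, fun P hP =>
      IsLocalRing.eq_maximalIdeal (hP.2.isMaximal_of_ne_bot hP.1)⟩
  exact ((IsDiscreteValuationRing.TFAE (W.presheaf.stalk w) h2).out 0 3).mpr h5

theorem exists_valuation (w : W) (hn : IsIntegrallyClosed (W.presheaf.stalk w))
    (hw : coheight w = 1) : ∃ v : Valuation W.functionField ℤᵐ⁰,
      (∀ f, v f ≤ 1 ↔ f ∈ (algebraMap (W.presheaf.stalk w) W.functionField).range) ∧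
      (∃ π, v π = exp (-1 : ℤ)) ∧ ∀ f, f ≠ 0 → v f = exp (-(W.ord f w)) := by
  have := isDVR_stalk w hn hw
  refine ⟨(IsDiscreteValuationRing.maximalIdeal (W.presheaf.stalk w)).valuation W.functionField,
    fun f => ⟨fun h => IsDiscreteValuationRing.exists_lift_of_le_one h, ?_⟩,
    IsDedekindDomain.HeightOneSpectrum.valuation_exists_uniformizer _ _, fun f hf => ?_⟩
  · rintro ⟨o, rfl⟩
    exact IsDedekindDomain.HeightOneSpectrum.valuation_le_one _ _
  · have h1 := (Scheme.ord_eq_iff hw hf).mp rfl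
    rw [Scheme.ordHom, Ring.ordFrac_eq_valuation_inv] at h1
    rw [exp_neg, ← inv_eq_iff_eq_inv]
    exact h1

end Val

section Const

variable {K : Type} [Field K] {W X : Scheme.{0}}

/-- Constants as global sections. -/
noncomputable def kSec (f : W ⟶ Spec (CommRingCat.of K)) : K →+* Γ(W, ⊤) :=
  ((Scheme.ΓSpecIso (CommRingCat.of K)).inv ≫ f.appTop).hom

/-- Constants in a local ring. -/
noncomputable def kStalk (f : W ⟶ Spec (CommRingCat.of K)) (w : W) : K →+* W.presheaf.stalk w :=
  (W.presheaf.germ ⊤ w trivial).hom.comp (kSec f)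

theorem essFiniteType_kStalk (f : W ⟶ Spec (CommRingCat.of K)) [LocallyOfFiniteType f] (w : W) :
    (kStalk f w).EssFiniteType := by
  have h1 : kStalk f w = (f.stalkMap w).hom.comp
      ((Spec.stalkIso (CommRingCat.of K) (f w)).inv.hom.comp
        (algebraMap K (Localization.AtPrime (f w).asIdeal))) := by
    have h2 := Spec.algebraMap_stalkIso_inv (R := CommRingCat.of K) (x := f w)
    have h3 := congrArg (fun g => (g ≫ f.stalkMap w).hom) h2
    simp only [Category.assoc, Scheme.Hom.germ_stalkMap] at h3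
    exact h3.symm
  rw [h1]
  refine RingHom.EssFiniteType.comp (RingHom.EssFiniteType.comp ?_ ?_)
    (LocallyOfFiniteType.stalkMap f w)
  · exact RingHom.essFiniteType_algebraMap.mpr inferInstance
  · exact (RingHom.FiniteType.of_surjective _
      (Spec.stalkIso (CommRingCat.of K) (f w)).symm.commRingCatIsoToRingEquiv.surjective).essFiniteType

/-- Constants in the function field. -/
noncomputable def kRat [IsIntegral W] (f : W ⟶ Spec (CommRingCat.of K)) : K →+* W.functionField :=
  kStalk f (genericPoint W)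

theorem algebraMap_kStalk [IsIntegral W] (f : W ⟶ Spec (CommRingCat.of K)) (w : W) (κ : K) :
    algebraMap (W.presheaf.stalk w) W.functionField (kStalk f w κ) = kRat f κ :=
  TopCat.Presheaf.germ_stalkSpecializes_apply W.presheaf _ _ _

theorem pullbackRat_kRat [IsIntegral W] [IsIntegral X] (φ : W ⟶ X) [IsDominant φ]
    (f : X ⟶ Spec (CommRingCat.of K)) (κ : K) :
    pullbackRat φ (kRat f κ) = kRat (φ ≫ f) κ := by
  rw [pullbackRat, kRat, kStalk, RingHom.comp_apply, CommRingCat.hom_comp, RingHom.comp_apply]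
  erw [TopCat.Presheaf.germ_stalkSpecializes_apply, Scheme.Hom.germ_stalkMap_apply]
  rfl

theorem exists_generators [IsIntegral W] (f : W ⟶ Spec (CommRingCat.of K))
    [LocallyOfFiniteType f] (w : W) : ∃ σ : Finset (W.presheaf.stalk w),
      ∀ T : Subring W.functionField, (∀ κ, kRat f κ ∈ T) →
        (∀ s ∈ σ, algebraMap (W.presheaf.stalk w) W.functionField s ∈ T) →
        (∀ t ∈ T, t⁻¹ ∈ (algebraMap (W.presheaf.stalk w) W.functionField).range → t⁻¹ ∈ T) →
        ∀ o, algebraMap (W.presheaf.stalk w) W.functionField o ∈ T := by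
  let _ := (kStalk f w).toAlgebra
  have h : Algebra.EssFiniteType K (W.presheaf.stalk w) := essFiniteType_kStalk f w
  obtain ⟨σ, hσ⟩ := (Algebra.essFiniteType_iff _ _).mp h
  refine ⟨σ, fun T hK hs hinv o => ?_⟩
  have h1 : ∀ t ∈ Algebra.adjoin K (σ : Set (W.presheaf.stalk w)),
      algebraMap (W.presheaf.stalk w) W.functionField t ∈ T := by
    intro t ht
    induction ht using Algebra.adjoin_induction with
    | mem x hx => exact hs x hx
    | algebraMap κ => exact (algebraMap_kStalk f w κ).symm ▸ hK κ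
    | add x y _ _ hx hy => rw [map_add]; exact add_mem hx hy
    | mul x y _ _ hx hy => rw [map_mul]; exact mul_mem hx hy
  obtain ⟨t, ht, ⟨u, rfl⟩, hot⟩ := hσ o
  have h2 := hinv _ (h1 _ ht) ⟨↑u⁻¹, by rw [map_units_inv]⟩
  have h3 := mul_mem (h1 _ hot) h2
  rwa [map_mul, mul_inv_cancel_right₀ (u.isUnit.map _).ne_zero] at h3

end Const

section Canon

variable {F F' : Type} [Field F] [Field F'] {r : ℕ}

/-- Transport of a derivation along a ring isomorphism. -/
def transportDer (ε : F ≃+* F') (δ : Derivation ℤ F F) : Derivation ℤ F' F' :=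
  Derivation.mk' ((ε.toAddMonoidHom.comp
    ((δ : F →ₗ[ℤ] F).toAddMonoidHom.comp ε.symm.toAddMonoidHom)).toIntLinearMap) fun a b => by
      simp

theorem transportDer_apply (ε : F ≃+* F') (δ : Derivation ℤ F F) (a : F) :
    transportDer ε δ (ε a) = ε (δ a) := by
  change ε (δ (ε.symm (ε a))) = _
  rw [ε.symm_apply_apply]

theorem exists_basis_equiv (ε : F ≃+* F') (t : Fin r → F) (δ : Fin r → Derivation ℤ F F)
    (hδ : ∀ i j, δ j (t i) = if i = j then 1 else 0)
    (hgen : Subfield.closure (Set.range t) = ⊤) :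
    ∃ β : Module.Basis (Fin r) F' Ω[F'⁄ℤ],
      ∀ a : Fin r → F, β.det (fun i => KaehlerDifferential.D ℤ F' (ε (a i))) = ε (jac δ a) := by
  obtain ⟨β, hβ⟩ := exists_basis (fun i => ε (t i)) (fun j => transportDer ε (δ j))
    (fun i j => by rw [transportDer_apply, hδ]; split_ifs <;> simp) (by
      have := congrArg (Subfield.map (ε : F →+* F')) hgen
      rw [RingHom.map_field_closure, ← Set.range_comp, ← RingHom.fieldRange_eq_map,
        RingHom.fieldRange_eq_top_iff.mpr ε.surjective] at this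
      exact this)
  refine ⟨β, fun a => ?_⟩
  rw [hβ, jac, jac, RingEquiv.map_det]
  congr 1
  ext i j
  simp [transportDer_apply]

variable (ε : F ≃+* F') (δ : Fin r → Derivation ℤ F F) (β : Module.Basis (Fin r) F' Ω[F'⁄ℤ])
  (hβ : ∀ a : Fin r → F, β.det (fun i => KaehlerDifferential.D ℤ F' (ε (a i))) = ε (jac δ a))
  {W : Scheme.{0}} [IsIntegral W] [IsLocallyNoetherian W] (ψ : F' →+* W.functionField) (w : W)
  (V : Valuation F ℤᵐ⁰)
  (hV1 : ∀ f, V f ≤ 1 ↔ ψ (ε f) ∈ (algebraMap (W.presheaf.stalk w) W.functionField).range)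
  (hV2 : ∀ f, f ≠ 0 → V f = exp (-(W.ord (ψ (ε f)) w)))

include hβ hV1 hV2 in
theorem isCanonicalCoeff_of_max (t : Fin r → F) (ht : ∀ i, V (t i) ≤ 1) (ht0 : jac δ t ≠ 0)
    (hmax : ∀ a : Fin r → F, (∀ i, V (a i) ≤ 1) → V (jac δ a) ≤ V (jac δ t)) :
    IsCanonicalCoeff β ψ w (-(W.ord (ψ (ε (jac δ t))) w)) := by
  rw [IsCanonicalCoeff, neg_neg]
  refine ⟨⟨fun i => ε (t i), fun i => (hV1 _).mp (ht i), ?_, ?_⟩, ?_⟩
  · rw [hβ]; simpa using ht0
  · rw [hβ]
  · rintro _ ⟨a, ha, ha0, rfl⟩
    obtain ⟨a, rfl⟩ : ∃ a' : Fin r → F, a = fun i => ε (a' i) :=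
      ⟨fun i => ε.symm (a i), by simp⟩
    rw [hβ] at ha0 ⊢
    have h1 := hmax a fun i => (hV1 _).mpr (ha i)
    rw [hV2 _ ht0, hV2 _ (by simpa using ha0), exp_le_exp] at h1
    omega

theorem exists_max (γ : ℤᵐ⁰)
    (hbd : ∀ a : Fin r → F, (∀ i, V (a i) ≤ 1) → V (jac δ a) ≤ γ)
    (a₀ : Fin r → F) (ha₀ : ∀ i, V (a₀ i) ≤ 1) (ha₀' : jac δ a₀ ≠ 0) :
    ∃ t : Fin r → F, (∀ i, V (t i) ≤ 1) ∧ jac δ t ≠ 0 ∧
      ∀ a : Fin r → F, (∀ i, V (a i) ≤ 1) → V (jac δ a) ≤ V (jac δ t) := by
  obtain ⟨z, ⟨t, ht, ht0, rfl⟩, hz⟩ := Int.exists_greatest_of_bdd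
    (P := fun z => ∃ a : Fin r → F, (∀ i, V (a i) ≤ 1) ∧ jac δ a ≠ 0 ∧ z = log (V (jac δ a)))
    ⟨log γ, by
      rintro _ ⟨a, ha, ha0, rfl⟩
      have h1 : V (jac δ a) ≠ 0 := by simpa using ha0
      have h2 := hbd a ha
      exact (log_le_log h1 (fun h => h1 (by rw [h] at h2; simpa using h2))).mpr h2⟩
    ⟨_, a₀, ha₀, ha₀', rfl⟩
  refine ⟨t, ht, ht0, fun a ha => ?_⟩
  by_cases ha0 : jac δ a = 0
  · rw [ha0, map_zero]; exact zero_le
  · exact (log_le_log (by simpa using ha0) (by simpa using ht0)).mp (hz _ ⟨a, ha, ha0, rfl⟩)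

theorem exists_bound_jac {ι : Type} [Finite ι] (s : ι → F) (hs : ∀ i, V (s i) ≤ 1)
    (hgen : ∀ T : Subring F, (∀ i, s i ∈ T) → (∀ t ∈ T, V t⁻¹ ≤ 1 → t⁻¹ ∈ T) →
      ∀ f, V f ≤ 1 → f ∈ T) :
    ∃ γ : ℤᵐ⁰, ∀ a : Fin r → F, (∀ i, V (a i) ≤ 1) → V (jac δ a) ≤ γ := by
  have h : ∀ j, ∃ γ : ℤᵐ⁰, ∀ f, V f ≤ 1 → V (δ j f) ≤ γ := by
    intro j
    obtain ⟨γ, hγ⟩ := (Set.finite_range fun i => V (δ j (s i))).bddAbove
    refine ⟨γ, fun f hf => ?_⟩
    exact (hgen (derSubring V (δ j) (leSub V γ)) (fun i => ⟨hs i, hγ ⟨i, rfl⟩⟩)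
      (fun t ht h => inv_mem_derSubring V _ _ ht h) f hf).2
  choose γ hγ using h
  exact ⟨∏ j, γ j, fun a ha => val_det_le V _ γ fun i j => hγ j _ (ha i)⟩

end Canon

end Pool.Agent.Work.MP_a77660_ag
end
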